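import Pool.Agent.Lib.SE.S3.Spec

/-!
# PROJECT SE, group G2: expansion of a complex minor
-/

set_option autoImplicit false

open Finset MeasureTheory
open scoped ComplexConjugate ENNReal

noncomputable section

namespace HC.SE

namespace Exp

private theorem det_expand {r : ℕ} (W : Fin r → Fin r ⊕ Fin r → ℂ)
    (D : Fin r ⊕ Fin r → Fin r → ℂ) :
    Matrix.det (Matrix.of fun l a => ∑ c, W l c * D c a) =
      ∑ f : Fin r → Fin r ⊕ Fin r,
        (∏ l, W l (f l)) * Matrix.det (Matrix.of fun l a => D (f l) a) := by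
  have e : (Matrix.of fun l a => ∑ c, W l c * D c a) =
      (Matrix.of fun l : Fin r => ∑ c, W l c • D c) := by
    ext l a
    simp [Finset.sum_apply]
  rw [e]
  have h1 := (Matrix.detRowAlternating (R := ℂ) (n := Fin r)).toMultilinearMap.map_sum
    (fun (l : Fin r) (c : Fin r ⊕ Fin r) => W l c • D c)
  refine h1.trans (Finset.sum_congr rfl fun f _ => ?_)
  exact (Matrix.detRowAlternating (R := ℂ) (n := Fin r)).toMultilinearMap.map_smul_univ
    (fun l => W l (f l)) (fun l => D (f l))

end Exp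

theorem sExp : S_exp := by
  intro r W D
  rw [Exp.det_expand]
  have h1 : ‖∑ f : Fin r → Fin r ⊕ Fin r,
      (∏ l, W l (f l)) * Matrix.det (Matrix.of fun l a => D (f l) a)‖ ^ 2 ≤
      (∑ f : Fin r → Fin r ⊕ Fin r,
        ‖(∏ l, W l (f l)) * Matrix.det (Matrix.of fun l a => D (f l) a)‖) ^ 2 :=
    pow_le_pow_left₀ (norm_nonneg _) (norm_sum_le _ _) 2
  refine h1.trans ((sq_sum_le_card_mul_sum_sq).trans (le_of_eq ?_))
  have h2 : (Finset.univ : Finset (Fin r → Fin r ⊕ Fin r)).card = (2 * r) ^ r := by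
    rw [Finset.card_univ, Fintype.card_pi_const, Fintype.card_sum, Fintype.card_fin, two_mul]
  rw [h2]
  congr 1
  refine Finset.sum_congr rfl fun f _ => ?_
  rw [norm_mul, norm_prod, mul_pow, Finset.prod_pow]

end HC.SE
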