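import Pool.Agent.Lib.SE.S3.Spec

/-!
# PROJECT SE, group G2: real determinants by squares of complex minors
-/

set_option autoImplicit false

open Finset MeasureTheory
open scoped ComplexConjugate ENNReal

noncomputable section

namespace HC.SE

namespace Hol

variable {r : ℕ}

/-- the coordinates and their conjugates on the real basis -/
def Qm (r : ℕ) : Matrix (Fin r ⊕ Fin r) (Fin (2 * r)) ℂ :=
  Matrix.of fun c j => Sum.elim (fun a => frame r j a) (fun a => conj (frame r j a)) c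

/-- the coefficients of the forms chosen by `e` -/
def Pm (A B : Fin (2 * r) → ((Fin r → ℂ) →ₗ[ℂ] ℂ)) (e : Fin (2 * r) → Bool) :
    Matrix (Fin (2 * r)) (Fin r ⊕ Fin r) ℂ :=
  Matrix.of fun i c => Sum.elim (fun a => if e i then A i (Pi.single a 1) else 0)
    (fun a => if e i then 0 else conj (B i (Pi.single a 1))) c

/-- the matrix chosen by `e` -/
def Me (A B : Fin (2 * r) → ((Fin r → ℂ) →ₗ[ℂ] ℂ)) (e : Fin (2 * r) → Bool) :
    Matrix (Fin (2 * r)) (Fin (2 * r)) ℂ :=
  Matrix.of fun i j => if e i then A i (frame r j) else conj (B i (frame r j))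

theorem lin_eq (A : (Fin r → ℂ) →ₗ[ℂ] ℂ) (v : Fin r → ℂ) :
    A v = ∑ a, A (Pi.single a 1) * v a := by
  rw [LinearMap.pi_apply_eq_sum_univ]
  refine sum_congr rfl fun a _ => ?_
  have h : (fun j => if a = j then (1 : ℂ) else 0) = Pi.single a 1 := by
    funext j
    rw [Pi.single_apply]
    by_cases h : a = j
    · rw [if_pos h, if_pos h.symm]
    · rw [if_neg h, if_neg (Ne.symm h)]
  rw [h, smul_eq_mul, mul_comm]

theorem Me_eq (A B : Fin (2 * r) → ((Fin r → ℂ) →ₗ[ℂ] ℂ)) (e : Fin (2 * r) → Bool) :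
    Me A B e = Pm A B e * Qm r := by
  ext i j
  rw [Matrix.mul_apply, Fintype.sum_sum_type]
  simp only [Me, Pm, Qm, Matrix.of_apply, Sum.elim_inl, Sum.elim_inr]
  cases h : e i with
  | true =>
    simp only [if_true, zero_mul, sum_const_zero, add_zero]
    exact lin_eq _ _
  | false =>
    simp only [Bool.false_eq_true, if_false, zero_mul, sum_const_zero, zero_add]
    rw [lin_eq (B i), map_sum]
    exact sum_congr rfl fun a _ => map_mul _ _ _

theorem det_Me (A B : Fin (2 * r) → ((Fin r → ℂ) →ₗ[ℂ] ℂ)) (e : Fin (2 * r) → Bool)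
    (τ : Fin r ⊕ Fin r ≃ Fin (2 * r)) :
    (Me A B e).det = ((Pm A B e).submatrix τ id).det * ((Qm r).submatrix id τ).det := by
  rw [← Matrix.det_mul, ← Matrix.det_submatrix_equiv_self τ, Me_eq]
  rfl

/-- the minor of the rows `g` -/
def Tm (A B : Fin (2 * r) → ((Fin r → ℂ) →ₗ[ℂ] ℂ)) (e : Fin (2 * r) → Bool)
    (g : Fin r → Fin (2 * r)) : ℝ :=
  ‖Matrix.det (Matrix.of fun l a =>
    (if e (g l) then A (g l) else B (g l)) (Pi.single a 1))‖ ^ 2

theorem det_Pm (A B : Fin (2 * r) → ((Fin r → ℂ) →ₗ[ℂ] ℂ)) (e : Fin (2 * r) → Bool)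
    (τ : Fin r ⊕ Fin r ≃ Fin (2 * r)) (h1 : ∀ a, e (τ (Sum.inl a)) = true)
    (h2 : ∀ a, e (τ (Sum.inr a)) = false) :
    ‖((Pm A B e).submatrix τ id).det‖ ≤ 2 * ∑ g : Fin r → Fin (2 * r), Tm A B e g := by
  have e1 : (Pm A B e).submatrix τ id = Matrix.fromBlocks
      (Matrix.of fun l a => A (τ (Sum.inl l)) (Pi.single a 1)) 0 0
      (Matrix.of fun l a => conj (B (τ (Sum.inr l)) (Pi.single a 1))) := by
    ext i c
    rcases i with i | i <;> rcases c with c | c
    · simp [Pm, h1]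
    · simp [Pm, h1]
    · simp [Pm, h2]
    · simp [Pm, h2]
  have e2 : (Matrix.of fun l a => conj (B (τ (Sum.inr l)) (Pi.single a 1))).det =
      conj (Matrix.of fun l a => B (τ (Sum.inr l)) (Pi.single a 1)).det := by
    rw [RingHom.map_det]
    rfl
  have hA : ‖(Matrix.of fun l a => A (τ (Sum.inl l)) (Pi.single a 1)).det‖ ^ 2 =
      Tm A B e fun l => τ (Sum.inl l) := by
    simp only [Tm, h1, if_true]
  have hB : ‖(Matrix.of fun l a => B (τ (Sum.inr l)) (Pi.single a 1)).det‖ ^ 2 =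
      Tm A B e fun l => τ (Sum.inr l) := by
    simp only [Tm, h2, Bool.false_eq_true, if_false]
  have hn : ∀ g ∈ (univ : Finset (Fin r → Fin (2 * r))), 0 ≤ Tm A B e g := fun _ _ => sq_nonneg _
  have s1 := single_le_sum hn (mem_univ fun l => τ (Sum.inl l))
  have s2 := single_le_sum hn (mem_univ fun l => τ (Sum.inr l))
  rw [e1, Matrix.det_fromBlocks_zero₂₁, e2, norm_mul, RCLike.norm_conj]
  rw [← hA] at s1
  rw [← hB] at s2
  nlinarith [sq_nonneg (‖(Matrix.of fun l a => A (τ (Sum.inl l)) (Pi.single a 1)).det‖ -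
    ‖(Matrix.of fun l a => B (τ (Sum.inr l)) (Pi.single a 1)).det‖),
    sq_nonneg ‖(Matrix.of fun l a => A (τ (Sum.inl l)) (Pi.single a 1)).det‖,
    sq_nonneg ‖(Matrix.of fun l a => B (τ (Sum.inr l)) (Pi.single a 1)).det‖]

theorem det_Pm_zero (A B : Fin (2 * r) → ((Fin r → ℂ) →ₗ[ℂ] ℂ)) (e : Fin (2 * r) → Bool)
    (σ : Fin r ⊕ Fin r ≃ Fin (2 * r))
    (h : ¬ ∃ τ : Fin r ⊕ Fin r ≃ Fin (2 * r), (∀ a, e (τ (Sum.inl a)) = true) ∧
      ∀ a, e (τ (Sum.inr a)) = false) : ((Pm A B e).submatrix σ id).det = 0 := by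
  rw [Matrix.det_apply]
  refine sum_eq_zero fun π _ => ?_
  have h1 : ∏ c, (Pm A B e).submatrix σ id (π c) c = 0 := by
    by_contra hne
    have hne' := Finset.prod_ne_zero_iff.1 hne
    apply h
    refine ⟨π.trans σ, fun a => ?_, fun a => ?_⟩
    · by_contra h2
      exact hne' (Sum.inl a) (mem_univ _) (by
        have h3 : e (σ (π (Sum.inl a))) = false := by simpa using h2
        simp [Pm, h3])
    · by_contra h2
      exact hne' (Sum.inr a) (mem_univ _) (by
        have h3 : e (σ (π (Sum.inr a))) = true := by simpa using h2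
        simp [Pm, h3])
  rw [h1, smul_zero]

theorem expand (A B : Fin (2 * r) → ((Fin r → ℂ) →ₗ[ℂ] ℂ)) :
    Matrix.det (Matrix.of fun i j => A i (frame r j) + conj (B i (frame r j))) =
      ∑ e : Fin (2 * r) → Bool, (Me A B e).det := by
  have h := (Matrix.detRowAlternating (n := Fin (2 * r)) (R := ℂ)).toMultilinearMap.map_sum
    (fun (i : Fin (2 * r)) (b : Bool) => fun j : Fin (2 * r) =>
      if b then A i (frame r j) else conj (B i (frame r j)))
  have h1 : (fun i : Fin (2 * r) => ∑ b : Bool, fun j : Fin (2 * r) =>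
      if b then A i (frame r j) else conj (B i (frame r j))) =
      fun i j => A i (frame r j) + conj (B i (frame r j)) := by
    funext i j
    rw [Fintype.sum_bool]
    simp
  rw [h1] at h
  exact h

end Hol

open Hol in
theorem sHol : S_hol := by
  intro r
  classical
  refine ⟨2 * ∑ τ : Fin r ⊕ Fin r ≃ Fin (2 * r), ‖((Qm r).submatrix id τ).det‖, by positivity, ?_⟩
  intro A B
  rw [expand, mul_sum]
  refine (norm_sum_le _ _).trans (sum_le_sum fun e _ => ?_)
  have hT : 0 ≤ ∑ g : Fin r → Fin (2 * r), Tm A B e g := sum_nonneg fun _ _ => sq_nonneg _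
  change _ ≤ _ * ∑ g : Fin r → Fin (2 * r), Tm A B e g
  by_cases h : ∃ τ : Fin r ⊕ Fin r ≃ Fin (2 * r), (∀ a, e (τ (Sum.inl a)) = true) ∧
      ∀ a, e (τ (Sum.inr a)) = false
  · obtain ⟨τ, h1, h2⟩ := h
    rw [det_Me A B e τ, norm_mul]
    have h3 : ‖((Qm r).submatrix id τ).det‖ ≤
        ∑ τ : Fin r ⊕ Fin r ≃ Fin (2 * r), ‖((Qm r).submatrix id τ).det‖ :=
      single_le_sum (f := fun τ : Fin r ⊕ Fin r ≃ Fin (2 * r) => ‖((Qm r).submatrix id τ).det‖)
        (fun _ _ => norm_nonneg _) (mem_univ τ)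
    calc ‖((Pm A B e).submatrix τ id).det‖ * ‖((Qm r).submatrix id τ).det‖
        ≤ (2 * ∑ g : Fin r → Fin (2 * r), Tm A B e g) *
            ∑ τ : Fin r ⊕ Fin r ≃ Fin (2 * r), ‖((Qm r).submatrix id τ).det‖ :=
          mul_le_mul (det_Pm A B e τ h1 h2) h3 (norm_nonneg _) (by positivity)
      _ = _ := by ring
  · rw [det_Me A B e (finSumFinEquiv.trans (finCongr (two_mul r).symm)), det_Pm_zero A B e _ h,
      zero_mul, norm_zero]
    positivity

end HC.SE
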