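import Pool.Agent.Lib.SE.S3.Spec

/-!
# PROJECT SE, group G2: integrability of the products of `2 r` forms (helper94)
-/

set_option autoImplicit false

open Finset MeasureTheory
open scoped ComplexConjugate ENNReal

noncomputable section

namespace HC.SE

namespace IntAux

variable {r : ℕ}

private theorem meas_UL (s : Fin (r + 1) → ℂ) (L : Finset (Fin (r + 1))) : Measurable (UL s L) := by
  unfold UL
  refine Finset.measurable_fun_sum _ fun j _ => ?_
  unfold _root_.SE.ux
  refine Measurable.div_const ?_ _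
  refine Finset.measurable_fun_prod _ fun a _ => ?_
  exact measurable_const.sub (measurable_pi_apply a)

private theorem meas_xi (s : Fin (r + 1) → ℂ) (L R : Fin r → Finset (Fin (r + 1)))
    (c : Fin r ⊕ Fin r) : Measurable (xiL s L R c) := by
  rcases c with a | i
  · exact measurable_pi_apply a
  · change Measurable (tL s L R i)
    unfold tL
    exact (meas_UL s _).div ((meas_UL s _).add (meas_UL s _))

private theorem meas_fd (s : Fin (r + 1) → ℂ) (L R : Fin r → Finset (Fin (r + 1)))
    (c : Fin r ⊕ Fin r) (v : Fin r → ℂ) :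
    Measurable fun x => fderiv ℂ (xiL s L R c) x v :=
  measurable_fderiv_apply_const ℂ (xiL s L R c) v

private theorem meas_det {n : ℕ} (G : Fin n → Fin n → (Fin r → ℂ) → ℂ)
    (hG : ∀ i l, Measurable (G i l)) :
    Measurable fun x => Matrix.det (Matrix.of fun i l => G i l x) := by
  simp only [Matrix.det_apply, Matrix.of_apply]
  refine Finset.measurable_fun_sum _ fun σ _ => ?_
  refine Measurable.const_smul ?_ _
  exact Finset.measurable_fun_prod _ fun i _ => hG _ _

/-- one term of the bound -/
private def trm (s : Fin (r + 1) → ℂ) (L R : Fin r → Finset (Fin (r + 1)))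
    (w : Fin r → ℂ → ℂ) (f : Fin r → Fin r ⊕ Fin r) (x : Fin r → ℂ) : ℝ :=
  (∏ l, ‖w l (xiL s L R (f l) x)‖ ^ 2) *
    ‖Matrix.det (Matrix.of fun l a => fderiv ℂ (xiL s L R (f l)) x (Pi.single a 1))‖ ^ 2

private theorem int_trm (hpull : S_pull) (s : Fin (r + 1) → ℂ)
    (L R : Fin r → Finset (Fin (r + 1))) (hs : Function.Injective s) (w : Fin r → ℂ → ℂ)
    (hw : ∀ l, Measurable (w l)) (hf : ∀ l, ∫⁻ z, ‖w l z‖ₑ ^ 2 < ⊤)
    (f : Fin r → Fin r ⊕ Fin r) : IntegrableOn (trm s L R w f) (Gd s L R) := by
  have hm : Measurable (trm s L R w f) := by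
    unfold trm
    refine Measurable.mul ?_ ?_
    · refine Finset.measurable_fun_prod _ fun l _ => ?_
      exact ((hw l).comp (meas_xi s L R (f l))).norm.pow_const 2
    · refine Measurable.pow_const (Measurable.norm ?_) 2
      exact meas_det (fun l a x => fderiv ℂ (xiL s L R (f l)) x (Pi.single a 1))
        fun l a => meas_fd s L R (f l) _
  refine ⟨hm.aestronglyMeasurable, ?_⟩
  have h1 := hpull r s L R hs f (fun l z => ‖w l z‖ₑ ^ 2) fun l => (hw l).enorm.pow_const 2
  have h2 : ∀ x, ‖trm s L R w f x‖ₑ = (∏ l, ‖w l (xiL s L R (f l) x)‖ₑ ^ 2) *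
      ‖Matrix.det (Matrix.of fun l a => fderiv ℂ (xiL s L R (f l)) x (Pi.single a 1))‖ₑ ^ 2 := by
    intro x
    have h0 : 0 ≤ trm s L R w f x := by
      unfold trm
      positivity
    rw [Real.enorm_eq_ofReal h0]
    unfold trm
    rw [ENNReal.ofReal_mul (by positivity), ENNReal.ofReal_prod_of_nonneg (fun l _ => by positivity),
      ENNReal.ofReal_pow (norm_nonneg _), ofReal_norm]
    congr 1
    refine Finset.prod_congr rfl fun l _ => ?_
    rw [ENNReal.ofReal_pow (norm_nonneg _), ofReal_norm]
  change ∫⁻ x in Gd s L R, ‖trm s L R w f x‖ₑ < ⊤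
  simp only [h2]
  refine lt_of_le_of_lt h1 (ENNReal.mul_lt_top (ENNReal.natCast_lt_top _) ?_)
  exact ENNReal.prod_lt_top fun l _ => hf l

/-- the complex linear map of `2 r` one forms -/
private def lm (s : Fin (r + 1) → ℂ) (L R : Fin r → Finset (Fin (r + 1)))
    (α : Fin r ⊕ Fin r → ℂ → ℂ) (x : Fin r → ℂ) : (Fin r → ℂ) →ₗ[ℂ] ℂ :=
  ∑ c, α c (xiL s L R c x) • (fderiv ℂ (xiL s L R c) x : (Fin r → ℂ) →ₗ[ℂ] ℂ)

private theorem lm_apply (s : Fin (r + 1) → ℂ) (L R : Fin r → Finset (Fin (r + 1)))
    (α : Fin r ⊕ Fin r → ℂ → ℂ) (x v : Fin r → ℂ) :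
    lm s L R α x v = ∑ c, α c (xiL s L R c x) * fderiv ℂ (xiL s L R c) x v := by
  unfold lm
  rw [LinearMap.sum_apply]
  rfl

end IntAux

open IntAux in
/-- Integrability of the products of `2 r` square integrable forms. -/
theorem sInt : S_pull → S_hol → S_exp → S_int := by
  intro hpull hhol hexp r s L R hs α β hα hβ hαf hβf
  obtain ⟨M, hM, hb⟩ := hhol r
  -- the bound
  set w : (Fin (2 * r) → Bool) → (Fin r → Fin (2 * r)) → (Fin r → Fin r ⊕ Fin r) →
      Fin r → ℂ → ℂ := fun e g f l z => if e (g l) then α (g l) (f l) z else β (g l) (f l) z with hw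
  have hwm : ∀ e g f l, Measurable (w e g f l) := by
    intro e g f l
    rw [hw]
    dsimp only
    by_cases h : e (g l) = true
    · simp only [h, if_true]
      exact hα _ _
    · simp only [h]
      exact hβ _ _
  have hwf : ∀ e g f l, ∫⁻ z, ‖w e g f l z‖ₑ ^ 2 < ⊤ := by
    intro e g f l
    rw [hw]
    dsimp only
    by_cases h : e (g l) = true
    · simp only [h, if_true]
      exact hαf _ _
    · simp only [h]
      exact hβf _ _
  have hI : IntegrableOn (fun x => M * ∑ e : Fin (2 * r) → Bool, ∑ g : Fin r → Fin (2 * r),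
      (((2 * r) ^ r : ℕ) : ℝ) * ∑ f : Fin r → Fin r ⊕ Fin r, trm s L R (w e g f) f x)
      (Gd s L R) := by
    refine Integrable.const_mul ?_ M
    refine integrable_finsetSum _ fun e _ => integrable_finsetSum _ fun g _ => ?_
    refine Integrable.const_mul ?_ _
    exact integrable_finsetSum _ fun f _ => int_trm hpull s L R hs _ (hwm e g f) (hwf e g f) f
  refine Integrable.mono' hI ?_ (Filter.Eventually.of_forall fun x => ?_)
  · refine Measurable.aestronglyMeasurable ?_
    refine meas_det (fun i l x => ∑ c, (α i c (xiL s L R c x) * fderiv ℂ (xiL s L R c) x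
      (frame r l) + conj (β i c (xiL s L R c x) * fderiv ℂ (xiL s L R c) x (frame r l))))
      fun i l => ?_
    refine Finset.measurable_fun_sum _ fun c _ => ?_
    refine Measurable.add ?_ ?_
    · exact ((hα i c).comp (meas_xi s L R c)).mul (meas_fd s L R c _)
    · exact Complex.continuous_conj.measurable.comp
        (((hβ i c).comp (meas_xi s L R c)).mul (meas_fd s L R c _))
  · have h1 := hb (fun i => lm s L R (α i) x) (fun i => lm s L R (β i) x)
    have h2 : (Matrix.of fun i l => ∑ c, (α i c (xiL s L R c x) * fderiv ℂ (xiL s L R c) x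
        (frame r l) + conj (β i c (xiL s L R c x) * fderiv ℂ (xiL s L R c) x (frame r l)))) =
        Matrix.of fun i j => lm s L R (α i) x (frame r j) + conj (lm s L R (β i) x (frame r j)) := by
      ext i l
      simp only [Matrix.of_apply]
      rw [lm_apply, lm_apply, map_sum, Finset.sum_add_distrib]
    rw [h2]
    refine h1.trans (mul_le_mul_of_nonneg_left ?_ hM)
    refine Finset.sum_le_sum fun e _ => Finset.sum_le_sum fun g _ => ?_
    have h3 := hexp r (fun l c => if e (g l) then α (g l) c (xiL s L R c x)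
      else β (g l) c (xiL s L R c x)) (fun c a => fderiv ℂ (xiL s L R c) x (Pi.single a 1))
    have h4 : (Matrix.of fun l a => (if e (g l) then lm s L R (α (g l)) x
        else lm s L R (β (g l)) x) (Pi.single a 1)) =
        Matrix.of fun l a => ∑ c, (if e (g l) then α (g l) c (xiL s L R c x)
          else β (g l) c (xiL s L R c x)) * fderiv ℂ (xiL s L R c) x (Pi.single a 1) := by
      ext l a
      simp only [Matrix.of_apply]
      by_cases h : e (g l) = true
      · simp only [h, if_true]
        exact lm_apply _ _ _ _ _ _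
      · simp only [h]
        exact lm_apply _ _ _ _ _ _
    rw [h4]
    exact h3

end HC.SE
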