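import Pool.Agent.Lib.SE.S3.Spec

/-!
# PROJECT SE, part S3: measurability of the differential of a curve along a branch
-/

set_option autoImplicit false

open Set Filter Topology MeasureTheory
open scoped ENNReal

noncomputable section

namespace HC.SE.G2

theorem br_pow {m : ℕ} (hm : m ≠ 0) (f : ℂ → ℂ) (k : Fin m) (x : ℂ) : br m f k x ^ m = f x := by
  have hm' : (m : ℂ) ≠ 0 := Nat.cast_ne_zero.2 hm
  rw [br, mul_pow, ← Complex.exp_nat_mul]
  have h1 : (m : ℂ) * (2 * Real.pi * Complex.I * k / m) = (k : ℕ) * (2 * Real.pi * Complex.I) := by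
    field_simp
  rw [h1, Complex.exp_nat_mul_two_pi_mul_I, one_mul, one_div,
    Complex.cpow_nat_inv_pow _ hm]

theorem eq_near {m : ℕ} (hm : m ≠ 0) {η b f : ℂ → ℂ} {x₀ : ℂ} (h0 : η x₀ = b x₀)
    (hb0 : b x₀ ≠ 0) (hη : ContinuousAt η x₀) (hb : ContinuousAt b x₀)
    (h1 : ∀ᶠ x in 𝓝 x₀, η x ^ m = f x) (h2 : ∀ᶠ x in 𝓝 x₀, b x ^ m = f x) :
    ∀ᶠ x in 𝓝 x₀, η x = b x := by
  have hq : ContinuousAt (fun x => η x / b x) x₀ := hη.div hb hb0
  have hfin : ({z : ℂ | z ^ m = 1} \ {1}).Finite := by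
    refine Set.Finite.subset ?_ (Set.sdiff_subset)
    have h := (Polynomial.nthRoots m (1 : ℂ)).toFinset.finite_toSet
    refine h.subset fun z hz => ?_
    have h2 : z ∈ Polynomial.nthRoots m (1 : ℂ) := by
      rw [Polynomial.mem_nthRoots (Nat.pos_of_ne_zero hm)]
      exact hz
    simpa using h2
  have hopen : ({z : ℂ | z ^ m = 1} \ {1})ᶜ ∈ 𝓝 (η x₀ / b x₀) := by
    refine hfin.isClosed.isOpen_compl.mem_nhds ?_
    rw [h0, div_self hb0]
    exact fun h => h.2 rfl
  have h3 := hq.preimage_mem_nhds hopen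
  have h4 : ∀ᶠ x in 𝓝 x₀, b x ≠ 0 := hb.eventually_ne hb0
  filter_upwards [h1, h2, h3, h4] with x a1 a2 a3 a4
  by_contra hne
  apply a3
  refine ⟨?_, ?_⟩
  · show (η x / b x) ^ m = 1
    rw [div_pow, a1, a2, div_self]
    rw [← a2]
    exact pow_ne_zero _ a4
  · intro h
    have h' : η x / b x = 1 := h
    rw [div_eq_one_iff_eq a4] at h'
    exact hne h'

theorem cont_branch {T : AV} (γ : Crv T) {m : ℕ} {f b : ℂ → ℂ} (hm : m ≠ 0)
    (hP : ∀ x y, γ.P (x, y) = y ^ m - f x) (hf : ∀ x ∉ γ.S, f x ≠ 0) {O : Set ℂ}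
    (hO : IsOpen O) (hOS : ∀ x ∈ O, x ∉ γ.S) (hb : ContinuousOn b O)
    (hbm : ∀ x ∈ O, b x ^ m = f x) : ContinuousOn (fun x => γ.ω x (b x)) O := by
  have : CompleteSpace T.V := FiniteDimensional.complete ℂ T.V
  intro x₀ hx₀
  apply ContinuousAt.continuousWithinAt
  have hO' : O ∈ 𝓝 x₀ := hO.mem_nhds hx₀
  have hb0 : b x₀ ≠ 0 := by
    intro h
    have := hbm x₀ hx₀
    rw [h, zero_pow hm] at this
    exact hf x₀ (hOS x₀ hx₀) this.symm
  obtain ⟨η, g, h1, h2, h3⟩ := γ.map x₀ (hOS x₀ hx₀) (b x₀) (by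
    rw [hP, hbm x₀ hx₀, sub_self])
  have h4 : ∀ᶠ x in 𝓝 x₀, η x = b x := by
    refine eq_near (f := f) hm h1 hb0 h2 (hb.continuousAt hO') ?_ ?_
    · filter_upwards [h3] with x hx
      have := hx.1
      rw [hP] at this
      exact sub_eq_zero.1 this
    · filter_upwards [hO'] with x hx using hbm x hx
  have h5 : ∀ᶠ x in 𝓝 x₀, HasDerivAt g (γ.ω x (b x)) x := by
    filter_upwards [h3, h4] with x a1 a2
    rw [← a2]
    exact a1.2.2
  obtain ⟨U, hU1, hU2, hU3⟩ := mem_nhds_iff.1 h5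
  have h6 : DifferentiableOn ℂ g U := fun x hx =>
    (show HasDerivAt g (γ.ω x (b x)) x from hU1 hx).differentiableAt.differentiableWithinAt
  have h7 : AnalyticAt ℂ g x₀ := h6.analyticAt (hU2.mem_nhds hU3)
  have h8 : ContinuousAt (deriv g) x₀ := h7.deriv.continuousAt
  refine h8.congr ?_
  filter_upwards [h5] with x hx
  exact hx.deriv

/-- the second branch -/
def br2 (m : ℕ) (f : ℂ → ℂ) (k : Fin m) (x : ℂ) : ℂ :=
  Complex.exp (2 * Real.pi * Complex.I * k / m) *
    (Complex.exp (Real.pi * Complex.I / m) * (-f x) ^ (1 / m : ℂ))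

theorem br2_pow {m : ℕ} (hm : m ≠ 0) (f : ℂ → ℂ) (k : Fin m) (x : ℂ) :
    br2 m f k x ^ m = f x := by
  have hm' : (m : ℂ) ≠ 0 := Nat.cast_ne_zero.2 hm
  rw [br2, mul_pow, mul_pow, ← Complex.exp_nat_mul, ← Complex.exp_nat_mul]
  have h1 : (m : ℂ) * (2 * Real.pi * Complex.I * k / m) = (k : ℕ) * (2 * Real.pi * Complex.I) := by
    field_simp
  have h2 : (m : ℂ) * (Real.pi * Complex.I / m) = Real.pi * Complex.I := by
    field_simp
  rw [h1, h2, Complex.exp_nat_mul_two_pi_mul_I, Complex.exp_pi_mul_I, one_mul, one_div,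
    Complex.cpow_nat_inv_pow _ hm]
  ring

theorem br_eq_br2 {m : ℕ} (f : ℂ → ℂ) (k : Fin m) {x : ℂ} (hx : f x ≠ 0)
    (h : f x ∉ Complex.slitPlane) : br m f k x = br2 m f k x := by
  rw [br, br2]
  congr 1
  rw [Complex.mem_slitPlane_iff, not_or, not_lt, not_not] at h
  have h1 : f x = ((f x).re : ℂ) := by
    apply Complex.ext
    · simp
    · simp [h.2]
  have h2 : (f x).re < 0 := by
    refine lt_of_le_of_ne h.1 fun h0 => hx ?_
    rw [h1, h0]
    simp
  rw [Complex.cpow_def_of_ne_zero hx, Complex.cpow_def_of_ne_zero (neg_ne_zero.2 hx),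
    ← Complex.exp_add]
  congr 1
  have h3 : Complex.log (f x) = Complex.log (-f x) + Real.pi * Complex.I := by
    rw [Complex.log, Complex.log]
    have e1 : Complex.arg (f x) = Real.pi := by
      rw [h1]
      exact Complex.arg_ofReal_of_neg h2
    have e2 : Complex.arg (-f x) = 0 := by
      rw [h1, ← Complex.ofReal_neg]
      exact Complex.arg_ofReal_of_nonneg (by linarith)
    rw [e1, e2, norm_neg]
    simp
  rw [h3]
  ring

theorem continuousAt_cpow_br {m : ℕ} {f : ℂ → ℂ} (hf : Continuous f) {x : ℂ}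
    (h : f x ∈ Complex.slitPlane) : ContinuousAt (fun x => f x ^ (1 / m : ℂ)) x :=
  hf.continuousAt.cpow continuousAt_const h

theorem meas_ind {O : Set ℂ} (hO : IsOpen O) {F : ℂ → ℂ} (hF : ContinuousOn F O) :
    Measurable (O.indicator F) := by
  classical
  rw [← Set.piecewise_eq_indicator]
  exact hF.measurable_piecewise continuousOn_const hO.measurableSet

theorem s_mea : S_mea := by
  intro T γ m f hm hfc hP hf k B
  have hSo : IsOpen {x : ℂ | x ∉ γ.S} := γ.fin.isClosed.isOpen_compl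
  have hBc : Continuous B := B.continuous_of_finiteDimensional
  refine ⟨?_, ?_⟩
  · have hO1 : IsOpen ({x : ℂ | x ∉ γ.S} ∩ f ⁻¹' Complex.slitPlane) :=
      hSo.inter (Complex.isOpen_slitPlane.preimage hfc)
    have hO2 : IsOpen ({x : ℂ | x ∉ γ.S} ∩ (fun x => -f x) ⁻¹' Complex.slitPlane) :=
      hSo.inter (Complex.isOpen_slitPlane.preimage hfc.neg)
    have c1 : ContinuousOn (fun x => B (γ.ω x (br m f k x)))
        ({x : ℂ | x ∉ γ.S} ∩ f ⁻¹' Complex.slitPlane) := by
      refine hBc.comp_continuousOn (cont_branch γ hm hP hf hO1 (fun x hx => hx.1) ?_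
        fun x _ => br_pow hm f k x)
      intro x hx
      exact (continuousAt_const.mul (continuousAt_cpow_br hfc hx.2)).continuousWithinAt
    have c2 : ContinuousOn (fun x => B (γ.ω x (br2 m f k x)))
        ({x : ℂ | x ∉ γ.S} ∩ (fun x => -f x) ⁻¹' Complex.slitPlane) := by
      refine hBc.comp_continuousOn (cont_branch γ hm hP hf hO2 (fun x hx => hx.1) ?_
        fun x _ => br2_pow hm f k x)
      intro x hx
      exact (continuousAt_const.mul (continuousAt_const.mul
        (continuousAt_cpow_br hfc.neg hx.2))).continuousWithinAt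
    have m1 := meas_ind hO1 c1
    have m2 := (meas_ind hO2 c2).indicator (hSo.measurableSet.diff hO1.measurableSet)
    have e : (fun x => {x | x ∉ γ.S}.indicator (fun x => B (γ.ω x (br m f k x))) x)
        = fun x => ({x : ℂ | x ∉ γ.S} ∩ f ⁻¹' Complex.slitPlane).indicator
          (fun x => B (γ.ω x (br m f k x))) x +
          ({x : ℂ | x ∉ γ.S} \ ({x : ℂ | x ∉ γ.S} ∩ f ⁻¹' Complex.slitPlane)).indicator
          (({x : ℂ | x ∉ γ.S} ∩ (fun x => -f x) ⁻¹' Complex.slitPlane).indicator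
            (fun x => B (γ.ω x (br2 m f k x)))) x := by
      funext x
      by_cases hx : x ∈ {x : ℂ | x ∉ γ.S}
      · by_cases hx2 : f x ∈ Complex.slitPlane
        · rw [Set.indicator_of_mem hx, Set.indicator_of_mem (show x ∈ _ ∩ _ from ⟨hx, hx2⟩),
            Set.indicator_of_notMem (fun h => h.2 ⟨hx, hx2⟩), add_zero]
        · have hne := hf x hx
          have hx3 : -f x ∈ Complex.slitPlane := by
            rw [Complex.mem_slitPlane_iff] at hx2 ⊢
            rw [not_or, not_lt, not_not] at hx2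
            left
            rw [Complex.neg_re]
            have : (f x).re < 0 := by
              refine lt_of_le_of_ne hx2.1 fun h0 => hne ?_
              apply Complex.ext
              · simpa using h0
              · simpa using hx2.2
            linarith
          rw [Set.indicator_of_mem hx, Set.indicator_of_notMem (fun h => hx2 h.2),
            Set.indicator_of_mem (show x ∈ _ \ _ from ⟨hx, fun h => hx2 h.2⟩),
            Set.indicator_of_mem (show x ∈ _ ∩ _ from ⟨hx, hx3⟩), zero_add,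
            br_eq_br2 f k hne hx2]
      · rw [Set.indicator_of_notMem hx, Set.indicator_of_notMem (fun h => hx h.1),
          Set.indicator_of_notMem (fun h => hx h.1), add_zero]
    rw [e]
    exact m1.add m2
  · -- the area
    have hfin : ∀ x : ℂ, {y | γ.P (x, y) = 0}.Finite := by
      intro x
      have h := (Polynomial.nthRoots m (f x)).toFinset.finite_toSet
      refine h.subset fun z hz => ?_
      have hz' : γ.P (x, z) = 0 := hz
      rw [hP] at hz'
      have h2 : z ∈ Polynomial.nthRoots m (f x) := by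
        rw [Polynomial.mem_nthRoots (Nat.pos_of_ne_zero hm)]
        exact sub_eq_zero.1 hz'
      simpa using h2
    let B' : T.V →L[ℂ] ℂ := LinearMap.toContinuousLinearMap B
    have hle : ∀ x, ‖{x | x ∉ γ.S}.indicator (fun x => B (γ.ω x (br m f k x))) x‖ₑ ^ 2
        ≤ ENNReal.ofReal (‖B'‖ ^ 2 * ∑ᶠ y ∈ {y | γ.P (x, y) = 0}, ‖γ.ω x y‖ ^ 2) := by
      intro x
      by_cases hx : x ∈ {x : ℂ | x ∉ γ.S}
      · rw [Set.indicator_of_mem hx]
        have h1 : ‖B (γ.ω x (br m f k x))‖ ≤ ‖B'‖ * ‖γ.ω x (br m f k x)‖ :=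
          B'.le_opNorm _
        have h2 : ‖γ.ω x (br m f k x)‖ ^ 2
            ≤ ∑ᶠ y ∈ {y | γ.P (x, y) = 0}, ‖γ.ω x y‖ ^ 2 := by
          rw [finsum_mem_eq_finite_toFinset_sum _ (hfin x)]
          exact Finset.single_le_sum (f := fun y => ‖γ.ω x y‖ ^ 2)
            (fun y _ => by positivity) ((hfin x).mem_toFinset.2 (by
              show γ.P (x, br m f k x) = 0
              rw [hP, br_pow hm, sub_self]))
        have h3 : ‖B (γ.ω x (br m f k x))‖ ^ 2
            ≤ ‖B'‖ ^ 2 * ∑ᶠ y ∈ {y | γ.P (x, y) = 0}, ‖γ.ω x y‖ ^ 2 := by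
          calc _ ≤ (‖B'‖ * ‖γ.ω x (br m f k x)‖) ^ 2 := by gcongr
            _ = ‖B'‖ ^ 2 * ‖γ.ω x (br m f k x)‖ ^ 2 := by ring
            _ ≤ _ := by gcongr
        rw [← ofReal_norm, ← ENNReal.ofReal_pow (norm_nonneg _)]
        exact ENNReal.ofReal_le_ofReal h3
      · rw [Set.indicator_of_notMem hx]
        simp
    refine lt_of_le_of_lt (lintegral_mono hle) ?_
    exact (γ.area.const_mul (‖B'‖ ^ 2)).lintegral_lt_top

end HC.SE.G2
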