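import Pool.Agent.Lib.SE.S2.GDefs

/-!
# PROJECT SE: the leaves on the left and on the right of a node, as sets
-/

set_option autoImplicit false

open Finset

noncomputable section

namespace SE

namespace Tr

/-- The leaf is on the left of the node. -/
def isL : (τ : Tr) → τ.N → τ.L → Bool
  | lf, ν, _ => Empty.elim ν
  | nd _ _, none, Sum.inl _ => true
  | nd _ _, none, Sum.inr _ => false
  | nd l _, some (Sum.inl ν), Sum.inl j => isL l ν j
  | nd _ _, some (Sum.inl _), Sum.inr _ => false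
  | nd _ _, some (Sum.inr _), Sum.inl _ => false
  | nd _ r, some (Sum.inr ν), Sum.inr j => isL r ν j

/-- The leaf is on the right of the node. -/
def isR : (τ : Tr) → τ.N → τ.L → Bool
  | lf, ν, _ => Empty.elim ν
  | nd _ _, none, Sum.inl _ => false
  | nd _ _, none, Sum.inr _ => true
  | nd l _, some (Sum.inl ν), Sum.inl j => isR l ν j
  | nd _ _, some (Sum.inl _), Sum.inr _ => false
  | nd _ _, some (Sum.inr _), Sum.inl _ => false
  | nd _ r, some (Sum.inr ν), Sum.inr j => isR r ν j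

theorem sum_L {M : Type} [AddCommMonoid M] {l r : Tr} (f : (nd l r).L → M) :
    ∑ j, f j = ∑ j, f (Sum.inl j) + ∑ j, f (Sum.inr j) := Fintype.sum_sum_type f

theorem lr_fst {M : Type} [AddCommMonoid M] : ∀ (τ : Tr) (f : τ.L → M) (ν : τ.N),
    (τ.lr f ν).1 = ∑ j, if isL τ ν j then f j else 0
  | lf, _, ν => Empty.elim ν
  | nd l r, f, none => by
    rw [sum_L]
    have h1 : ∀ j : l.L, (if isL (nd l r) none (Sum.inl j) = true then f (Sum.inl j) else 0) =
        f (Sum.inl j) := fun j => rfl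
    have h2 : ∀ j : r.L, (if isL (nd l r) none (Sum.inr j) = true then f (Sum.inr j) else 0) =
        0 := fun j => rfl
    rw [Finset.sum_congr rfl fun j _ => h1 j, Finset.sum_congr rfl fun j _ => h2 j,
      Finset.sum_const_zero, add_zero]
    rfl
  | nd l r, f, some (Sum.inl ν) => by
    rw [sum_L]
    have h1 : ∀ j : l.L, (if isL (nd l r) (some (Sum.inl ν)) (Sum.inl j) = true
        then f (Sum.inl j) else 0) = if isL l ν j then f (Sum.inl j) else 0 := fun j => rfl
    have h2 : ∀ j : r.L, (if isL (nd l r) (some (Sum.inl ν)) (Sum.inr j) = true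
        then f (Sum.inr j) else 0) = 0 := fun j => rfl
    rw [Finset.sum_congr rfl fun j _ => h1 j, Finset.sum_congr rfl fun j _ => h2 j,
      Finset.sum_const_zero, add_zero]
    exact lr_fst l (fun j => f (Sum.inl j)) ν
  | nd l r, f, some (Sum.inr ν) => by
    rw [sum_L]
    have h1 : ∀ j : l.L, (if isL (nd l r) (some (Sum.inr ν)) (Sum.inl j) = true
        then f (Sum.inl j) else 0) = 0 := fun j => rfl
    have h2 : ∀ j : r.L, (if isL (nd l r) (some (Sum.inr ν)) (Sum.inr j) = true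
        then f (Sum.inr j) else 0) = if isL r ν j then f (Sum.inr j) else 0 := fun j => rfl
    rw [Finset.sum_congr rfl fun j _ => h1 j, Finset.sum_congr rfl fun j _ => h2 j,
      Finset.sum_const_zero, zero_add]
    exact lr_fst r (fun j => f (Sum.inr j)) ν

theorem lr_snd {M : Type} [AddCommMonoid M] : ∀ (τ : Tr) (f : τ.L → M) (ν : τ.N),
    (τ.lr f ν).2 = ∑ j, if isR τ ν j then f j else 0
  | lf, _, ν => Empty.elim ν
  | nd l r, f, none => by
    rw [sum_L]
    have h1 : ∀ j : l.L, (if isR (nd l r) none (Sum.inl j) = true then f (Sum.inl j) else 0) =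
        0 := fun j => rfl
    have h2 : ∀ j : r.L, (if isR (nd l r) none (Sum.inr j) = true then f (Sum.inr j) else 0) =
        f (Sum.inr j) := fun j => rfl
    rw [Finset.sum_congr rfl fun j _ => h1 j, Finset.sum_congr rfl fun j _ => h2 j,
      Finset.sum_const_zero, zero_add]
    rfl
  | nd l r, f, some (Sum.inl ν) => by
    rw [sum_L]
    have h1 : ∀ j : l.L, (if isR (nd l r) (some (Sum.inl ν)) (Sum.inl j) = true
        then f (Sum.inl j) else 0) = if isR l ν j then f (Sum.inl j) else 0 := fun j => rfl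
    have h2 : ∀ j : r.L, (if isR (nd l r) (some (Sum.inl ν)) (Sum.inr j) = true
        then f (Sum.inr j) else 0) = 0 := fun j => rfl
    rw [Finset.sum_congr rfl fun j _ => h1 j, Finset.sum_congr rfl fun j _ => h2 j,
      Finset.sum_const_zero, add_zero]
    exact lr_snd l (fun j => f (Sum.inl j)) ν
  | nd l r, f, some (Sum.inr ν) => by
    rw [sum_L]
    have h1 : ∀ j : l.L, (if isR (nd l r) (some (Sum.inr ν)) (Sum.inl j) = true
        then f (Sum.inl j) else 0) = 0 := fun j => rfl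
    have h2 : ∀ j : r.L, (if isR (nd l r) (some (Sum.inr ν)) (Sum.inr j) = true
        then f (Sum.inr j) else 0) = if isR r ν j then f (Sum.inr j) else 0 := fun j => rfl
    rw [Finset.sum_congr rfl fun j _ => h1 j, Finset.sum_congr rfl fun j _ => h2 j,
      Finset.sum_const_zero, zero_add]
    exact lr_snd r (fun j => f (Sum.inr j)) ν

theorem not_isL_isR : ∀ (τ : Tr) (ν : τ.N) (j : τ.L), isL τ ν j = true → isR τ ν j = true → False
  | lf, ν, _ => Empty.elim ν
  | nd _ _, none, Sum.inl _ => fun _ h => Bool.false_ne_true h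
  | nd _ _, none, Sum.inr _ => fun h _ => Bool.false_ne_true h
  | nd l _, some (Sum.inl ν), Sum.inl j => not_isL_isR l ν j
  | nd _ _, some (Sum.inl _), Sum.inr _ => fun h _ => Bool.false_ne_true h
  | nd _ _, some (Sum.inr _), Sum.inl _ => fun h _ => Bool.false_ne_true h
  | nd _ r, some (Sum.inr ν), Sum.inr j => not_isL_isR r ν j

theorem exists_leaf : ∀ τ : Tr, Nonempty τ.L
  | lf => ⟨()⟩
  | nd l _ => ⟨Sum.inl (exists_leaf l).some⟩

theorem exists_isL : ∀ (τ : Tr) (ν : τ.N), ∃ j, isL τ ν j = true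
  | lf, ν => Empty.elim ν
  | nd l _, none => ⟨Sum.inl (exists_leaf l).some, rfl⟩
  | nd l _, some (Sum.inl ν) => by
    obtain ⟨j, hj⟩ := exists_isL l ν
    exact ⟨Sum.inl j, hj⟩
  | nd _ r, some (Sum.inr ν) => by
    obtain ⟨j, hj⟩ := exists_isL r ν
    exact ⟨Sum.inr j, hj⟩

theorem exists_isR : ∀ (τ : Tr) (ν : τ.N), ∃ j, isR τ ν j = true
  | lf, ν => Empty.elim ν
  | nd _ r, none => ⟨Sum.inr (exists_leaf r).some, rfl⟩
  | nd l _, some (Sum.inl ν) => by
    obtain ⟨j, hj⟩ := exists_isR l ν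
    exact ⟨Sum.inl j, hj⟩
  | nd _ r, some (Sum.inr ν) => by
    obtain ⟨j, hj⟩ := exists_isR r ν
    exact ⟨Sum.inr j, hj⟩

end Tr

/-- The leaves on the left of the node, as indices. -/
def LL {r : ℕ} (τ : Tr) (eL : Fin (r + 1) ≃ τ.L) (eN : Fin r ≃ τ.N) (i : Fin r) :
    Finset (Fin (r + 1)) := univ.filter fun j => Tr.isL τ (eN i) (eL j) = true

/-- The leaves on the right of the node, as indices. -/
def RR {r : ℕ} (τ : Tr) (eL : Fin (r + 1) ≃ τ.L) (eN : Fin r ≃ τ.N) (i : Fin r) :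
    Finset (Fin (r + 1)) := univ.filter fun j => Tr.isR τ (eN i) (eL j) = true

theorem sum_LL {M : Type} [AddCommMonoid M] {r : ℕ} (τ : Tr) (eL : Fin (r + 1) ≃ τ.L)
    (eN : Fin r ≃ τ.N) (i : Fin r) (f : Fin (r + 1) → M) :
    ∑ j ∈ LL τ eL eN i, f j = (τ.lr (fun l => f (eL.symm l)) (eN i)).1 := by
  rw [Tr.lr_fst, LL, Finset.sum_filter, ← Equiv.sum_comp eL]
  simp only [Equiv.symm_apply_apply]

theorem sum_RR {M : Type} [AddCommMonoid M] {r : ℕ} (τ : Tr) (eL : Fin (r + 1) ≃ τ.L)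
    (eN : Fin r ≃ τ.N) (i : Fin r) (f : Fin (r + 1) → M) :
    ∑ j ∈ RR τ eL eN i, f j = (τ.lr (fun l => f (eL.symm l)) (eN i)).2 := by
  rw [Tr.lr_snd, RR, Finset.sum_filter, ← Equiv.sum_comp eL]
  simp only [Equiv.symm_apply_apply]

theorem LL_nonempty {r : ℕ} (τ : Tr) (eL : Fin (r + 1) ≃ τ.L) (eN : Fin r ≃ τ.N) (i : Fin r) :
    (LL τ eL eN i).Nonempty := by
  obtain ⟨j, hj⟩ := Tr.exists_isL τ (eN i)
  exact ⟨eL.symm j, by rw [LL, Finset.mem_filter]; exact ⟨Finset.mem_univ _, by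
    rw [Equiv.apply_symm_apply]; exact hj⟩⟩

theorem RR_nonempty {r : ℕ} (τ : Tr) (eL : Fin (r + 1) ≃ τ.L) (eN : Fin r ≃ τ.N) (i : Fin r) :
    (RR τ eL eN i).Nonempty := by
  obtain ⟨j, hj⟩ := Tr.exists_isR τ (eN i)
  exact ⟨eL.symm j, by rw [RR, Finset.mem_filter]; exact ⟨Finset.mem_univ _, by
    rw [Equiv.apply_symm_apply]; exact hj⟩⟩

theorem LL_RR_disjoint {r : ℕ} (τ : Tr) (eL : Fin (r + 1) ≃ τ.L) (eN : Fin r ≃ τ.N) (i : Fin r) :
    Disjoint (LL τ eL eN i) (RR τ eL eN i) := by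
  rw [Finset.disjoint_left]
  intro j h1 h2
  rw [LL, Finset.mem_filter] at h1
  rw [RR, Finset.mem_filter] at h2
  exact Tr.not_isL_isR τ _ _ h1.2 h2.2

end SE
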