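import Pool.Agent.Lib.SE.S3.Spec
import Pool.Agent.Lib.SE.S3.LS
import Pool.Agent.Lib.SE.S2.GVal
import Pool.Agent.Lib.SE.S2.AnaG
import Pool.Agent.Lib.SE.S2.Dc

/-!
# PROJECT SE: the bridge `S_VAL → S_POS → S_CNT → S_TRE → S_pt`
-/

set_option autoImplicit false

open Finset MeasureTheory
open scoped ComplexConjugate

noncomputable section

namespace HC.SE

open _root_.SE

section tree
variable {r : ℕ} (τ : Tr) (eL : Fin (r + 1) ≃ τ.L) (eN : Fin r ≃ τ.N)

theorem UL_LL (s : Fin (r + 1) → ℂ) (i : Fin r) (x : Fin r → ℂ) :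
    UL s (LL τ eL eN i) x = (τ.lr (uT τ eL s x) (eN i)).1 := sum_LL τ eL eN i fun j => ux s x j

theorem UL_RR (s : Fin (r + 1) → ℂ) (i : Fin r) (x : Fin r → ℂ) :
    UL s (RR τ eL eN i) x = (τ.lr (uT τ eL s x) (eN i)).2 := sum_RR τ eL eN i fun j => ux s x j

theorem tL_eq (s : Fin (r + 1) → ℂ) (i : Fin r) (x : Fin r → ℂ) :
    tL s (LL τ eL eN) (RR τ eL eN) i x = tN τ eL s x (eN i) := by
  rw [tL, UL_LL, UL_RR]
  rfl

theorem tL_fun (s : Fin (r + 1) → ℂ) (i : Fin r) :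
    tL s (LL τ eL eN) (RR τ eL eN) i = fun x => τ.tt (uT τ eL s x) (eN i) := by
  funext x
  exact tL_eq τ eL eN s i x

theorem cL_eq (b : Fin (r + 1) → ℕ) (i : Fin r) :
    ∑ j ∈ LL τ eL eN i, b j = cL τ eL b (eN i) := sum_LL τ eL eN i b

theorem cR_eq (b : Fin (r + 1) → ℕ) (i : Fin r) :
    ∑ j ∈ RR τ eL eN i, b j = cR τ eL b (eN i) := sum_RR τ eL eN i b

theorem Gd_eq {s : Fin (r + 1) → ℂ} (hs : Function.Injective s) :
    Gd s (LL τ eL eN) (RR τ eL eN) = gD τ eL s := by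
  ext x
  constructor
  · rintro ⟨h1, h2, h3⟩
    refine ⟨h1, h2, fun j => ?_, ?_, fun ν => ?_⟩
    · exact _root_.SE.ux_ne hs h2 _
    · have := sum_uT τ eL hs x
      rw [show (∑ j, uL τ eL s x j) = 1 from this]
      exact one_ne_zero
    · obtain ⟨i, rfl⟩ := eN.surjective ν
      have h4 := h3 i
      rw [UL_LL, UL_RR] at h4
      exact h4
  · rintro ⟨h1, h2, h3⟩
    refine ⟨h1, h2, fun i => ?_⟩
    rw [UL_LL, UL_RR]
    exact h3.2.2 (eN i)

end tree

theorem frame_apply {r : ℕ} (l : Fin (2 * r)) :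
    frame r l = Pi.single (⟨l / 2, by omega⟩ : Fin r) (if l.1 % 2 = 0 then (1 : ℂ) else Complex.I) :=
  rfl

theorem RA_frame {r : ℕ} (m : ℕ) (s : Fin (r + 1) → ℂ) (b : Fin (r + 1) → ℕ) (u i : ℕ)
    (x : Fin r → ℂ) (y : Fin r ⊕ Fin r → ℂ) (l : Fin (2 * r)) :
    RA m s b u i x y (frame r l) =
      fA m s b u i (x ⟨l / 2, by omega⟩) (y (Sum.inl ⟨l / 2, by omega⟩)) *
        (if l.1 % 2 = 0 then 1 else Complex.I) := by
  unfold RA
  rw [frame_apply, Finset.sum_eq_single (⟨l / 2, by omega⟩ : Fin r)]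
  · rw [Pi.single_eq_same, mul_comm]
    rfl
  · intro a _ ha
    rw [Pi.single_eq_of_ne ha, zero_mul]
  · intro h
    exact absurd (Finset.mem_univ _) h

theorem RA_frame_conj {r : ℕ} (m : ℕ) (s : Fin (r + 1) → ℂ) (b : Fin (r + 1) → ℕ) (u i : ℕ)
    (x : Fin r → ℂ) (y : Fin r ⊕ Fin r → ℂ) (l : Fin (2 * r)) :
    conj (RA m s b u i x y (frame r l)) =
      conj (fA m s b u i (x ⟨l / 2, by omega⟩) (y (Sum.inl ⟨l / 2, by omega⟩))) *
        (if l.1 % 2 = 0 then 1 else -Complex.I) := by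
  rw [RA_frame, map_mul]
  congr 1
  split_ifs
  · exact map_one _
  · exact Complex.conj_I

theorem RT_frame {r : ℕ} (m : ℕ) (τ : Tr) (eL : Fin (r + 1) ≃ τ.L) (eN : Fin r ≃ τ.N)
    (s : Fin (r + 1) → ℂ) (b : Fin (r + 1) → ℕ) (u : ℕ) (i : Fin r)
    (x : Fin r → ℂ) (hx : x ∈ gD τ eL s) (y : Fin r ⊕ Fin r → ℂ) (l : Fin (2 * r)) :
    RT m s b (LL τ eL eN) (RR τ eL eN) u i x y (frame r l) =
      fN m τ eL s b u x (eN i) (y (Sum.inr i)) * jN τ eL s x (eN i) ⟨l / 2, by omega⟩ *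
        (if l.1 % 2 = 0 then 1 else Complex.I) := by
  unfold RT
  rw [tL_eq, cL_eq, cR_eq, tL_fun]
  have h1 := (hasFDerivAt_tt τ eL s x (eN i) (hx.2.2.2.2 (eN i)).2.2).fderiv
  rw [h1, frame_apply, _root_.SE.lf_apply, Finset.sum_eq_single (⟨l / 2, by omega⟩ : Fin r)]
  · rw [Pi.single_eq_same, fN, _root_.SE.S4.Wf, div_div]
    have h2 : tN τ eL s x (eN i) ^ (1 + u * cL τ eL b (eN i) / m) *
        (1 - tN τ eL s x (eN i)) ^ (1 + u * cR τ eL b (eN i) / m) =
        tN τ eL s x (eN i) ^ (u * cL τ eL b (eN i) / m) *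
        (1 - tN τ eL s x (eN i)) ^ (u * cR τ eL b (eN i) / m) *
        (tN τ eL s x (eN i) * (1 - tN τ eL s x (eN i))) := by
      rw [pow_add, pow_add]
      ring
    rw [h2, jN]
    ring
  · intro a _ ha
    rw [Pi.single_eq_of_ne ha, mul_zero]
  · intro h
    exact absurd (Finset.mem_univ _) h

theorem RT_frame_conj {r : ℕ} (m : ℕ) (τ : Tr) (eL : Fin (r + 1) ≃ τ.L) (eN : Fin r ≃ τ.N)
    (s : Fin (r + 1) → ℂ) (b : Fin (r + 1) → ℕ) (u : ℕ) (i : Fin r)
    (x : Fin r → ℂ) (hx : x ∈ gD τ eL s) (y : Fin r ⊕ Fin r → ℂ) (l : Fin (2 * r)) :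
    conj (RT m s b (LL τ eL eN) (RR τ eL eN) u i x y (frame r l)) =
      conj (fN m τ eL s b u x (eN i) (y (Sum.inr i)) * jN τ eL s x (eN i) ⟨l / 2, by omega⟩) *
        (if l.1 % 2 = 0 then 1 else -Complex.I) := by
  rw [RT_frame m τ eL eN s b u i x hx, map_mul]
  congr 1
  split_ifs
  · exact map_one _
  · exact Complex.conj_I

/-- The exchange of the two last summands. -/
def swp (p q : ℕ) : (Fin p ⊕ Fin q) ⊕ (Fin p ⊕ Fin q) ≃ (Fin p ⊕ Fin q) ⊕ (Fin p ⊕ Fin q) where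
  toFun a := match a with
    | Sum.inl (Sum.inl i) => Sum.inl (Sum.inl i)
    | Sum.inl (Sum.inr j) => Sum.inr (Sum.inr j)
    | Sum.inr (Sum.inl i) => Sum.inr (Sum.inl i)
    | Sum.inr (Sum.inr j) => Sum.inl (Sum.inr j)
  invFun a := match a with
    | Sum.inl (Sum.inl i) => Sum.inl (Sum.inl i)
    | Sum.inl (Sum.inr j) => Sum.inr (Sum.inr j)
    | Sum.inr (Sum.inl i) => Sum.inr (Sum.inl i)
    | Sum.inr (Sum.inr j) => Sum.inl (Sum.inr j)
  left_inv a := by rcases a with (a | a) | (a | a) <;> rfl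
  right_inv a := by rcases a with (a | a) | (a | a) <;> rfl

/-- The numbering of the rows. -/
def rho {r p q : ℕ} {N : Type} (hpq : p + q = r) (e : Fin p ⊕ Fin q ≃ N) (eN : Fin r ≃ N)
    (ec : Fin p ⊕ Fin q ≃ Fin r) : Fin r ⊕ Fin r ≃ Fin (2 * r) :=
  (Equiv.sumCongr ec.symm ec.symm).trans ((swp p q).trans
    ((Equiv.sumCongr (finSumFinEquiv.trans (finCongr hpq)) (e.trans eN.symm)).trans
      (finSumFinEquiv.trans (finCongr (by ring)))))

section rho
variable {r p q : ℕ} {N : Type} (hpq : p + q = r) (e : Fin p ⊕ Fin q ≃ N) (eN : Fin r ≃ N)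
    (ec : Fin p ⊕ Fin q ≃ Fin r)

theorem rho_1 (i : Fin p) : (rho hpq e eN ec (Sum.inl (ec (Sum.inl i)))).1 = i.1 := by
  simp [rho, swp]

theorem rho_2 (j : Fin q) : (rho hpq e eN ec (Sum.inl (ec (Sum.inr j)))).1 =
    r + (eN.symm (e (Sum.inr j))).1 := by
  simp [rho, swp, add_comm]

theorem rho_3 (i : Fin p) : (rho hpq e eN ec (Sum.inr (ec (Sum.inl i)))).1 =
    r + (eN.symm (e (Sum.inl i))).1 := by
  simp [rho, swp, add_comm]

theorem rho_4 (j : Fin q) : (rho hpq e eN ec (Sum.inr (ec (Sum.inr j)))).1 = p + j.1 := by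
  simp [rho, swp]

end rho

section rows
variable {m r : ℕ} {s : Fin (r + 1) → ℂ} {b : Fin (r + 1) → ℕ}
  {L R : Fin r → Finset (Fin (r + 1))} {u : ℕ} {x : Fin r → ℂ} {y : Fin r ⊕ Fin r → ℂ}

theorem MM_1 {k : Fin (2 * r)} {i : ℕ} (hk : k.1 = i) (h1 : i < r) (h2 : i < pu m b u)
    (l : Fin (2 * r)) : MM m s b L R u x y k l = RA m s b u i x y (frame r l) := by
  unfold MM
  rw [Matrix.of_apply, dif_pos (by omega), if_pos (by omega), hk]

theorem MM_2 {k : Fin (2 * r)} {j : ℕ} (hk : k.1 = pu m b u + j) (h1 : pu m b u + j < r)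
    (l : Fin (2 * r)) :
    MM m s b L R u x y k l = conj (RA m s b (m - u) j x y (frame r l)) := by
  unfold MM
  rw [Matrix.of_apply, dif_pos (by omega), if_neg (by omega)]
  have h : k.1 - pu m b u = j := by omega
  rw [h]

theorem MM_3 {k : Fin (2 * r)} {i : Fin r} (hk : k.1 = r + i.1)
    (h : (u * ∑ j ∈ L i, b j) % m + (u * ∑ j ∈ R i, b j) % m < m) (l : Fin (2 * r)) :
    MM m s b L R u x y k l = conj (RT m s b L R u i x y (frame r l)) := by
  unfold MM
  have h1 : (⟨k.1 - r, by omega⟩ : Fin r) = i := Fin.ext (by simp only; omega)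
  rw [Matrix.of_apply, dif_neg (by omega)]
  simp only [h1]
  rw [if_pos h]

theorem MM_4 {k : Fin (2 * r)} {i : Fin r} (hk : k.1 = r + i.1)
    (h : ¬ (u * ∑ j ∈ L i, b j) % m + (u * ∑ j ∈ R i, b j) % m < m) (l : Fin (2 * r)) :
    MM m s b L R u x y k l = RT m s b L R (m - u) i x y (frame r l) := by
  unfold MM
  have h1 : (⟨k.1 - r, by omega⟩ : Fin r) = i := Fin.ext (by simp only; omega)
  rw [Matrix.of_apply, dif_neg (by omega)]
  simp only [h1]
  rw [if_neg h]

end rows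

theorem exists_split {N : Type} [Fintype N] (P : N → Prop) :
    ∃ (p q : ℕ) (e : Fin p ⊕ Fin q ≃ N), (∀ i, P (e (Sum.inl i))) ∧
      ∀ i, ¬ P (e (Sum.inr i)) := by
  classical
  refine ⟨Fintype.card {a // P a}, Fintype.card {a // ¬ P a},
    (Equiv.sumCongr (Fintype.equivFin _).symm (Fintype.equivFin _).symm).trans (Equiv.sumCompl P),
    fun i => ?_, fun i => ?_⟩
  · exact ((Fintype.equivFin {a // P a}).symm i).2
  · exact ((Fintype.equivFin {a // ¬ P a}).symm i).2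

theorem card_split {r p q : ℕ} {N : Type} (P : N → Prop) (eN : Fin r ≃ N)
    (e : Fin p ⊕ Fin q ≃ N) (h1 : ∀ i, P (e (Sum.inl i))) (h2 : ∀ i, ¬ P (e (Sum.inr i)))
    [DecidablePred fun i : Fin r => P (eN i)] :
    (univ.filter fun i : Fin r => P (eN i)).card = p := by
  have h : (univ.filter fun i : Fin r => P (eN i)) =
      (univ : Finset (Fin p)).image fun i => eN.symm (e (Sum.inl i)) := by
    ext k
    simp only [Finset.mem_filter, Finset.mem_univ, true_and, Finset.mem_image]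
    constructor
    · intro hk
      obtain ⟨c, hc⟩ := e.surjective (eN k)
      rcases c with i | j
      · exact ⟨i, by rw [hc, Equiv.symm_apply_apply]⟩
      · exact absurd (by rw [hc]; exact hk) (h2 j)
    · rintro ⟨i, rfl⟩
      rw [Equiv.apply_symm_apply]
      exact h1 i
  rw [h, Finset.card_image_of_injective]
  · simp
  · intro a c hac
    exact Sum.inl_injective (e.injective (eN.symm.injective hac))

theorem det_MM {m r : ℕ} (s : Fin (r + 1) → ℂ) (b : Fin (r + 1) → ℕ) (τ : Tr)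
    (eL : Fin (r + 1) ≃ τ.L) (eN : Fin r ≃ τ.N) (u : ℕ) {p q : ℕ} (e : Fin p ⊕ Fin q ≃ τ.N)
    (ec : Fin p ⊕ Fin q ≃ Fin r) (h1 : ∀ i, isP m τ eL b u (e (Sum.inl i)))
    (h2 : ∀ i, ¬ isP m τ eL b u (e (Sum.inr i))) (hpq : p + q = r) (hpu : pu m b u = p) :
    ∃ c : ℂ, c ≠ 0 ∧ ∀ x ∈ gD τ eL s, ∀ y : Fin r ⊕ Fin r → ℂ,
      (MM m s b (LL τ eL eN) (RR τ eL eN) u x y).det = c *
        (Matrix.of fun k a => H1 m τ eL s b e u x (fun a => y (Sum.inl a))
          (fun ν => y (Sum.inr (eN.symm ν))) k (ec a)).det *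
        conj (Matrix.of fun k a => H2 m τ eL s b e u x (fun a => y (Sum.inl a))
          (fun ν => y (Sum.inr (eN.symm ν))) k (ec a)).det := by
  obtain ⟨c, hc, hdet⟩ := ha (rho hpq e eN ec)
  refine ⟨c, hc, fun x hx y => ?_⟩
  have key := hdet
    (Matrix.of fun k a => H1 m τ eL s b e u x (fun a => y (Sum.inl a))
      (fun ν => y (Sum.inr (eN.symm ν))) (ec.symm k) a)
    (Matrix.of fun k a => H2 m τ eL s b e u x (fun a => y (Sum.inl a))
      (fun ν => y (Sum.inr (eN.symm ν))) (ec.symm k) a)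
    (MM m s b (LL τ eL eN) (RR τ eL eN) u x y) ?_ ?_
  · rw [key, ← Matrix.det_submatrix_equiv_self ec (Matrix.of fun k a => H1 m τ eL s b e u x
      (fun a => y (Sum.inl a)) (fun ν => y (Sum.inr (eN.symm ν))) (ec.symm k) a),
      ← Matrix.det_submatrix_equiv_self ec (Matrix.of fun k a => H2 m τ eL s b e u x
      (fun a => y (Sum.inl a)) (fun ν => y (Sum.inr (eN.symm ν))) (ec.symm k) a)]
    have e1 : (Matrix.of fun k a => H1 m τ eL s b e u x (fun a => y (Sum.inl a))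
        (fun ν => y (Sum.inr (eN.symm ν))) (ec.symm k) a).submatrix ec ec =
        Matrix.of fun k a => H1 m τ eL s b e u x (fun a => y (Sum.inl a))
          (fun ν => y (Sum.inr (eN.symm ν))) k (ec a) := by
      ext k a
      simp only [Matrix.submatrix_apply, Matrix.of_apply, Equiv.symm_apply_apply]
    have e2 : (Matrix.of fun k a => H2 m τ eL s b e u x (fun a => y (Sum.inl a))
        (fun ν => y (Sum.inr (eN.symm ν))) (ec.symm k) a).submatrix ec ec =
        Matrix.of fun k a => H2 m τ eL s b e u x (fun a => y (Sum.inl a))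
          (fun ν => y (Sum.inr (eN.symm ν))) k (ec a) := by
      ext k a
      simp only [Matrix.submatrix_apply, Matrix.of_apply, Equiv.symm_apply_apply]
    rw [e1, e2]
  · intro k l
    obtain ⟨c0, rfl⟩ := ec.surjective k
    rw [Matrix.of_apply, Equiv.symm_apply_apply]
    rcases c0 with i | j
    · rw [MM_1 (rho_1 hpq e eN ec i) (by omega) (by omega), RA_frame]
      rfl
    · have hP : ¬ (u * ∑ j ∈ LL τ eL eN (eN.symm (e (Sum.inr j))), b j) % m +
          (u * ∑ j ∈ RR τ eL eN (eN.symm (e (Sum.inr j))), b j) % m < m := by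
        rw [cL_eq, cR_eq, Equiv.apply_symm_apply]
        exact h2 j
      rw [MM_4 (rho_2 hpq e eN ec j) hP, RT_frame m τ eL eN s b _ _ x hx, Equiv.apply_symm_apply]
      rfl
  · intro k l
    obtain ⟨c0, rfl⟩ := ec.surjective k
    rw [Matrix.of_apply, Equiv.symm_apply_apply]
    rcases c0 with i | j
    · have hP : (u * ∑ j ∈ LL τ eL eN (eN.symm (e (Sum.inl i))), b j) % m +
          (u * ∑ j ∈ RR τ eL eN (eN.symm (e (Sum.inl i))), b j) % m < m := by
        rw [cL_eq, cR_eq, Equiv.apply_symm_apply]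
        exact h1 i
      rw [MM_3 (rho_3 hpq e eN ec i) hP, RT_frame_conj m τ eL eN s b _ _ x hx,
        Equiv.apply_symm_apply]
      rfl
    · rw [MM_2 (by rw [rho_4, hpu]) (by omega), RA_frame_conj]
      rfl

theorem pu_eq {m r p : ℕ} {b : Fin (r + 1) → ℕ} {u : ℕ} (hp : p ≤ r)
    (h : ∀ i : ℕ, m * i + ∑ j, (u * b j) % m < m * r ↔ i < p) : pu m b u = p := by
  unfold pu
  simp_rw [h]
  have h2 : (univ.filter fun i : Fin r => i.1 < p) = (Finset.range p).attachFin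
      (fun n hn => lt_of_lt_of_le (Finset.mem_range.1 hn) hp) := by
    ext i
    simp
  rw [h2, Finset.card_attachFin, Finset.card_range]

theorem isP_mod {m r : ℕ} (τ : Tr) (eL : Fin (r + 1) ≃ τ.L) (b : Fin (r + 1) → ℕ) (u : ℕ)
    (ν : τ.N) : isP m τ eL b (u % m) ν ↔ isP m τ eL b u ν := by
  unfold isP
  rw [Nat.mul_mod (u % m), Nat.mod_mod, ← Nat.mul_mod, Nat.mul_mod (u % m) (cR τ eL b ν),
    Nat.mod_mod, ← Nat.mul_mod]

theorem pu_mod {m r : ℕ} (b : Fin (r + 1) → ℕ) (u : ℕ) : pu m b (u % m) = pu m b u := by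
  unfold pu
  have h : ∀ j, (u % m * b j) % m = (u * b j) % m := fun j => by
    rw [Nat.mul_mod (u % m), Nat.mod_mod, ← Nat.mul_mod]
  simp_rw [h]

/-- THE BRIDGE. -/
theorem pt_of (hV : S_VAL) (hPos : S_POS) (hC : S_CNT) (hT : S_TRE) : S_pt := by
  intro m r s b hb
  have hm3 : 3 ≤ m := hb.1
  have hm : m ≠ 0 := by omega
  obtain ⟨τ, eL, eN, hG⟩ := hT m r s b hb
  have hcard : ∀ {p q : ℕ} (_ : Fin p ⊕ Fin q ≃ τ.N), p + q = r := by
    intro p q e
    have h1 := Fintype.card_congr (e.trans eN.symm)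
    simpa using h1
  obtain ⟨k, hk⟩ : ∃ k : ℂ, k ^ m = ∏ j, ((-1) ^ r * Fd s j) ^ b j :=
    IsAlgClosed.exists_pow_nat_eq _ (by omega)
  have hk0 : k ≠ 0 := by
    rintro rfl
    rw [zero_pow hm, eq_comm, Finset.prod_eq_zero_iff] at hk
    obtain ⟨j, _, hj⟩ := hk
    exact mul_ne_zero (pow_ne_zero _ (by norm_num)) (Fd_ne hb.2.1 j)
      ((pow_eq_zero_iff (fun h0 => hb.2.2.1 j (by rw [h0]; exact dvd_zero m))).1 hj)
  have hcount : ∀ u < m, u.Coprime m →
      (univ.filter fun i : Fin r => (u * ∑ j ∈ LL τ eL eN i, b j) % m +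
        (u * ∑ j ∈ RR τ eL eN i, b j) % m < m).card = pu m b u := by
    intro u hu hum
    obtain ⟨p, q, e, h1, h2⟩ := exists_split (isP m τ eL b u)
    obtain ⟨c1, -, -⟩ := hC m r s b hb τ eL hG u hu hum p q e h1 h2
    have hpq := hcard e
    rw [pu_eq (by omega) c1]
    simp_rw [cL_eq, cR_eq]
    let _ : DecidablePred fun i : Fin r => isP m τ eL b u (eN i) := fun i =>
      inferInstanceAs (Decidable ((u * cL τ eL b (eN i)) % m + (u * cR τ eL b (eN i)) % m < m))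
    exact card_split (isP m τ eL b u) eN e h1 h2
  refine ⟨LL τ eL eN, RR τ eL eN, if r = 0 then 1 else k,
    fun i => ⟨LL_nonempty _ _ _ i, RR_nonempty _ _ _ i, LL_RR_disjoint _ _ _ i⟩,
    fun i => ?_, fun u hu => ?_, fun u hu hum => ?_⟩
  · rw [cL_eq, cR_eq]
    exact hG (eN i)
  · have hcop : (u % m).Coprime m := by
      rw [Nat.coprime_iff_gcd_eq_one] at hu ⊢
      rw [← hu, ← Nat.gcd_rec, Nat.gcd_comm]
    have h1 := hcount (u % m) (Nat.mod_lt _ (by omega)) hcop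
    rw [pu_mod] at h1
    rw [← h1]
    congr 1
    ext i
    simp only [Finset.mem_filter, Finset.mem_univ, true_and, cL_eq, cR_eq]
    exact (isP_mod τ eL b u (eN i)).symm
  · rcases Nat.eq_zero_or_pos r with hr | hr
    · subst hr
      refine ⟨1, one_ne_zero, fun x _ => ⟨⟨fun c => 1, ⟨fun a => a.elim0, fun a => a.elim0,
        by simp⟩, ?_⟩, fun y _ => ⟨1, zero_le_one, ?_⟩⟩⟩
      · have : IsEmpty (Fin (2 * 0)) := by
          rw [Nat.mul_zero]
          exact Fin.isEmpty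
        rw [Matrix.det_isEmpty]
        exact one_ne_zero
      · have : IsEmpty (Fin (2 * 0)) := by
          rw [Nat.mul_zero]
          exact Fin.isEmpty
        rw [Matrix.det_isEmpty]
        simp
    · rw [if_neg (by omega)]
      obtain ⟨p, q, e, h1, h2⟩ := exists_split (isP m τ eL b u)
      obtain ⟨c1, -, -⟩ := hC m r s b hb τ eL hG u hu hum p q e h1 h2
      have hpq := hcard e
      have hpu := pu_eq (by omega) c1
      let ec : Fin p ⊕ Fin q ≃ Fin r := finSumFinEquiv.trans (finCongr hpq)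
      obtain ⟨c, hc, hdet⟩ := det_MM s b τ eL eN u e ec h1 h2 hpq hpu
      obtain ⟨C, hC0, hval⟩ := hV m r s b hb τ eL hG k hk0 u hu hum p q e ec h1 h2
      refine ⟨c * C, mul_ne_zero hc hC0, fun x hx => ?_⟩
      rw [Gd_eq τ eL eN hb.2.1] at hx
      have hsh : ∀ y : Fin r ⊕ Fin r → ℂ, y ∈ Sh m s b (LL τ eL eN) (RR τ eL eN) k x →
          Shs m τ eL s b k x (fun a => y (Sum.inl a)) (fun ν => y (Sum.inr (eN.symm ν))) := by
        rintro y ⟨g1, g2, g3⟩
        refine ⟨g1, fun ν => ?_, ?_⟩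
        · have h3 := g2 (eN.symm ν)
          rw [tL_eq, cL_eq, cR_eq, Equiv.apply_symm_apply] at h3
          exact h3
        · rw [g3, ← Equiv.prod_comp eN]
          simp only [Equiv.symm_apply_apply]
      refine ⟨?_, fun y hy => ?_⟩
      · obtain ⟨y, v, hyv, hne⟩ := hPos m r s b hb hr τ eL hG k hk u hu hum p q e ec h1 h2 x hx
        have hmem : Sum.elim y (fun i => v (eN i)) ∈
            Sh m s b (LL τ eL eN) (RR τ eL eN) k x := by
          refine ⟨hyv.1, fun i => ?_, ?_⟩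
          · rw [tL_eq, cL_eq, cR_eq]
            exact hyv.2.1 (eN i)
          · simp only [Sum.elim_inl, Sum.elim_inr]
            rw [hyv.2.2, ← Equiv.prod_comp eN]
        refine ⟨_, hmem, ?_⟩
        rw [hdet x hx]
        have h3 := hsh _ hmem
        rw [hval x hx _ _ h3]
        have h4 : (fun ν => (Sum.elim y (fun i => v (eN i)) : Fin r ⊕ Fin r → ℂ)
            (Sum.inr (eN.symm ν))) = v := by
          funext ν
          simp
        have h5 : (fun a => (Sum.elim y (fun i => v (eN i)) : Fin r ⊕ Fin r → ℂ)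
            (Sum.inl a)) = y := by
          funext a
          simp
        rw [h4, h5]
        exact mul_ne_zero (mul_ne_zero hc (mul_ne_zero hC0 hne))
          ((map_ne_zero (starRingEnd ℂ)).2 hne)
      · rw [hdet x hx, hval x hx _ _ (hsh y hy)]
        refine ⟨Complex.normSq (Matrix.of fun k a => H2 m τ eL s b e u x (fun a => y (Sum.inl a))
          (fun ν => y (Sum.inr (eN.symm ν))) k (ec a)).det, Complex.normSq_nonneg _, ?_⟩
        rw [← Complex.mul_conj]
        ring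

end HC.SE
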