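import Pool.Agent.Lib.SE.S3.Spec

/-!
# PROJECT SE, group G2: `S_she`, the sheets by branch numbers (helper40)
-/

set_option autoImplicit false

open Finset

noncomputable section

namespace HC.SE

namespace SheAux

private theorem exp_eq_pow (m : ℕ) (k : ℕ) :
    Complex.exp (2 * Real.pi * Complex.I * k / m) =
      Complex.exp (2 * Real.pi * Complex.I / m) ^ k := by
  rw [← Complex.exp_nat_mul]
  congr 1
  ring

private theorem br_pow {m : ℕ} (hm : m ≠ 0) (f : ℂ → ℂ) (k : Fin m) (x : ℂ) :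
    br m f k x ^ m = f x := by
  unfold br
  rw [mul_pow, exp_eq_pow, ← pow_mul, mul_comm (k : ℕ) m, pow_mul,
    (Complex.isPrimitiveRoot_exp m hm).pow_eq_one, one_pow, one_mul, one_div]
  exact Complex.cpow_nat_inv_pow (f x) hm

private theorem root_ne {m : ℕ} (hm : m ≠ 0) {c : ℂ} (hc : c ≠ 0) : c ^ (1 / m : ℂ) ≠ 0 := by
  intro h
  apply hc
  have h1 := Complex.cpow_nat_inv_pow c hm
  rw [one_div] at h
  rw [h, zero_pow hm] at h1
  exact h1.symm

private theorem br_inj {m : ℕ} (hm : m ≠ 0) (f : ℂ → ℂ) (x : ℂ) (hx : f x ≠ 0) (k l : Fin m)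
    (h : br m f k x = br m f l x) : k = l := by
  unfold br at h
  have h1 := mul_right_cancel₀ (root_ne hm hx) h
  rw [exp_eq_pow, exp_eq_pow] at h1
  exact Fin.ext ((Complex.isPrimitiveRoot_exp m hm).pow_inj k.2 l.2 h1)

private theorem br_surj {m : ℕ} (hm : m ≠ 0) (f : ℂ → ℂ) (x : ℂ) (hx : f x ≠ 0) (y : ℂ)
    (hy : y ^ m = f x) : ∃ k : Fin m, br m f k x = y := by
  have hc := root_ne hm hx
  have h1 : (y / f x ^ (1 / m : ℂ)) ^ m = 1 := by
    rw [div_pow, hy, one_div, Complex.cpow_nat_inv_pow (f x) hm, div_self hx]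
  haveI : NeZero m := ⟨hm⟩
  obtain ⟨i, hi, hi'⟩ := (Complex.isPrimitiveRoot_exp m hm).eq_pow_of_pow_eq_one h1
  refine ⟨⟨i, hi⟩, ?_⟩
  unfold br
  rw [exp_eq_pow, hi', div_mul_cancel₀ _ hc]

end SheAux

open SheAux in
theorem s_she : S_she := by
  classical
  intro ι _ _ m f x Q _ E _ G hm hx
  let Φ : (ι → Fin m) → (ι → ℂ) := fun k j => br m (f j) (k j) (x j)
  have hinj : Function.Injective Φ := by
    intro k l h
    funext j
    exact br_inj hm (f j) (x j) (hx j) (k j) (l j) (congrFun h j)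
  have hset : {y : ι → ℂ | (∀ j, y j ^ m = f j (x j)) ∧ Q y} = Φ '' {k | Q (Φ k)} := by
    ext y
    constructor
    · rintro ⟨h1, h2⟩
      choose k hk using fun j => br_surj hm (f j) (x j) (hx j) (y j) (h1 j)
      have hΦ : Φ k = y := funext hk
      exact ⟨k, by change Q (Φ k); rw [hΦ]; exact h2, hΦ⟩
    · rintro ⟨k, hk, rfl⟩
      exact ⟨fun j => br_pow hm (f j) (k j) (x j), hk⟩
  rw [hset, finsum_mem_image hinj.injOn, finsum_mem_def, finsum_eq_sum_of_fintype]
  refine Finset.sum_congr rfl fun k _ => ?_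
  by_cases h : Q (Φ k)
  · rw [Set.indicator_of_mem (show k ∈ {k | Q (Φ k)} from h)]
    exact (if_pos h).symm
  · rw [Set.indicator_of_notMem (show k ∉ {k | Q (Φ k)} from h)]
    exact (if_neg h).symm

end HC.SE
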