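import Pool.Agent.Lib.SE.S3.Cyc
import Pool.Agent.Lib.SE.S3.Mea
import Pool.Agent.Lib.SE.S3.She
import Pool.Agent.Lib.SE.S3.Exp
import Pool.Agent.Lib.SE.S3.Hol
import Pool.Agent.Lib.SE.S3.Int
import Pool.Agent.Lib.SE.S3.Pt
import Pool.Agent.Lib.SE.S2.G.A1
import Pool.Agent.Lib.SE.S2.G.A1p
import Pool.Agent.Lib.SE.S2.G.A2
import Pool.Agent.Lib.SE.S2.G.A3
import Pool.Agent.Lib.SE.S2.G.A4
import Pool.Agent.Lib.SE.S2.G.A5
import Pool.Agent.Lib.SE.S2.G.CNT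
import Pool.Agent.Lib.SE.S2.G.G
import Pool.Agent.Lib.SE.S2.G.G1
import Pool.Agent.Lib.SE.S2.G.G2
import Pool.Agent.Lib.SE.S2.G.NV
import Pool.Agent.Lib.SE.S2.G.POS
import Pool.Agent.Lib.SE.S2.G.T1
import Pool.Agent.Lib.SE.S2.G.T2
import Pool.Agent.Lib.SE.S2.G.T3
import Pool.Agent.Lib.SE.S2.G.T4
import Pool.Agent.Lib.SE.S2.G.T5
import Pool.Agent.Lib.SE.S2.G.T6
import Pool.Agent.Lib.SE.S2.G.T7
import Pool.Agent.Lib.SE.S2.G.TRE
import Pool.Agent.Lib.SE.S2.G.VAL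

/-!
# PROJECT SE, groups G1 + G2: `S_crv → S_cyc`
-/

set_option autoImplicit false

noncomputable section

namespace HC.SE.G2

open _root_.SE

theorem tG : _root_.SE.S_G :=
  gG gA1 gA1' gA2 (gA4 gT1 gA3) (gA5 (gT3 gT2))

theorem tVAL : _root_.SE.S_VAL := gVAL tG (gG2 gT4 gT5)

theorem tPOS : _root_.SE.S_POS := gPOS tVAL (gNV (gA5 (gT3 gT2))) gG1 gT4

theorem t_pt : S_pt := pt_of tVAL tPOS (gCNT gT6) (gTRE gT7)

theorem t_pos : S_pos := pos_of_pt t_pt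

theorem t_int : S_int := sInt s_pull sHol sExp

/-- THE CYCLE: the class of the cycle has nonzero components at all labels. -/
theorem cyc (hcrv : S_crv) : S_cyc := s_cyc t_pos hcrv t_int s_mea s_she

end HC.SE.G2
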