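import Mathlib

/-!
# PROJECT SE, part S3: the area formula with multiplicity

`area_mult`: let `φ` be holomorphic on an open set `Om` of `ℂ^r`, such that every fibre has at
most `N` points at which the Jacobian determinant is not zero. Then
`∫_Om g(φ x) |det φ'(x)|² dx ≤ N ∫ g`.
-/

set_option autoImplicit false

open MeasureTheory Set Filter Topology
open scoped ENNReal

noncomputable section

namespace SE

namespace S3

/-- the real determinant of a complex linear map is the square of the absolute value of the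
complex determinant -/
theorem abs_det_real {r : ℕ} (f : (Fin r → ℂ) →L[ℂ] (Fin r → ℂ)) :
    ENNReal.ofReal |(f.restrictScalars ℝ).det| = ‖f.det‖ₑ ^ 2 := by
  have h : (f.restrictScalars ℝ).det = Complex.normSq f.det := by
    have h1 : (f.restrictScalars ℝ).det
        = LinearMap.det ((f : (Fin r → ℂ) →ₗ[ℂ] (Fin r → ℂ)).restrictScalars ℝ) := rfl
    rw [h1, LinearMap.det_restrictScalars]
    simp [ContinuousLinearMap.det, Algebra.norm_complex_apply]
  rw [h, abs_of_nonneg (Complex.normSq_nonneg _), Complex.normSq_eq_norm_sq,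
    ENNReal.ofReal_pow (norm_nonneg _), ofReal_norm]

/-- a point with invertible derivative has an open neighbourhood on which the map is injective -/
theorem exists_injOn {r : ℕ} {φ : (Fin r → ℂ) → (Fin r → ℂ)}
    {f : (Fin r → ℂ) →L[ℂ] (Fin r → ℂ)} {x : Fin r → ℂ}
    (h : HasStrictFDerivAt φ f x) (hf : f.det ≠ 0) :
    ∃ O : Set (Fin r → ℂ), IsOpen O ∧ x ∈ O ∧ InjOn φ O := by
  have hu : IsUnit (f : (Fin r → ℂ) →ₗ[ℂ] (Fin r → ℂ)).det := isUnit_iff_ne_zero.2 hf
  let e : (Fin r → ℂ) ≃L[ℂ] (Fin r → ℂ) :=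
    (LinearEquiv.ofIsUnitDet (f := (f : (Fin r → ℂ) →ₗ[ℂ] (Fin r → ℂ)))
      (v := Pi.basisFun ℂ (Fin r)) (v' := Pi.basisFun ℂ (Fin r))
      (by rw [← LinearMap.det_toLin (Pi.basisFun ℂ (Fin r))]; simpa using hu)).toContinuousLinearEquiv
  have he : (e : (Fin r → ℂ) →L[ℂ] (Fin r → ℂ)) = f := by
    ext1 v
    rfl
  have h' : HasStrictFDerivAt φ (e : (Fin r → ℂ) →L[ℂ] (Fin r → ℂ)) x := by rw [he]; exact h
  refine ⟨(h'.toOpenPartialHomeomorph φ).source, (h'.toOpenPartialHomeomorph φ).open_source,
    h'.mem_toOpenPartialHomeomorph_source, ?_⟩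
  exact (h'.toOpenPartialHomeomorph φ).injOn

theorem area_mult {r : ℕ} {Om : Set (Fin r → ℂ)} (hOm : IsOpen Om)
    {φ : (Fin r → ℂ) → (Fin r → ℂ)} {φ' : (Fin r → ℂ) → ((Fin r → ℂ) →L[ℂ] (Fin r → ℂ))}
    (hφ : ∀ x ∈ Om, HasStrictFDerivAt φ (φ' x) x) (hφ' : ContinuousOn φ' Om) (N : ℕ)
    (hN : ∀ y, {x | x ∈ Om ∧ φ x = y ∧ (φ' x).det ≠ 0}.encard ≤ N)
    (g : (Fin r → ℂ) → ℝ≥0∞) (hg : Measurable g) :
    ∫⁻ x in Om, g (φ x) * ‖(φ' x).det‖ₑ ^ 2 ≤ N * ∫⁻ y, g y := by
  classical
  -- the set where the determinant is not zero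
  set E : Set (Fin r → ℂ) := {x | x ∈ Om ∧ (φ' x).det ≠ 0} with hE
  have hdet : ContinuousOn (fun x => (φ' x).det) Om :=
    (ContinuousLinearMap.continuous_det).comp_continuousOn hφ'
  have hEo : IsOpen E := by
    have := hdet.isOpen_inter_preimage hOm (isOpen_compl_singleton (x := (0 : ℂ)))
    exact this
  have hEm : MeasurableSet E := hEo.measurableSet
  -- restrict to E
  have hres : ∫⁻ x in Om, g (φ x) * ‖(φ' x).det‖ₑ ^ 2
      = ∫⁻ x in E, g (φ x) * ‖(φ' x).det‖ₑ ^ 2 := by
    rw [← lintegral_indicator hOm.measurableSet, ← lintegral_indicator hEm]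
    refine lintegral_congr fun x => ?_
    by_cases hx : x ∈ Om
    · by_cases hd : (φ' x).det = 0
      · have : x ∉ E := fun h => h.2 hd
        simp [hx, this, hd]
      · have : x ∈ E := ⟨hx, hd⟩
        simp [hx, this]
    · have : x ∉ E := fun h => hx h.1
      simp [hx, this]
  rw [hres]
  -- a countable cover by open sets on which φ is injective
  have hloc : ∀ x ∈ E, ∃ O : Set (Fin r → ℂ), IsOpen O ∧ x ∈ O ∧ InjOn φ O := fun x hx =>
    exists_injOn (hφ x hx.1) hx.2
  choose! O hOo hxO hOinj using hloc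
  obtain ⟨T, hTE, hTc, hTcov⟩ := TopologicalSpace.countable_cover_nhdsWithin
    (s := E) (f := fun x => O x) (fun x hx =>
      mem_nhdsWithin_of_mem_nhds ((hOo x hx).mem_nhds (hxO x hx)))
  rcases T.eq_empty_or_nonempty with hT0 | hTne
  · have hE0 : E = ∅ := by
      rw [hT0] at hTcov
      simpa using hTcov
    simp [hE0]
  obtain ⟨t, ht⟩ := hTc.exists_eq_range hTne
  set A : ℕ → Set (Fin r → ℂ) := fun n => E ∩ O (t n) with hA
  have htE : ∀ n, t n ∈ E := fun n => hTE (by rw [ht]; exact mem_range_self n)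
  have hAm : ∀ n, MeasurableSet (A n) := fun n => hEm.inter (hOo _ (htE n)).measurableSet
  have hAun : (⋃ n, A n) = E := by
    apply Subset.antisymm
    · exact iUnion_subset fun n => inter_subset_left
    · intro x hx
      have := hTcov hx
      rw [mem_iUnion₂] at this
      obtain ⟨y, hy, hxy⟩ := this
      rw [ht] at hy
      obtain ⟨n, rfl⟩ := hy
      exact mem_iUnion.2 ⟨n, hx, hxy⟩
  set S : ℕ → Set (Fin r → ℂ) := disjointed A with hS
  have hSm : ∀ n, MeasurableSet (S n) := fun n => MeasurableSet.disjointed hAm n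
  have hSd : Pairwise (Function.onFun Disjoint S) := disjoint_disjointed A
  have hSun : (⋃ n, S n) = E := by rw [hS, iUnion_disjointed, hAun]
  have hSA : ∀ n, S n ⊆ A n := fun n => disjointed_subset A n
  have hSinj : ∀ n, InjOn φ (S n) := fun n =>
    (hOinj _ (htE n)).mono ((hSA n).trans inter_subset_right)
  have hSE : ∀ n, S n ⊆ E := fun n => (hSA n).trans inter_subset_left
  have hder : ∀ n, ∀ x ∈ S n, HasFDerivWithinAt φ ((φ' x).restrictScalars ℝ) (S n) x :=
    fun n x hx => ((hφ x (hSE n hx).1).hasFDerivAt.restrictScalars ℝ).hasFDerivWithinAt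
  have hpiece : ∀ n, ∫⁻ x in S n, g (φ x) * ‖(φ' x).det‖ₑ ^ 2 = ∫⁻ y in φ '' S n, g y := by
    intro n
    rw [lintegral_image_eq_lintegral_abs_det_fderiv_mul volume (hSm n) (hder n) (hSinj n) g]
    refine lintegral_congr fun x => ?_
    rw [abs_det_real, mul_comm]
  have hIm : ∀ n, MeasurableSet (φ '' S n) := fun n =>
    measurable_image_of_fderivWithin (hSm n) (hder n) (hSinj n)
  rw [← hSun, lintegral_iUnion hSm hSd]
  calc ∑' n, ∫⁻ x in S n, g (φ x) * ‖(φ' x).det‖ₑ ^ 2
      = ∑' n, ∫⁻ y, (φ '' S n).indicator g y := by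
        refine tsum_congr fun n => ?_
        rw [hpiece n, lintegral_indicator (hIm n)]
    _ = ∫⁻ y, ∑' n, (φ '' S n).indicator g y :=
        (lintegral_tsum fun n => (hg.indicator (hIm n)).aemeasurable).symm
    _ ≤ ∫⁻ y, N * g y := by
        refine lintegral_mono fun y => ?_
        show ∑' n, (φ '' S n).indicator g y ≤ N * g y
        rw [ENNReal.tsum_eq_iSup_sum]
        refine iSup_le fun s => ?_
        have h1 : ∑ n ∈ s, (φ '' S n).indicator g y
            = (s.filter fun n => y ∈ φ '' S n).card * g y := by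
          rw [← Finset.sum_filter_add_sum_filter_not s (fun n => y ∈ φ '' S n)]
          rw [Finset.sum_congr rfl (g := fun _ => g y) (fun n hn => by
            rw [Finset.mem_filter] at hn
            exact indicator_of_mem hn.2 g)]
          rw [Finset.sum_eq_zero (s := s.filter fun n => ¬ y ∈ φ '' S n) (fun n hn => by
            rw [Finset.mem_filter] at hn
            exact indicator_of_notMem hn.2 g)]
          simp
        rw [h1]
        gcongr
        have h2 : ∀ n, y ∈ φ '' S n → ∃ x, x ∈ S n ∧ φ x = y := fun n hn => hn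
        choose! c hc using h2
        have h3 : ((s.filter fun n => y ∈ φ '' S n).image c : Set (Fin r → ℂ))
            ⊆ {x | x ∈ Om ∧ φ x = y ∧ (φ' x).det ≠ 0} := by
          intro x hx
          rw [Finset.coe_image] at hx
          obtain ⟨n, hn, rfl⟩ := hx
          have hn' : y ∈ φ '' S n := by
            have := Finset.mem_coe.1 hn
            exact (Finset.mem_filter.1 this).2
          have := hc n hn'
          exact ⟨(hSE n this.1).1, this.2, (hSE n this.1).2⟩
        have h4 : ((s.filter fun n => y ∈ φ '' S n).image c).card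
            = (s.filter fun n => y ∈ φ '' S n).card := by
          apply Finset.card_image_of_injOn
          intro n hn m hm hnm
          have hn' := hc n (Finset.mem_filter.1 (Finset.mem_coe.1 hn)).2
          have hm' := hc m (Finset.mem_filter.1 (Finset.mem_coe.1 hm)).2
          by_contra hne
          have hd := hSd hne
          have : c n ∈ S m := by rw [hnm]; exact hm'.1
          exact (Set.disjoint_left.1 hd hn'.1) this
        have h5 := (Set.encard_le_encard h3).trans (hN y)
        rw [Set.encard_coe_eq_coe_finsetCard, h4] at h5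
        exact_mod_cast h5
    _ = N * ∫⁻ y, g y := by
        rw [lintegral_const_mul _ hg]

end S3

end SE
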