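import Pool.Agent.Lib.SE.S3.Spec

/-!
# PROJECT SE, part S3: the number `pu`, and the forms of a given character
-/

set_option autoImplicit false

open Finset MeasureTheory
open scoped ComplexConjugate ENNReal

noncomputable section

namespace HC.SE.G2

open _root_.SE _root_.SE.S4

variable {r : ℕ}

/-! ### the numbers -/

/-- `S_u = ∑_j (u b_j mod m)` -/
def Su (m : ℕ) (b : Fin (r + 1) → ℕ) (u : ℕ) : ℕ := ∑ j, (u * b j) % m

theorem Su_mod {m : ℕ} {b : Fin (r + 1) → ℕ} {u : ℕ} (hu : u.Coprime m)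
    (hb : ¬ m ∣ ∑ j, b j) : ¬ m ∣ Su m b u := by
  intro h
  apply hb
  have h1 : (∑ j, (u * b j) % m) ≡ u * ∑ j, b j [MOD m] := by
    rw [Finset.mul_sum]
    exact Nat.ModEq.sum fun j _ => Nat.mod_modEq _ _
  have h2 : u * ∑ j, b j ≡ 0 [MOD m] := h1.symm.trans ((Nat.modEq_zero_iff_dvd).2 h)
  exact (hu.symm.dvd_of_dvd_mul_left ((Nat.modEq_zero_iff_dvd).1 h2))

theorem Su_add {m : ℕ} (hm : 0 < m) {b : Fin (r + 1) → ℕ} {u : ℕ} (hu : u.Coprime m) (hum : u ≤ m)
    (hb : ∀ j, ¬ m ∣ b j) : Su m b (m - u) + Su m b u = m * (r + 1) := by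
  rw [Su, Su, ← Finset.sum_add_distrib]
  rw [Finset.sum_congr rfl fun j _ => mod_compl hm hum (not_dvd_mul hu (hb j))]
  simp [mul_comm]

theorem Su_lt {m : ℕ} (hm : 0 < m) (b : Fin (r + 1) → ℕ) (u : ℕ) : Su m b u < m * (r + 1) := by
  have : Su m b u < ∑ _j : Fin (r + 1), m := by
    apply Finset.sum_lt_sum_of_nonempty (Finset.univ_nonempty)
    intro j _
    exact Nat.mod_lt _ hm
  simpa [mul_comm] using this

theorem lt_iff_div {m : ℕ} (hm : 0 < m) {S : ℕ} (hS : ¬ m ∣ S) (i : ℕ) :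
    m * i + S < m * r ↔ i + S / m < r := by
  have h1 := Nat.div_add_mod S m
  have h2 : S % m ≠ 0 := fun h => hS (Nat.dvd_of_mod_eq_zero h)
  have h3 := Nat.mod_lt S hm
  constructor
  · intro h
    have h4 : m * (i + S / m) < m * r := by
      rw [mul_add]
      omega
    exact lt_of_mul_lt_mul_left' h4
  · intro h
    have h4 : m * (i + S / m + 1) ≤ m * r := Nat.mul_le_mul_left m h
    rw [mul_add, mul_add] at h4
    omega

theorem pu_add_div {m : ℕ} (hm : 0 < m) {b : Fin (r + 1) → ℕ} {u : ℕ}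
    (hS : ¬ m ∣ Su m b u) : pu m b u + Su m b u / m = r := by
  have h1 : Su m b u / m ≤ r := by
    have := Nat.div_lt_of_lt_mul (Su_lt hm b u)
    omega
  have h2 : pu m b u = r - Su m b u / m := by
    rw [pu]
    have : (univ.filter fun i : Fin r => m * (i : ℕ) + ∑ j, (u * b j) % m < m * r)
        = univ.filter fun i : Fin r => (i : ℕ) < r - Su m b u / m := by
      ext i
      simp only [mem_filter, mem_univ, true_and]
      have := lt_iff_div (r := r) hm hS i.1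
      rw [Su] at this
      rw [this, Su]
      omega
    rw [this]
    have h3 : (univ.filter fun i : Fin r => (i : ℕ) < r - Su m b u / m).card
        = (Finset.range (r - Su m b u / m)).card := by
      apply Finset.card_bij (fun i _ => i.1)
      · intro i hi
        simpa using hi
      · intro i _ j _ hij
        exact Fin.ext hij
      · intro n hn
        have hn' : n < r - Su m b u / m := by simpa using hn
        exact ⟨⟨n, lt_of_lt_of_le hn' (Nat.sub_le _ _)⟩, by simpa using hn', rfl⟩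
    rw [h3, Finset.card_range]
  omega

theorem lt_of_lt_pu {m : ℕ} (hm : 0 < m) {b : Fin (r + 1) → ℕ} {u : ℕ}
    (hS : ¬ m ∣ Su m b u) {k : ℕ} (hk : k < pu m b u) :
    m * k + ∑ j, (u * b j) % m < m * r := by
  have h1 := pu_add_div hm hS
  exact (lt_iff_div (r := r) hm hS k).2 (by omega)

theorem lt_of_pu_le {m : ℕ} (hm : 0 < m) {b : Fin (r + 1) → ℕ} {u : ℕ} (hu : u.Coprime m)
    (hum : u ≤ m) (hb : ∀ j, ¬ m ∣ b j)
    (hS : ¬ m ∣ Su m b u) {k : ℕ} (hk : pu m b u ≤ k) (hkr : k < r) :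
    m * (k - pu m b u) + ∑ j, ((m - u) * b j) % m < m * r := by
  have h1 := pu_add_div hm hS
  have h2 := Su_add hm hu hum hb
  have h3 := Nat.div_add_mod (Su m b u) m
  have h4 : Su m b u % m ≠ 0 := fun h => hS (Nat.dvd_of_mod_eq_zero h)
  have h5 : m * (k - pu m b u + 1) ≤ m * (Su m b u / m) := Nat.mul_le_mul_left m (by omega)
  have h6 : Su m b (m - u) = ∑ j, ((m - u) * b j) % m := rfl
  rw [← h6]
  rw [mul_add] at h5 h2
  omega

/-! ### the eigenforms -/

theorem Z_pow {V : Type} [AddCommGroup V] [Module ℂ V] {Z : Module.End ℂ V} {m : ℕ} (hm : 0 < m)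
    (h : Polynomial.aeval Z (Polynomial.cyclotomic m ℤ) = 0) : Z ^ m = 1 := by
  have h1 : (Polynomial.cyclotomic m ℤ) ∣ (Polynomial.X ^ m - 1) :=
    Polynomial.cyclotomic.dvd_X_pow_sub_one m ℤ
  obtain ⟨q, hq⟩ := h1
  have h2 : Polynomial.aeval Z ((Polynomial.X ^ m - 1 : Polynomial ℤ)) = 0 := by
    rw [hq, map_mul, h, zero_mul]
  rw [map_sub, map_pow, Polynomial.aeval_X, map_one] at h2
  exact sub_eq_zero.1 h2

theorem exists_eig {J : AV} {m : ℕ} {s : Fin (r + 1) → ℂ} {b : Fin (r + 1) → ℕ}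
    (D : New J m s b) (hm : 0 < m) {u : ℕ} (hu : u < m) (hc : u.Coprime m) {i : ℕ}
    (hi : m * i + ∑ j, (u * b j) % m < m * r) :
    ∃ B : J.V →ₗ[ℂ] ℂ, (∀ v, B (D.Z v) = ze m ^ u * B v) ∧ ∀ x ∉ D.γ.S, ∀ y, D.γ.P (x, y) = 0 →
      B (D.γ.ω x y) = x ^ i * y ^ u / ∏ j, (x - s j) ^ (1 + u * b j / m) := by
  obtain ⟨B, hB⟩ := D.dif u hu hc i hi
  have hm0 : (m : ℂ) ≠ 0 := Nat.cast_ne_zero.2 hm.ne'
  have hw : ze m ≠ 0 := (ze_prim hm).ne_zero hm.ne'
  have hwm : ze m ^ m = 1 := (ze_prim hm).pow_eq_one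
  have hZ := Z_pow hm D.cyc
  have hze : Complex.exp (2 * Real.pi * Complex.I / m) = ze m := rfl
  -- the orbit
  have horb : ∀ (x : ℂ), x ∉ D.γ.S → ∀ y, D.γ.P (x, y) = 0 → ∀ k : ℕ,
      D.γ.P (x, ze m ^ k * y) = 0 ∧ D.γ.ω x (ze m ^ k * y) = (D.Z ^ k) (D.γ.ω x y) := by
    intro x hx y hy k
    induction k with
    | zero => simpa using hy
    | succ k ih =>
      have e : ze m ^ (k + 1) * y = ze m * (ze m ^ k * y) := by rw [pow_succ]; ring
      refine ⟨?_, ?_⟩
      · rw [e, D.P, mul_pow, hwm, one_mul]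
        have := ih.1
        rw [D.P] at this
        exact this
      · have h1 := D.equ x hx _ ih.1
        rw [hze, ih.2] at h1
        rw [e, h1, pow_succ']
        rfl
  refine ⟨(m : ℂ)⁻¹ • ∑ k ∈ Finset.range m, (ze m ^ (u * k))⁻¹ • (B ∘ₗ (D.Z ^ k)), ?_, ?_⟩
  · intro v
    simp only [LinearMap.smul_apply, LinearMap.sum_apply, LinearMap.comp_apply, smul_eq_mul]
    rw [mul_left_comm]
    congr 1
    rw [Finset.mul_sum]
    let F : ℕ → ℂ := fun k => ze m ^ u * ((ze m ^ (u * k))⁻¹ * B ((D.Z ^ k) v))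
    have h1 : ∀ k, (ze m ^ (u * k))⁻¹ * B ((D.Z ^ k) (D.Z v)) = F (k + 1) := by
      intro k
      show _ = ze m ^ u * ((ze m ^ (u * (k + 1)))⁻¹ * B ((D.Z ^ (k + 1)) v))
      have h2 : (D.Z ^ (k + 1)) v = (D.Z ^ k) (D.Z v) := by
        rw [pow_succ]; rfl
      rw [h2, mul_add, mul_one, pow_add, mul_inv]
      field_simp
    rw [Finset.sum_congr rfl fun k _ => h1 k]
    have h2 : ∑ k ∈ Finset.range m, F (k + 1) = ∑ k ∈ Finset.range m, F k := by
      have h3 := Finset.sum_range_succ' F m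
      have h4 := Finset.sum_range_succ F m
      have h5 : F m = F 0 := by
        show ze m ^ u * ((ze m ^ (u * m))⁻¹ * B ((D.Z ^ m) v))
          = ze m ^ u * ((ze m ^ (u * 0))⁻¹ * B ((D.Z ^ 0) v))
        rw [hZ, mul_comm u m, pow_mul, hwm]
        simp
      rw [h4, h5] at h3
      exact (add_right_cancel h3).symm
    exact h2
  · intro x hx y hy
    simp only [LinearMap.smul_apply, LinearMap.sum_apply, LinearMap.comp_apply, smul_eq_mul]
    have h1 : ∀ k ∈ Finset.range m, (ze m ^ (u * k))⁻¹ * B ((D.Z ^ k) (D.γ.ω x y))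
        = x ^ i * y ^ u / ∏ j, (x - s j) ^ (1 + u * b j / m) := by
      intro k _
      rw [← (horb x hx y hy k).2, hB x hx _ (horb x hx y hy k).1, mul_pow, ← pow_mul, mul_comm k u]
      field_simp
    rw [Finset.sum_congr rfl h1]
    simp only [Finset.sum_const, Finset.card_range, nsmul_eq_mul]
    field_simp

end HC.SE.G2
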