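import Pool.Agent.Lib.SE.S3.Kap
import Pool.Agent.Lib.SE.S3.Eig

/-!
# PROJECT SE, group G2: assembly, `S_pos → S_crv → S_int → S_mea → S_she → S_cyc`
-/

set_option autoImplicit false

open Finset MeasureTheory
open scoped ComplexConjugate ENNReal

noncomputable section

namespace HC.SE.G2

open _root_.SE _root_.SE.S4

variable {r : ℕ}

theorem conj_ze_pow {m u : ℕ} (hm : 0 < m) (hu : u ≤ m) : conj (ze m ^ (m - u)) = ze m ^ u := by
  have hw : ze m ≠ 0 := (ze_prim hm).ne_zero hm.ne'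
  rw [map_pow, conj_ze, inv_pow]
  have h4 : ze m ^ u * ze m ^ (m - u) = 1 := by
    rw [← pow_add, Nat.add_sub_cancel' hu, (ze_prim hm).pow_eq_one]
  exact (eq_inv_of_mul_eq_one_left h4).symm

/-- the forms on the new Jacobian -/
theorem exists_forms {J : AV} {m : ℕ} {s : Fin (r + 1) → ℂ} {b : Fin (r + 1) → ℕ}
    (hb : IsCov m s b) (D : New J m s b) {u : ℕ} (hu : u < m) (hc : u.Coprime m) :
    ∃ a : Fin r → (J.V →ₗ[ℝ] ℂ), (∀ l v, a l (D.Z v) = ze m ^ u * a l v) ∧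
      ∀ (z : Fin r → ℂ) (y : Fin r ⊕ Fin r → ℂ) (v : Fin r → ℂ) (l : Fin r),
        (∀ a, z a ∉ D.γ.S) → (∀ a, D.γ.P (z a, y (Sum.inl a)) = 0) →
        a l (∑ c, v c • D.γ.ω (z c) (y (Sum.inl c))) =
          if l.1 < pu m b u then RA m s b u l.1 z y v
            else conj (RA m s b (m - u) (l.1 - pu m b u) z y v) := by
  obtain ⟨hm3, _, hbj, hbs, _⟩ := hb
  have hm : 0 < m := by omega
  have hu0 : 0 < u := by
    rcases Nat.eq_zero_or_pos u with h | h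
    · rw [h, Nat.coprime_zero_left] at hc
      omega
    · exact h
  have hS : ¬ m ∣ Su m b u := Su_mod hc hbs
  have hc' : (m - u).Coprime m := (Nat.coprime_self_sub_left hu.le).2 hc
  have key : ∀ l : Fin r, ∃ a : J.V →ₗ[ℝ] ℂ, (∀ v, a (D.Z v) = ze m ^ u * a v) ∧
      ∀ (z : Fin r → ℂ) (y : Fin r ⊕ Fin r → ℂ) (v : Fin r → ℂ),
        (∀ a, z a ∉ D.γ.S) → (∀ a, D.γ.P (z a, y (Sum.inl a)) = 0) →
        a (∑ c, v c • D.γ.ω (z c) (y (Sum.inl c))) =
          if l.1 < pu m b u then RA m s b u l.1 z y v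
            else conj (RA m s b (m - u) (l.1 - pu m b u) z y v) := by
    intro l
    by_cases hl : l.1 < pu m b u
    · obtain ⟨B, hB1, hB2⟩ := exists_eig D hm hu hc (lt_of_lt_pu hm hS hl)
      refine ⟨B.restrictScalars ℝ, hB1, ?_⟩
      intro z y v hz hy
      rw [if_pos hl]
      show B (∑ c, v c • D.γ.ω (z c) (y (Sum.inl c))) = _
      rw [map_sum, RA]
      refine Finset.sum_congr rfl fun c _ => ?_
      rw [map_smul, hB2 _ (hz c) _ (hy c), smul_eq_mul]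
    · obtain ⟨B, hB1, hB2⟩ := exists_eig D hm (by omega : m - u < m) hc'
        (lt_of_pu_le hm hc hu.le hbj hS (not_lt.1 hl) l.2)
      refine ⟨cjl (B.restrictScalars ℝ), ?_, ?_⟩
      · intro v
        show conj (B (D.Z v)) = _ * conj (B v)
        rw [hB1, map_mul, conj_ze_pow hm hu.le]
      · intro z y v hz hy
        rw [if_neg hl]
        show conj (B (∑ c, v c • D.γ.ω (z c) (y (Sum.inl c)))) = _
        rw [map_sum, RA]
        congr 1
        refine Finset.sum_congr rfl fun c _ => ?_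
        rw [map_smul, hB2 _ (hz c) _ (hy c), smul_eq_mul]
  choose a ha1 ha2 using key
  exact ⟨a, ha1, fun z y v l hz hy => ha2 l z y v hz hy⟩

theorem Wf_eq {m c d σ : ℕ} {t v : ℂ} :
    Wf m c d σ t v / (t * (1 - t)) = v ^ σ / (t ^ (1 + σ * c / m) * (1 - t) ^ (1 + σ * d / m)) := by
  rw [Wf, div_div]
  congr 1
  rw [pow_add, pow_add]
  ring

theorem mem_Ph {m c d : ℕ} (hm : 0 < m) {E : Type} [Field E] {ζ : E} (φ : E →+* ℂ) :
    φ ∈ Ph m ζ c d ↔ (sg m ζ φ * c) % m + (sg m ζ φ * d) % m < m := by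
  have hm' : (0 : ℝ) < m := by exact_mod_cast hm
  show fr m c (sg m ζ φ) + fr m d (sg m ζ φ) < 1 ↔ _
  rw [fr, fr, ← add_div, div_lt_one hm']
  exact_mod_cast Iff.rfl

/-- the forms on the CM factor -/
theorem w_val {m c d : ℕ} (hm : 3 ≤ m) (hc : ¬ m ∣ c) (hd : ¬ m ∣ d) (hcd : ¬ m ∣ c + d)
    {E : Type} [Field E] {ζ : E} (hζ : IsPrimitiveRoot ζ m) (T : Cm1 E (Ph m ζ c d))
    (γ : Crv T.T) (hγ : ∀ φ : Ph m ζ c d, ∃ K : ℂ, K ≠ 0 ∧ ∀ x ∉ γ.S, ∀ y, γ.P (x, y) = 0 →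
        T.ψ (γ.ω x y) φ = K * Wf m c d (sg m ζ φ.1) x y / (x * (1 - x))) (φ : E →+* ℂ) :
    ∃ K : ℂ, K ≠ 0 ∧ ∀ (e t y : ℂ), t ∉ γ.S → γ.P (t, y) = 0 →
      T.w (NumberField.ComplexEmbedding.conjugate φ) (e • γ.ω t y) =
        K * (if (sg m ζ φ * c) % m + (sg m ζ φ * d) % m < m
          then conj (e * (y ^ sg m ζ φ / (t ^ (1 + sg m ζ φ * c / m) *
            (1 - t) ^ (1 + sg m ζ φ * d / m))))
          else e * (y ^ (m - sg m ζ φ) / (t ^ (1 + (m - sg m ζ φ) * c / m) *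
            (1 - t) ^ (1 + (m - sg m ζ φ) * d / m)))) := by
  have hm0 : 0 < m := by omega
  have hcm := isType_Ph (by omega : 1 < m) hζ hc hd hcd
  by_cases h : φ ∈ Ph m ζ c d
  · have h1 : NumberField.ComplexEmbedding.conjugate φ ∉ Ph m ζ c d := (hcm φ).1 h
    have h2 : NumberField.ComplexEmbedding.conjugate
        (NumberField.ComplexEmbedding.conjugate φ) = φ := by
      ext x
      simp
    have h3 : NumberField.ComplexEmbedding.conjugate
        (NumberField.ComplexEmbedding.conjugate φ) ∈ Ph m ζ c d := by rw [h2]; exact h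
    obtain ⟨K, hK, hK2⟩ := hγ ⟨φ, h⟩
    refine ⟨conj K, (map_ne_zero _).2 hK, ?_⟩
    intro e t y ht hy
    rw [if_pos ((mem_Ph hm0 φ).1 h)]
    unfold Cm1.w
    rw [dif_neg h1, dif_pos h3]
    show conj (T.ψ (e • γ.ω t y) ⟨_, h3⟩) = _
    have h4 : (⟨_, h3⟩ : Ph m ζ c d) = ⟨φ, h⟩ := Subtype.ext h2
    rw [h4, map_smul, Pi.smul_apply, hK2 t ht y hy, mul_div_assoc, Wf_eq, smul_eq_mul,
      ← map_mul]
    congr 1
    ring
  · have h1 : NumberField.ComplexEmbedding.conjugate φ ∈ Ph m ζ c d := by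
      by_contra h2
      exact h ((hcm φ).2 h2)
    obtain ⟨K, hK, hK2⟩ := hγ ⟨_, h1⟩
    refine ⟨K, hK, ?_⟩
    intro e t y ht hy
    rw [if_neg fun h5 => h ((mem_Ph hm0 φ).2 h5)]
    unfold Cm1.w
    rw [dif_pos h1]
    show T.ψ (e • γ.ω t y) ⟨_, h1⟩ = _
    rw [map_smul, Pi.smul_apply, hK2 t ht y hy, mul_div_assoc, Wf_eq, smul_eq_mul,
      sg_conj (by omega : 1 < m) hζ]
    ring

end HC.SE.G2
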