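import Pool.Agent.Lib.SE.S3.Spec

/-!
# PROJECT SE, part S3: from the pointwise form to the sum over the sheets
-/

set_option autoImplicit false

open Finset MeasureTheory
open scoped ComplexConjugate ENNReal

noncomputable section

namespace HC.SE.G2

variable {r : ℕ}

theorem roots_fin {m : ℕ} (hm : m ≠ 0) (c : ℂ) : {z : ℂ | z ^ m = c}.Finite := by
  have h := (Polynomial.nthRoots m c).toFinset.finite_toSet
  refine h.subset fun z hz => ?_
  have h2 : z ∈ Polynomial.nthRoots m c := by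
    rw [Polynomial.mem_nthRoots (Nat.pos_of_ne_zero hm)]
    exact hz
  simpa using h2

theorem Sh_finite {m : ℕ} (hm : m ≠ 0) (s : Fin (r + 1) → ℂ) (b : Fin (r + 1) → ℕ)
    (L R : Fin r → Finset (Fin (r + 1))) (k : ℂ) (x : Fin r → ℂ) :
    (Sh m s b L R k x).Finite := by
  have h := Set.Finite.pi' (fun c : Fin r ⊕ Fin r => roots_fin hm (Sum.elim
    (fun a => ∏ j, (x a - s j) ^ b j)
    (fun i => tL s L R i x ^ (∑ j ∈ L i, b j) * (1 - tL s L R i x) ^ (∑ j ∈ R i, b j)) c))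
  refine h.subset fun y hy => ?_
  rintro (a | i)
  · exact hy.1 a
  · exact hy.2.1 i

theorem pos_of_pt (h : S_pt) : S_pos := by
  intro m r s b hb
  have hm : m ≠ 0 := by have := hb.1; omega
  obtain ⟨L, R, k, h1, h2, h3, h4⟩ := h m r s b hb
  refine ⟨L, R, k, h1, h2, h3, fun u hu hc => ?_⟩
  obtain ⟨K, hK, h5⟩ := h4 u hu hc
  classical
  refine ⟨K, fun x => ∑ᶠ y ∈ Sh m s b L R k x, ((MM m s b L R u x y).det / K).re, hK,
    fun x hx => ?_⟩
  have hfin := Sh_finite hm s b L R k x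
  obtain ⟨⟨y₀, hy₀, hy₁⟩, h6⟩ := h5 x hx
  have h7 : ∀ y ∈ Sh m s b L R k x, (MM m s b L R u x y).det
      = K * (((MM m s b L R u x y).det / K).re : ℝ) ∧ 0 ≤ ((MM m s b L R u x y).det / K).re := by
    intro y hy
    obtain ⟨p, hp, e⟩ := h6 y hy
    have e2 : (MM m s b L R u x y).det / K = p := by
      rw [e, mul_div_cancel_left₀ _ hK]
    rw [e2, Complex.ofReal_re]
    exact ⟨e, hp⟩
  show 0 < ∑ᶠ y ∈ Sh m s b L R k x, ((MM m s b L R u x y).det / K).re ∧
    ∑ᶠ y ∈ Sh m s b L R k x, (MM m s b L R u x y).det =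
      K * ((∑ᶠ y ∈ Sh m s b L R k x, ((MM m s b L R u x y).det / K).re : ℝ) : ℂ)
  rw [finsum_mem_eq_finite_toFinset_sum _ hfin, finsum_mem_eq_finite_toFinset_sum _ hfin]
  refine ⟨?_, ?_⟩
  · apply Finset.sum_pos'
    · intro y hy
      exact (h7 y (hfin.mem_toFinset.1 hy)).2
    · refine ⟨y₀, hfin.mem_toFinset.2 hy₀, lt_of_le_of_ne (h7 y₀ hy₀).2 fun h0 => hy₁ ?_⟩
      rw [(h7 y₀ hy₀).1, ← h0]
      simp
  · rw [Complex.ofReal_sum, Finset.mul_sum]
    exact Finset.sum_congr rfl fun y hy => (h7 y (hfin.mem_toFinset.1 hy)).1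

end HC.SE.G2
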