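import Pool.Agent.Lib.SE.S3.Asm
import Pool.Agent.Lib.SE.S3.Pos

/-!
# PROJECT SE, group G2: `S_pos → S_crv → S_int → S_mea → S_she → S_cyc`
-/

set_option autoImplicit false

open Finset MeasureTheory
open scoped ComplexConjugate ENNReal

noncomputable section

namespace HC.SE.G2

open _root_.SE _root_.SE.S4

variable {r : ℕ}

section
variable {m : ℕ} {s : Fin (r + 1) → ℂ} {b : Fin (r + 1) → ℕ}
  {L R : Fin r → Finset (Fin (r + 1))} {J Y : AV} {T : Fin r → AV}

/-- the data of the family -/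
def mkDat (D : New J m s b) (γ : ∀ i, Crv (T i)) (ψ : Y.V ≃ₗ[ℂ] J.V × (∀ i, (T i).V))
    (hJ : ∀ v ∈ J.L, ψ.symm (v, 0) ∈ Y.L)
    (hT : ∀ i, ∀ v ∈ (T i).L, ψ.symm (0, Pi.single i v) ∈ Y.L)
    (c d : Fin r → ℕ) (hP : ∀ i x y, (γ i).P (x, y) = y ^ m - x ^ c i * (1 - x) ^ d i)
    (hS : ∀ i, (γ i).S = {0, 1}) : Dat m s L R Y where
  T' := Sum.elim (fun _ => J) T
  γ := fun c => match c with
    | Sum.inl _ => D.γ
    | Sum.inr i => γ i
  φ := fun c => match c with
    | Sum.inl _ => ψ.symm.toLinearMap ∘ₗ LinearMap.inl ℂ J.V (∀ i, (T i).V)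
    | Sum.inr i => ψ.symm.toLinearMap ∘ₗ LinearMap.inr ℂ J.V (∀ i, (T i).V) ∘ₗ
        LinearMap.single ℂ (fun i => (T i).V) i
  f := fun e => match e with
    | Sum.inl _ => fun x => ∏ j, (x - s j) ^ b j
    | Sum.inr i => fun x => x ^ c i * (1 - x) ^ d i
  hφ := fun e => match e with
    | Sum.inl _ => fun v hv => hJ v hv
    | Sum.inr i => fun v hv => hT i v hv
  cont := fun e => match e with
    | Sum.inl _ => continuous_finsetProd _ fun j _ => (continuous_id.sub continuous_const).pow _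
    | Sum.inr i => (continuous_id.pow _).mul ((continuous_const.sub continuous_id).pow _)
  P := fun e => match e with
    | Sum.inl _ => D.P
    | Sum.inr i => hP i
  ne := fun e => match e with
    | Sum.inl _ => fun x hx => by
        rw [D.S] at hx
        refine Finset.prod_ne_zero_iff.2 fun j _ => pow_ne_zero _ (sub_ne_zero.2 ?_)
        rintro rfl
        exact hx ⟨j, rfl⟩
    | Sum.inr i => fun x hx => by
        rw [hS i] at hx
        simp only [Set.mem_insert_iff, Set.mem_singleton_iff, not_or] at hx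
        exact mul_ne_zero (pow_ne_zero _ hx.1) (pow_ne_zero _ (sub_ne_zero.2 (Ne.symm hx.2)))
  hS := fun e => match e with
    | Sum.inl a => fun z hz => by
        show z a ∉ D.γ.S
        rw [D.S]
        rintro ⟨j, hj⟩
        exact hz.2.1 a j hj.symm
    | Sum.inr i => fun z hz => by
        show tL s L R i z ∉ (γ i).S
        rw [hS i]
        have h := tL_ne hz i
        simp only [Set.mem_insert_iff, Set.mem_singleton_iff, not_or]
        exact ⟨h.1, fun h1 => h.2 (by rw [h1, sub_self])⟩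

variable (D : New J m s b) (γ : ∀ i, Crv (T i)) (ψ : Y.V ≃ₗ[ℂ] J.V × (∀ i, (T i).V))
    (hJ : ∀ v ∈ J.L, ψ.symm (v, 0) ∈ Y.L)
    (hT : ∀ i, ∀ v ∈ (T i).L, ψ.symm (0, Pi.single i v) ∈ Y.L)
    (c d : Fin r → ℕ) (hP : ∀ i x y, (γ i).P (x, y) = y ^ m - x ^ c i * (1 - x) ^ d i)
    (hS : ∀ i, (γ i).S = {0, 1})

theorem psi_vec {z : Fin r → ℂ} (y : Fin r ⊕ Fin r → ℂ) (l : Fin (2 * r)) :
    ψ ((mkDat (L := L) (R := R) D γ ψ hJ hT c d hP hS).vec z y l)
      = (∑ a, frame r l a • D.γ.ω (z a) (y (Sum.inl a)),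
        fun i => fderiv ℂ (tL s L R i) z (frame r l) •
          (γ i).ω (tL s L R i z) (y (Sum.inr i))) := by
  have h1 : ∀ a : Fin r, fderiv ℂ (xiL s L R (Sum.inl a)) z (frame r l) = frame r l a := by
    intro a
    have : xiL s L R (Sum.inl a) = fun x : Fin r → ℂ => x a := rfl
    rw [this, (hasFDerivAt_apply a z).fderiv]
    rfl
  have h2 : ψ ((mkDat (L := L) (R := R) D γ ψ hJ hT c d hP hS).vec z y l)
      = ∑ a, frame r l a • ((D.γ.ω (z a) (y (Sum.inl a)), 0) : J.V × (∀ i, (T i).V)) +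
        ∑ i, fderiv ℂ (tL s L R i) z (frame r l) •
          ((0, Pi.single i ((γ i).ω (tL s L R i z) (y (Sum.inr i)))) :
            J.V × (∀ i, (T i).V)) := by
    unfold Dat.vec
    rw [map_sum, Fintype.sum_sum_type]
    congr 1
    · refine Finset.sum_congr rfl fun a _ => ?_
      rw [map_smul, h1]
      congr 1
      exact ψ.apply_symm_apply _
    · refine Finset.sum_congr rfl fun i _ => ?_
      rw [map_smul]
      congr 1
      exact ψ.apply_symm_apply _
  rw [h2]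
  refine Prod.ext ?_ ?_
  · simp [Prod.fst_sum]
  · funext i
    simp only [Prod.snd_add, Prod.snd_sum, Prod.smul_mk, smul_zero, Finset.sum_const_zero,
      zero_add, Finset.sum_apply]
    rw [Finset.sum_eq_single i]
    · simp
    · intro j _ hj
      rw [Pi.smul_apply, Pi.single_eq_of_ne (Ne.symm hj), smul_zero]
    · simp

theorem sh_eq (k₀ : ℂ) (z : Fin r → ℂ) :
    (mkDat (L := L) (R := R) D γ ψ hJ hT c d hP hS).sh k₀ z =
      {y | (∀ a, y (Sum.inl a) ^ m = ∏ j, (z a - s j) ^ b j) ∧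
        (∀ i, y (Sum.inr i) ^ m = tL s L R i z ^ c i * (1 - tL s L R i z) ^ d i) ∧
        ∏ a, y (Sum.inl a) = k₀ * ∏ i, y (Sum.inr i)} := by
  ext y
  constructor
  · rintro ⟨h1, h2⟩
    exact ⟨fun a => h1 (Sum.inl a), fun i => h1 (Sum.inr i), h2⟩
  · rintro ⟨h1, h2, h3⟩
    refine ⟨fun e => ?_, h3⟩
    rcases e with a | i
    · exact h1 a
    · exact h2 i

end

theorem s_cyc (hpos : S_pos) (hcrv : S_crv) (hint : S_int) (hmea : S_mea) (hshe : S_she) :
    S_cyc := by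
  intro m r s b hb
  obtain ⟨L, R, k₀, h1, h2, h3, h4⟩ := hpos m r s b hb
  refine ⟨fun i => ∑ j ∈ L i, b j, fun i => ∑ j ∈ R i, b j, h2, fun u hu => h3 u hu, ?_⟩
  intro E _ _ _ ζ hζ J D T Y ψ hJ hT
  have hm3 := hb.1
  have hm : 0 < m := by omega
  choose γ hP hSγ hK using fun i => hcrv m (∑ j ∈ L i, b j) (∑ j ∈ R i, b j) hb.1 (h2 i).1
    (h2 i).2.1 (h2 i).2.2 E ζ hζ (T i)
  obtain ⟨κ, hκA, hκ⟩ := (mkDat (L := L) (R := R) (T := fun i => (T i).T) D γ ψ hJ hT
    (fun i => ∑ j ∈ L i, b j) (fun i => ∑ j ∈ R i, b j) hP hSγ).exists_kap hint hmea hshe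
    hb.2.1 h1 hm.ne' k₀
  refine ⟨κ, hκA, fun φ => ?_⟩
  have hsg := sg_spec hm hζ φ
  have hsc := sg_coprime hm hζ φ
  obtain ⟨a, ha1, ha2⟩ := exists_forms hb D hsg.1 hsc
  refine ⟨a, fun l v => by rw [ha1, hsg.2], ?_⟩
  choose K hK0 hK1 using fun i => w_val hm3 (h2 i).1 (h2 i).2.1 (h2 i).2.2 hζ (T i) (γ i)
    (hK i) φ
  obtain ⟨C, p, hC, hp⟩ := h4 (sg m ζ φ) hsg.1 hsc
  set av : Fin (2 * r) → (Y.V →ₗ[ℝ] ℂ) := fun k => if h : k.1 < r
              then pull (LinearMap.fst ℂ _ _ ∘ₗ ψ.toLinearMap) (a ⟨k.1, h⟩)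
              else pull (LinearMap.proj ⟨k.1 - r, by omega⟩ ∘ₗ LinearMap.snd ℂ _ _ ∘ₗ
                ψ.toLinearMap)
                ((T ⟨k.1 - r, by omega⟩).w (NumberField.ComplexEmbedding.conjugate φ)) with hav
  -- the constants of the rows
  let kk : Fin (2 * r) → ℂ := fun k => if h : k.1 < r then 1 else K ⟨k.1 - r, by omega⟩
  have hkk : ∀ k, kk k ≠ 0 := by
    intro k
    show (if h : k.1 < r then 1 else K ⟨k.1 - r, by omega⟩) ≠ 0
    split_ifs with h
    · exact one_ne_zero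
    · exact hK0 _
  have hprod : ∏ k, kk k ≠ 0 := Finset.prod_ne_zero_iff.2 fun k _ => hkk k
  -- the determinant
  have hdet : ∀ z ∈ Gd s L R, ∀ y ∈ Sh m s b L R k₀ z,
      (mkDat (L := L) (R := R) (T := fun i => (T i).T) D γ ψ hJ hT
        (fun i => ∑ j ∈ L i, b j) (fun i => ∑ j ∈ R i, b j) hP hSγ).dm z y av
        = (∏ k, kk k) * (MM m s b L R (sg m ζ φ) z y).det := by
    intro z hz y hy
    rw [Dat.dm_apply, ← Matrix.det_mul_column]
    refine congrArg Matrix.det ?_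
    ext k l
    simp only [Matrix.of_apply]
    by_cases hk : k.1 < r
    · have e1 : av k = pull (LinearMap.fst ℂ _ _ ∘ₗ ψ.toLinearMap) (a ⟨k.1, hk⟩) := by
        rw [hav]
        exact dif_pos hk
      have e2 : kk k = 1 := dif_pos hk
      rw [e1, e2, one_mul]
      show a ⟨k.1, hk⟩ (ψ ((mkDat (L := L) (R := R) (T := fun i => (T i).T) D γ ψ hJ hT
        (fun i => ∑ j ∈ L i, b j) (fun i => ∑ j ∈ R i, b j) hP hSγ).vec z y l)).1 = _
      rw [psi_vec]
      show a ⟨k.1, hk⟩ (∑ a, frame r l a • D.γ.ω (z a) (y (Sum.inl a))) = _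
      rw [ha2 z y (frame r l) ⟨k.1, hk⟩ ?_ ?_]
      · rw [MM, Matrix.of_apply, dif_pos hk]
      · intro a
        rw [D.S]
        rintro ⟨j, hj⟩
        exact hz.2.1 a j hj.symm
      · intro a
        rw [D.P, hy.1 a, sub_self]
    · have e1 : av k = pull (LinearMap.proj ⟨k.1 - r, by omega⟩ ∘ₗ LinearMap.snd ℂ _ _ ∘ₗ
                ψ.toLinearMap)
                ((T ⟨k.1 - r, by omega⟩).w (NumberField.ComplexEmbedding.conjugate φ)) := by
        rw [hav]
        exact dif_neg hk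
      have e2 : kk k = K ⟨k.1 - r, by omega⟩ := dif_neg hk
      rw [e1, e2]
      show ((T ⟨k.1 - r, by omega⟩).w (NumberField.ComplexEmbedding.conjugate φ))
        ((ψ ((mkDat (L := L) (R := R) (T := fun i => (T i).T) D γ ψ hJ hT
        (fun i => ∑ j ∈ L i, b j) (fun i => ∑ j ∈ R i, b j) hP hSγ).vec z y l)).2
          ⟨k.1 - r, by omega⟩) = _
      rw [psi_vec]
      show ((T ⟨k.1 - r, by omega⟩).w (NumberField.ComplexEmbedding.conjugate φ))
        (fderiv ℂ (tL s L R ⟨k.1 - r, by omega⟩) z (frame r l) •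
          (γ ⟨k.1 - r, by omega⟩).ω (tL s L R ⟨k.1 - r, by omega⟩ z)
            (y (Sum.inr ⟨k.1 - r, by omega⟩))) = _
      rw [hK1 ⟨k.1 - r, by omega⟩ _ _ _ ?_ ?_]
      · rw [MM, Matrix.of_apply, dif_neg hk]
        rfl
      · rw [hSγ]
        have h := tL_ne hz ⟨k.1 - r, by omega⟩
        simp only [Set.mem_insert_iff, Set.mem_singleton_iff, not_or]
        exact ⟨h.1, fun h1 => h.2 (by rw [h1, sub_self])⟩
      · rw [hP, hy.2.1, sub_self]
  -- the sum over the sheets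
  have hsum : ∀ z ∈ Gd s L R,
      ∑ᶠ y ∈ (mkDat (L := L) (R := R) (T := fun i => (T i).T) D γ ψ hJ hT
        (fun i => ∑ j ∈ L i, b j) (fun i => ∑ j ∈ R i, b j) hP hSγ).sh k₀ z,
        (mkDat (L := L) (R := R) (T := fun i => (T i).T) D γ ψ hJ hT
        (fun i => ∑ j ∈ L i, b j) (fun i => ∑ j ∈ R i, b j) hP hSγ).dm z y av
        = ((∏ k, kk k) * C) * p z := by
    intro z hz
    have e : (mkDat (L := L) (R := R) (T := fun i => (T i).T) D γ ψ hJ hT
        (fun i => ∑ j ∈ L i, b j) (fun i => ∑ j ∈ R i, b j) hP hSγ).sh k₀ z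
        = Sh m s b L R k₀ z := sh_eq D γ ψ hJ hT _ _ hP hSγ k₀ z
    rw [e, finsum_mem_congr rfl (hdet z hz), mul_assoc, ← (hp z hz).2]
    have hfin : (Sh m s b L R k₀ z).Finite := Sh_finite hm.ne' s b L R k₀ z
    rw [finsum_mem_eq_finite_toFinset_sum _ hfin, finsum_mem_eq_finite_toFinset_sum _ hfin,
      Finset.mul_sum]
  have hCK : (∏ k, kk k) * C ≠ 0 := mul_ne_zero hprod hC
  have hopen := isOpen_Gd s L R
  have hi : IntegrableOn (fun z => (((∏ k, kk k) * C) * p z : ℂ)) (Gd s L R) :=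
    (hκ av).2.congr_fun hsum hopen.measurableSet
  have hip : IntegrableOn (fun z => (p z : ℂ)) (Gd s L R) := by
    have h : IntegrableOn (fun z => ((∏ k, kk k) * C)⁻¹ * (((∏ k, kk k) * C) * p z : ℂ))
      (Gd s L R) := hi.const_mul ((∏ k, kk k) * C)⁻¹
    refine h.congr_fun (fun z _ => ?_) hopen.measurableSet
    show ((∏ k, kk k) * C)⁻¹ * (((∏ k, kk k) * C) * p z) = _
    rw [← mul_assoc, inv_mul_cancel₀ hCK, one_mul]
  have hipr : IntegrableOn p (Gd s L R) := by
    have := hip.re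
    exact this
  rw [(hκ av).1, setIntegral_congr_fun hopen.measurableSet hsum, integral_const_mul,
    integral_complex_ofReal]
  refine mul_ne_zero hCK (Complex.ofReal_ne_zero.2 (ne_of_gt ?_))
  rw [setIntegral_pos_iff_support_of_nonneg_ae]
  · have : Function.support p ∩ Gd s L R = Gd s L R := by
      ext z
      constructor
      · exact fun h => h.2
      · exact fun h => ⟨(hp z h).1.ne', h⟩
    rw [this]
    exact hopen.measure_pos volume (Gd_nonempty hb.2.1 h1)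
  · exact (ae_restrict_mem hopen.measurableSet).mono fun z hz => (hp z hz).1.le
  · exact hipr

end HC.SE.G2
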