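import Pool.Agent.Lib.SE.S3.Spec

/-!
# PROJECT SE, part S3: the constructor `fam` over a finite index type, and integrals of
alternating maps
-/

set_option autoImplicit false

open Finset MeasureTheory
open scoped ComplexConjugate ENNReal

noncomputable section

namespace HC.SE.G2

/-- the integral of a family of alternating maps -/
theorem exists_int_alt {E : Type} [AddCommGroup E] [Module ℂ E] {n : ℕ} {Ω : Type}
    [MeasurableSpace Ω] (μ : Measure Ω) (D : Ω → (E [⋀^Fin n]→ₗ[ℂ] ℂ))
    (hD : ∀ a, Integrable (fun z => D z a) μ) :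
    ∃ κ : E [⋀^Fin n]→ₗ[ℂ] ℂ, ∀ a, κ a = ∫ z, D z a ∂μ := by
  refine ⟨{ toFun := fun a => ∫ z, D z a ∂μ
            map_update_add' := ?_
            map_update_smul' := ?_
            map_eq_zero_of_eq' := ?_ }, fun a => rfl⟩
  · intro dec a i x y
    have e : dec = instDecidableEqFin n := Subsingleton.elim _ _
    subst e
    rw [← integral_add (hD _) (hD _)]
    congr 1
    funext z
    exact (D z).map_update_add a i x y
  · intro dec a i c x
    have e : dec = instDecidableEqFin n := Subsingleton.elim _ _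
    subst e
    rw [← integral_smul]
    congr 1
    funext z
    exact (D z).map_update_smul a i c x
  · intro a i j hij hne
    have : (fun z => D z a) = fun _ => 0 := by
      funext z
      exact (D z).map_eq_zero_of_eq a hij hne
    show ∫ z, D z a ∂μ = 0
    rw [this, integral_zero]

theorem poly_comp_lin {E E' : Type} [AddCommGroup E] [Module ℂ E] [AddCommGroup E']
    [Module ℂ E'] {f : E → ℂ} (hf : IsPoly f) (l : E' →ₗ[ℂ] E) : IsPoly fun v => f (l v) := by
  have : ∀ f ∈ Algebra.adjoin ℂ (Set.range fun (l : E →ₗ[ℂ] ℂ) (v : E) => l v),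
      (fun v => f (l v)) ∈ Algebra.adjoin ℂ (Set.range fun (l : E' →ₗ[ℂ] ℂ) (v : E') => l v) := by
    intro f hf
    induction hf using Algebra.adjoin_induction with
    | mem f hf =>
      obtain ⟨k, rfl⟩ := hf
      exact Algebra.subset_adjoin ⟨k ∘ₗ l, rfl⟩
    | algebraMap c => exact Subalgebra.algebraMap_mem _ c
    | add f g _ _ hf hg => exact Subalgebra.add_mem _ hf hg
    | mul f g _ _ hf hg => exact Subalgebra.mul_mem _ hf hg
  exact this f hf

theorem fam_iota {T : AV} {r : ℕ} {ι : Type} [Fintype ι] {T' : ι → AV}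
    (γ : ∀ j, Crv (T' j)) (φ : ∀ j, (T' j).V →ₗ[ℂ] T.V) (hφ : ∀ j, ∀ v ∈ (T' j).L, φ j v ∈ T.L)
    (g : (Fin r → ℂ) → ℂ) (hg : IsPoly g) (hg0 : ∃ z, g z ≠ 0) (x : ι → (Fin r → ℂ) → ℂ)
    (hx : ∀ j, ∃ p q : (Fin r → ℂ) → ℂ, IsPoly p ∧ IsPoly q ∧
      ∀ z, g z ≠ 0 → q z ≠ 0 ∧ x j z = p z / q z)
    (hS : ∀ j z, g z ≠ 0 → x j z ∉ (γ j).S)
    (Q : (Fin r → ℂ) × (ι → ℂ) → ℂ) (hQ : IsPoly Q) (c : Hlg T (2 * r))
    (hc : ∀ a : Fin (2 * r) → (T.V →ₗ[ℝ] ℂ), c a = ∫ z in {z | g z ≠ 0},
      ∑ᶠ y ∈ {y : ι → ℂ | (∀ j, (γ j).P (x j z, y j) = 0) ∧ Q (z, y) = 0},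
        Matrix.det (Matrix.of fun i l =>
          a i (∑ j, fderiv ℂ (x j) z (frame r l) • φ j ((γ j).ω (x j z) (y j))))) :
    Alg2 T (2 * r) c := by
  classical
  let e : ι ≃ Fin (Fintype.card ι) := Fintype.equivFin ι
  refine Alg2.fam (N := Fintype.card ι) (T' := fun j => T' (e.symm j)) (fun j => γ (e.symm j))
    (fun j => φ (e.symm j)) (fun j => hφ (e.symm j)) g hg hg0 (fun j => x (e.symm j))
    (fun j => hx (e.symm j)) (fun j => hS (e.symm j))
    {fun p => Q (p.1, fun j => p.2 (e j))} ?_ c ?_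
  · intro f hf
    rw [Set.mem_singleton_iff] at hf
    subst hf
    exact poly_comp_lin hQ ((LinearMap.fst ℂ (Fin r → ℂ) (Fin (Fintype.card ι) → ℂ)).prod
      ((LinearMap.funLeft ℂ ℂ e) ∘ₗ LinearMap.snd ℂ (Fin r → ℂ) (Fin (Fintype.card ι) → ℂ)))
  · intro a
    rw [hc a]
    congr 1
    funext z
    refine (finsum_mem_eq_of_bijOn (fun y : Fin (Fintype.card ι) → ℂ => fun j => y (e j))
      ?_ ?_).symm
    · refine ⟨?_, ?_, ?_⟩
      · rintro y ⟨h1, h2⟩
        refine ⟨fun j => ?_, h2 _ rfl⟩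
        have := h1 (e j)
        rw [Equiv.symm_apply_apply] at this
        exact this
      · intro y _ y' _ h
        funext j
        have := congrFun h (e.symm j)
        simpa using this
      · rintro y ⟨h1, h2⟩
        refine ⟨fun j => y (e.symm j), ⟨fun j => h1 (e.symm j), ?_⟩, ?_⟩
        · intro f hf
          rw [Set.mem_singleton_iff] at hf
          subst hf
          simpa using h2
        · funext j
          simp
    · intro y _
      congr 1
      ext i l
      simp only [Matrix.of_apply]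
      congr 1
      rw [← Equiv.sum_comp e]
      refine Finset.sum_congr rfl fun j _ => ?_
      rw [Equiv.symm_apply_apply]

end HC.SE.G2
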