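import Pool.Agent.Lib.SE.S3.PullT
import Pool.Agent.Lib.SE.S2.AnaG

/-!
# PROJECT SE, part S3: the base `Gd` is the complement of the zeros of a polynomial
-/

set_option autoImplicit false

open Set Filter Topology MeasureTheory
open scoped ENNReal

noncomputable section

namespace HC.SE.G2

open _root_.SE.S3 _root_.SE

variable {r : ℕ}

/-- The polynomial with `Gd = {gP ≠ 0}`. -/
def gP (s : Fin (r + 1) → ℂ) (L R : Fin r → Finset (Fin (r + 1))) (x : Fin r → ℂ) : ℂ :=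
  (∏ a : Fin r, ∏ b ∈ Finset.univ.erase a, (x a - x b)) * (∏ a, ∏ j, (x a - s j)) *
    ∏ i, (UL s (L i) x * UL s (R i) x * (UL s (L i) x + UL s (R i) x))

theorem gP_ne_zero_iff (s : Fin (r + 1) → ℂ) (L R : Fin r → Finset (Fin (r + 1)))
    (x : Fin r → ℂ) : gP s L R x ≠ 0 ↔ x ∈ Gd s L R := by
  rw [gP, mul_ne_zero_iff, mul_ne_zero_iff, Finset.prod_ne_zero_iff, Finset.prod_ne_zero_iff,
    Finset.prod_ne_zero_iff]
  constructor
  · rintro ⟨⟨h1, h2⟩, h3⟩
    refine ⟨?_, fun a j h => ?_, fun i => ?_⟩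
    · intro a b hab
      by_contra hne
      have := h1 a (Finset.mem_univ _)
      rw [Finset.prod_ne_zero_iff] at this
      exact this b (Finset.mem_erase.2 ⟨fun h => hne h.symm, Finset.mem_univ _⟩)
        (sub_eq_zero.2 hab)
    · have := h2 a (Finset.mem_univ _)
      rw [Finset.prod_ne_zero_iff] at this
      exact this j (Finset.mem_univ _) (sub_eq_zero.2 h)
    · have := h3 i (Finset.mem_univ _)
      rw [mul_ne_zero_iff, mul_ne_zero_iff] at this
      exact ⟨this.1.1, this.1.2, this.2⟩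
  · rintro ⟨h1, h2, h3⟩
    refine ⟨⟨fun a _ => ?_, fun a _ => ?_⟩, fun i _ => ?_⟩
    · rw [Finset.prod_ne_zero_iff]
      intro b hb
      rw [Finset.mem_erase] at hb
      exact sub_ne_zero.2 fun h => hb.1 (h1 h).symm
    · rw [Finset.prod_ne_zero_iff]
      intro j _
      exact sub_ne_zero.2 (h2 a j)
    · exact mul_ne_zero (mul_ne_zero (h3 i).1 (h3 i).2.1) (h3 i).2.2

theorem Gd_eq_gP (s : Fin (r + 1) → ℂ) (L R : Fin r → Finset (Fin (r + 1))) :
    {x | gP s L R x ≠ 0} = Gd s L R := by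
  ext x
  exact gP_ne_zero_iff s L R x

theorem poly_UL (s : Fin (r + 1) → ℂ) (L : Finset (Fin (r + 1))) : IsPoly (UL s L) := by
  have : UL s L = fun x => ∑ j ∈ L, (_root_.SE.Fd s j)⁻¹ * ∏ a, (s j - x a) := by
    funext x
    rw [UL]
    refine Finset.sum_congr rfl fun j _ => ?_
    rw [_root_.SE.ux, div_eq_inv_mul]
  rw [this]
  exact poly_sum _ fun j _ => poly_mul (poly_const _) (poly_prod _ fun a _ =>
    poly_sub (poly_const _) (poly_coord a))

theorem poly_gP (s : Fin (r + 1) → ℂ) (L R : Fin r → Finset (Fin (r + 1))) :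
    IsPoly (gP s L R) := by
  unfold gP
  refine poly_mul (poly_mul ?_ ?_) ?_
  · exact poly_prod _ fun a _ => poly_prod _ fun b _ => poly_sub (poly_coord a) (poly_coord b)
  · exact poly_prod _ fun a _ => poly_prod _ fun j _ => poly_sub (poly_coord a) (poly_const _)
  · exact poly_prod _ fun i _ => poly_mul (poly_mul (poly_UL s _) (poly_UL s _))
      (poly_add (poly_UL s _) (poly_UL s _))

theorem isOpen_Gd (s : Fin (r + 1) → ℂ) (L R : Fin r → Finset (Fin (r + 1))) :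
    IsOpen (Gd s L R) := by
  rw [← Gd_eq_gP]
  exact isOpen_ne_fun (poly_continuous (poly_gP s L R)) continuous_const

theorem UL_special {s : Fin (r + 1) → ℂ} (hs : Function.Injective s) {L : Finset (Fin (r + 1))}
    {j : Fin (r + 1)} (hj : j ∈ L) : UL s L (fun a => s (j.succAbove a)) = 1 := by
  have h0 : ∀ i : Fin (r + 1), i ≠ j → _root_.SE.ux s (fun a => s (j.succAbove a)) i = 0 := by
    intro i hi
    obtain ⟨a, rfl⟩ := Fin.exists_succAbove_eq hi
    rw [_root_.SE.ux, Finset.prod_eq_zero (Finset.mem_univ a) (by simp), zero_div]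
  have h1 := sum_ux hs (fun a => s (j.succAbove a))
  rw [Finset.sum_eq_single j (fun i _ hi => h0 i hi) (by simp)] at h1
  rw [UL, Finset.sum_eq_single j (fun i _ hi => h0 i hi) (fun h => absurd hj h), h1]

theorem UL_add_special {s : Fin (r + 1) → ℂ} (hs : Function.Injective s)
    {L R : Finset (Fin (r + 1))} (hd : Disjoint L R)
    {j : Fin (r + 1)} (hj : j ∈ L) :
    UL s L (fun a => s (j.succAbove a)) + UL s R (fun a => s (j.succAbove a)) = 1 := by
  rw [UL, UL, ← Finset.sum_union hd]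
  exact UL_special hs (Finset.mem_union_left _ hj)

theorem ae_Gd {s : Fin (r + 1) → ℂ} (hs : Function.Injective s)
    {L R : Fin r → Finset (Fin (r + 1))}
    (h : ∀ i, (L i).Nonempty ∧ (R i).Nonempty ∧ Disjoint (L i) (R i)) :
    ∀ᵐ x : Fin r → ℂ, x ∈ Gd s L R := by
  have h1 : ∀ᵐ x : Fin r → ℂ, ∀ a j, x a ≠ s j := by
    filter_upwards [ae_good hs] with x hx using hx.1
  have h2 : ∀ᵐ x : Fin r → ℂ, ∀ i, UL s (L i) x ≠ 0 := by
    rw [ae_all_iff]
    intro i
    obtain ⟨j, hj⟩ := (h i).1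
    exact poly_ae_ne (poly_UL s (L i)) ⟨_, by rw [UL_special hs hj]; exact one_ne_zero⟩
  have h3 : ∀ᵐ x : Fin r → ℂ, ∀ i, UL s (R i) x ≠ 0 := by
    rw [ae_all_iff]
    intro i
    obtain ⟨j, hj⟩ := (h i).2.1
    exact poly_ae_ne (poly_UL s (R i)) ⟨_, by rw [UL_special hs hj]; exact one_ne_zero⟩
  have h4 : ∀ᵐ x : Fin r → ℂ, ∀ i, UL s (L i) x + UL s (R i) x ≠ 0 := by
    rw [ae_all_iff]
    intro i
    obtain ⟨j, hj⟩ := (h i).1
    exact poly_ae_ne (poly_add (poly_UL s (L i)) (poly_UL s (R i)))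
      ⟨_, by rw [UL_add_special hs (h i).2.2 hj]; exact one_ne_zero⟩
  filter_upwards [h1, h2, h3, h4, ae_injective (r := r)] with x a1 a2 a3 a4 a5
  exact ⟨a5, a1, fun i => ⟨a2 i, a3 i, a4 i⟩⟩

theorem Gd_nonempty {s : Fin (r + 1) → ℂ} (hs : Function.Injective s)
    {L R : Fin r → Finset (Fin (r + 1))}
    (h : ∀ i, (L i).Nonempty ∧ (R i).Nonempty ∧ Disjoint (L i) (R i)) :
    (Gd s L R).Nonempty := (ae_Gd hs h).exists

theorem gP_exists {s : Fin (r + 1) → ℂ} (hs : Function.Injective s)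
    {L R : Fin r → Finset (Fin (r + 1))}
    (h : ∀ i, (L i).Nonempty ∧ (R i).Nonempty ∧ Disjoint (L i) (R i)) :
    ∃ x, gP s L R x ≠ 0 := by
  obtain ⟨x, hx⟩ := Gd_nonempty hs h
  exact ⟨x, (gP_ne_zero_iff s L R x).2 hx⟩

theorem tL_ne {s : Fin (r + 1) → ℂ} {L R : Fin r → Finset (Fin (r + 1))} {x : Fin r → ℂ}
    (hx : x ∈ Gd s L R) (i : Fin r) : tL s L R i x ≠ 0 ∧ 1 - tL s L R i x ≠ 0 := by
  obtain ⟨h1, h2, h3⟩ := hx.2.2 i
  refine ⟨div_ne_zero h1 h3, ?_⟩
  rw [tL, one_sub_div h3, add_sub_cancel_left]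
  exact div_ne_zero h2 h3

theorem xiL_rat (s : Fin (r + 1) → ℂ) (L R : Fin r → Finset (Fin (r + 1))) (c : Fin r ⊕ Fin r) :
    ∃ p q : (Fin r → ℂ) → ℂ, IsPoly p ∧ IsPoly q ∧
      ∀ z, gP s L R z ≠ 0 → q z ≠ 0 ∧ xiL s L R c z = p z / q z := by
  rcases c with a | i
  · refine ⟨fun z => z a, fun _ => 1, poly_coord a, poly_const 1, fun z _ => ⟨one_ne_zero, ?_⟩⟩
    simp [xiL]
  · refine ⟨UL s (L i), fun z => UL s (L i) z + UL s (R i) z, poly_UL s _,
      poly_add (poly_UL s _) (poly_UL s _), fun z hz => ?_⟩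
    exact ⟨(((gP_ne_zero_iff s L R z).1 hz).2.2 i).2.2, rfl⟩

theorem measurable_xiL (s : Fin (r + 1) → ℂ) (L R : Fin r → Finset (Fin (r + 1)))
    (c : Fin r ⊕ Fin r) : Measurable (xiL s L R c) := by
  rcases c with a | i
  · exact measurable_pi_apply a
  · exact (continuous_UL s (L i)).measurable.div
      ((continuous_UL s (L i)).add (continuous_UL s (R i))).measurable

theorem measurable_dxiL (s : Fin (r + 1) → ℂ) (L R : Fin r → Finset (Fin (r + 1)))
    (c : Fin r ⊕ Fin r) (v : Fin r → ℂ) : Measurable fun x => fderiv ℂ (xiL s L R c) x v :=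
  measurable_fderiv_apply_const ℂ _ v

end HC.SE.G2
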