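import Pool.Agent.Lib.SE.S3.Fam
import Pool.Agent.Lib.SE.S3.GdP

/-!
# PROJECT SE, part S3: construction of the class of the cycle
-/

set_option autoImplicit false

open Finset MeasureTheory
open scoped ComplexConjugate ENNReal

noncomputable section

namespace HC.SE.G2

/-- a real linear function is `A + conj B` -/
theorem exists_AB {V : Type} [AddCommGroup V] [Module ℂ V] (a : V →ₗ[ℝ] ℂ) :
    ∃ A B : V →ₗ[ℂ] ℂ, ∀ v, a v = A v + conj (B v) := by
  have hI : ∀ (z : ℂ) (v : V), a (z • v) = z.re * a v + z.im * a (Complex.I • v) := by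
    intro z v
    have h1 : z • v = z.re • v + z.im • (Complex.I • v) := by
      conv_lhs => rw [← Complex.re_add_im z]
      rw [add_smul, mul_smul]
      rfl
    rw [h1, map_add, map_smul, map_smul]
    simp
  have hII : ∀ v : V, a (Complex.I • (Complex.I • v)) = - a v := by
    intro v
    rw [smul_smul, Complex.I_mul_I, neg_smul, one_smul, map_neg]
  refine ⟨{ toFun := fun v => (a v - Complex.I * a (Complex.I • v)) / 2
            map_add' := ?_
            map_smul' := ?_ }, { toFun := fun v => conj ((a v + Complex.I * a (Complex.I • v)) / 2)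
                                 map_add' := ?_
                                 map_smul' := ?_ }, ?_⟩
  · intro u v
    rw [smul_add, map_add, map_add]
    ring
  · intro z v
    have h2 : a (Complex.I • z • v) = z.re * a (Complex.I • v) - z.im * a v := by
      rw [smul_comm, hI, hII]
      ring
    rw [h2, hI]
    simp only [RingHom.id_apply, smul_eq_mul]
    conv_rhs => rw [← Complex.re_add_im z]
    linear_combination ((z.im : ℂ) * a (Complex.I • v) / 2) * Complex.I_sq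
  · intro u v
    rw [smul_add, map_add, map_add, ← map_add conj]
    congr 1
    ring
  · intro z v
    have h2 : a (Complex.I • z • v) = z.re * a (Complex.I • v) - z.im * a v := by
      rw [smul_comm, hI, hII]
      ring
    rw [h2, hI]
    have h3 : (z.re * a v + z.im * a (Complex.I • v) +
        Complex.I * (z.re * a (Complex.I • v) - z.im * a v)) / 2
        = conj z * ((a v + Complex.I * a (Complex.I • v)) / 2) := by
      have h4 : conj z = z.re - z.im * Complex.I := by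
        apply Complex.ext <;> simp
      rw [h4]
      linear_combination ((z.im : ℂ) * a (Complex.I • v) / 2) * Complex.I_sq
    rw [h3, map_mul, Complex.conj_conj]
    rfl
  · intro v
    show a v = (a v - Complex.I * a (Complex.I • v)) / 2
      + conj (conj ((a v + Complex.I * a (Complex.I • v)) / 2))
    rw [Complex.conj_conj]
    ring

theorem alt_sum_apply {E : Type} [AddCommGroup E] [Module ℂ E] {n : ℕ} {ι : Type}
    (S : Finset ι) (D : ι → (E [⋀^Fin n]→ₗ[ℂ] ℂ)) (a : Fin n → E) :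
    (∑ k ∈ S, D k) a = ∑ k ∈ S, D k a := by
  classical
  induction S using Finset.induction_on with
  | empty => rfl
  | insert k S hk ih =>
    rw [Finset.sum_insert hk, Finset.sum_insert hk, ← ih]
    rfl

variable {r : ℕ}

/-- the data of the family -/
structure Dat (m : ℕ) (s : Fin (r + 1) → ℂ) (L R : Fin r → Finset (Fin (r + 1))) (Y : AV) where
  T' : Fin r ⊕ Fin r → AV
  γ : ∀ c, Crv (T' c)
  φ : ∀ c, (T' c).V →ₗ[ℂ] Y.V
  f : Fin r ⊕ Fin r → ℂ → ℂ
  hφ : ∀ c, ∀ v ∈ (T' c).L, φ c v ∈ Y.L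
  cont : ∀ c, Continuous (f c)
  P : ∀ c x y, (γ c).P (x, y) = y ^ m - f c x
  ne : ∀ c, ∀ x ∉ (γ c).S, f c x ≠ 0
  hS : ∀ c, ∀ z ∈ Gd s L R, xiL s L R c z ∉ (γ c).S

namespace Dat

variable {m : ℕ} {s : Fin (r + 1) → ℂ} {L R : Fin r → Finset (Fin (r + 1))} {Y : AV}
  (W : Dat m s L R Y)

/-- the tangent vector -/
def vec (z : Fin r → ℂ) (y : Fin r ⊕ Fin r → ℂ) (l : Fin (2 * r)) : Y.V :=
  ∑ c, fderiv ℂ (xiL s L R c) z (frame r l) • W.φ c ((W.γ c).ω (xiL s L R c z) (y c))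

/-- the determinant as an alternating map -/
def dm (z : Fin r → ℂ) (y : Fin r ⊕ Fin r → ℂ) : Hlg Y (2 * r) :=
  (Matrix.detRowAlternating (n := Fin (2 * r)) (R := ℂ)).compLinearMap
    { toFun := fun a l => a (W.vec z y l)
      map_add' := fun _ _ => rfl
      map_smul' := fun _ _ => rfl }

theorem dm_apply (z : Fin r → ℂ) (y : Fin r ⊕ Fin r → ℂ) (a : Fin (2 * r) → (Y.V →ₗ[ℝ] ℂ)) :
    W.dm z y a = Matrix.det (Matrix.of fun i l => a i (W.vec z y l)) := rfl

/-- the branch number `k` over `z` -/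
def bz (k : Fin r ⊕ Fin r → Fin m) (z : Fin r → ℂ) (c : Fin r ⊕ Fin r) : ℂ :=
  br m (W.f c) (k c) (xiL s L R c z)

theorem int_dm (hint : S_int) (hmea : S_mea) (hs : Function.Injective s) (hm : m ≠ 0)
    (k : Fin r ⊕ Fin r → Fin m) (a : Fin (2 * r) → (Y.V →ₗ[ℝ] ℂ)) :
    IntegrableOn (fun z => W.dm z (W.bz k z) a) (Gd s L R) := by
  choose A B hAB using fun i => exists_AB (a i)
  have h := hint r s L R hs
    (fun i c x => {x | x ∉ (W.γ c).S}.indicator
      (fun x => (A i ∘ₗ W.φ c) ((W.γ c).ω x (br m (W.f c) (k c) x))) x)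
    (fun i c x => {x | x ∉ (W.γ c).S}.indicator
      (fun x => (B i ∘ₗ W.φ c) ((W.γ c).ω x (br m (W.f c) (k c) x))) x)
    (fun i c => (hmea _ (W.γ c) m (W.f c) hm (W.cont c) (W.P c) (W.ne c) (k c) _).1)
    (fun i c => (hmea _ (W.γ c) m (W.f c) hm (W.cont c) (W.P c) (W.ne c) (k c) _).1)
    (fun i c => (hmea _ (W.γ c) m (W.f c) hm (W.cont c) (W.P c) (W.ne c) (k c) _).2)
    (fun i c => (hmea _ (W.γ c) m (W.f c) hm (W.cont c) (W.P c) (W.ne c) (k c) _).2)
  refine h.congr_fun ?_ (isOpen_Gd s L R).measurableSet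
  intro z hz
  show _ = W.dm z (W.bz k z) a
  rw [dm_apply]
  refine congrArg Matrix.det ?_
  ext i l
  simp only [Matrix.of_apply]
  rw [vec, map_sum]
  refine Finset.sum_congr rfl fun c _ => ?_
  have hc : xiL s L R c z ∈ {x | x ∉ (W.γ c).S} := W.hS c z hz
  rw [Set.indicator_of_mem hc, Set.indicator_of_mem hc, hAB, map_smul, map_smul]
  simp only [LinearMap.comp_apply, smul_eq_mul, bz]
  ring_nf

open Classical in
/-- the sum over the sheets as an alternating map -/
def Dz (k₀ : ℂ) (z : Fin r → ℂ) : Hlg Y (2 * r) :=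
  ∑ k : Fin r ⊕ Fin r → Fin m,
    if ∏ a, W.bz k z (Sum.inl a) = k₀ * ∏ i, W.bz k z (Sum.inr i)
      then W.dm z (W.bz k z) else 0

theorem measurable_bz (k : Fin r ⊕ Fin r → Fin m) (c : Fin r ⊕ Fin r) :
    Measurable fun z => W.bz k z c := by
  unfold bz br
  exact (((W.cont c).measurable.comp (measurable_xiL s L R c)).pow_const _).const_mul _

theorem int_Dz (hint : S_int) (hmea : S_mea) (hs : Function.Injective s) (hm : m ≠ 0)
    (k₀ : ℂ) (a : Fin (2 * r) → (Y.V →ₗ[ℝ] ℂ)) :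
    IntegrableOn (fun z => W.Dz k₀ z a) (Gd s L R) := by
  classical
  have h1 : (fun z => W.Dz k₀ z a) = fun z => ∑ k : Fin r ⊕ Fin r → Fin m,
      {z | ∏ a, W.bz k z (Sum.inl a) = k₀ * ∏ i, W.bz k z (Sum.inr i)}.indicator
        (fun z => W.dm z (W.bz k z) a) z := by
    funext z
    rw [Dz, alt_sum_apply]
    refine Finset.sum_congr rfl fun k _ => ?_
    rw [Set.indicator_apply]
    by_cases h : ∏ a, W.bz k z (Sum.inl a) = k₀ * ∏ i, W.bz k z (Sum.inr i)
    · rw [if_pos h, if_pos (by exact h)]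
    · rw [if_neg h, if_neg (by exact h)]
      rfl
  rw [h1]
  refine integrable_finsetSum _ fun k _ => ?_
  refine Integrable.indicator (W.int_dm hint hmea hs hm k a) ?_
  exact measurableSet_eq_fun
    (Finset.measurable_prod _ fun a _ => W.measurable_bz k (Sum.inl a))
    ((Finset.measurable_prod _ fun i _ => W.measurable_bz k (Sum.inr i)).const_mul _)

/-- the sheets -/
def sh (k₀ : ℂ) (z : Fin r → ℂ) : Set (Fin r ⊕ Fin r → ℂ) :=
  {y | (∀ c, y c ^ m = W.f c (xiL s L R c z)) ∧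
    ∏ a, y (Sum.inl a) = k₀ * ∏ i, y (Sum.inr i)}

theorem Dz_eq (hshe : S_she) (hm : m ≠ 0) (k₀ : ℂ) {z : Fin r → ℂ} (hz : z ∈ Gd s L R)
    (a : Fin (2 * r) → (Y.V →ₗ[ℝ] ℂ)) :
    W.Dz k₀ z a = ∑ᶠ y ∈ W.sh k₀ z, W.dm z y a := by
  classical
  have h := hshe (Fin r ⊕ Fin r) m W.f (fun c => xiL s L R c z)
    (fun y => ∏ a, y (Sum.inl a) = k₀ * ∏ i, y (Sum.inr i)) ℂ (fun y => W.dm z y a) hm
    (fun c => W.ne c _ (W.hS c z hz))
  rw [sh, h, Dz, alt_sum_apply]
  refine Finset.sum_congr rfl fun k _ => ?_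
  by_cases h : ∏ a, W.bz k z (Sum.inl a) = k₀ * ∏ i, W.bz k z (Sum.inr i)
  · rw [if_pos h, if_pos (by exact h)]
    rfl
  · rw [if_neg h, if_neg (by exact h)]
    rfl

/-- THE CLASS OF THE CYCLE -/
theorem exists_kap (hint : S_int) (hmea : S_mea) (hshe : S_she) (hs : Function.Injective s)
    (hLR : ∀ i, (L i).Nonempty ∧ (R i).Nonempty ∧ Disjoint (L i) (R i)) (hm : m ≠ 0) (k₀ : ℂ) :
    ∃ κ : Hlg Y (2 * r), Alg2 Y (2 * r) κ ∧ ∀ a,
      κ a = (∫ z in Gd s L R, ∑ᶠ y ∈ W.sh k₀ z, W.dm z y a) ∧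
      IntegrableOn (fun z => ∑ᶠ y ∈ W.sh k₀ z, W.dm z y a) (Gd s L R) := by
  obtain ⟨κ, hκ⟩ := exists_int_alt (volume.restrict (Gd s L R)) (W.Dz k₀)
    (W.int_Dz hint hmea hs hm k₀)
  have e : ∀ a, κ a = ∫ z in Gd s L R, ∑ᶠ y ∈ W.sh k₀ z, W.dm z y a := by
    intro a
    rw [hκ]
    exact setIntegral_congr_fun (isOpen_Gd s L R).measurableSet
      fun z hz => W.Dz_eq hshe hm k₀ hz a
  refine ⟨κ, ?_, fun a => ⟨e a, ?_⟩⟩
  · refine fam_iota W.γ W.φ W.hφ (gP s L R) (poly_gP s L R) (gP_exists hs hLR)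
      (fun c => xiL s L R c) (xiL_rat s L R)
      (fun c z hz => W.hS c z ((gP_ne_zero_iff s L R z).1 hz))
      (fun p => ∏ a, p.2 (Sum.inl a) - k₀ * ∏ i, p.2 (Sum.inr i)) ?_ κ ?_
    · have hl : ∀ c : Fin r ⊕ Fin r,
          IsPoly fun p : (Fin r → ℂ) × (Fin r ⊕ Fin r → ℂ) => p.2 c := fun c =>
        _root_.SE.poly_lin ((LinearMap.proj c : (Fin r ⊕ Fin r → ℂ) →ₗ[ℂ] ℂ) ∘ₗ
          LinearMap.snd ℂ (Fin r → ℂ) (Fin r ⊕ Fin r → ℂ))
      exact _root_.SE.poly_sub (_root_.SE.poly_prod _ fun a _ => hl _)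
        (_root_.SE.poly_mul (_root_.SE.poly_const _) (_root_.SE.poly_prod _ fun i _ => hl _))
    · intro a
      rw [e a, Gd_eq_gP]
      congr 1
      funext z
      have hset : W.sh k₀ z = {y : Fin r ⊕ Fin r → ℂ |
          (∀ j, (W.γ j).P (xiL s L R j z, y j) = 0) ∧
            ∏ a, y (Sum.inl a) - k₀ * ∏ i, y (Sum.inr i) = 0} := by
        ext y
        constructor
        · rintro ⟨h1, h2⟩
          exact ⟨fun c => by rw [W.P, h1 c, sub_self], sub_eq_zero.2 h2⟩
        · rintro ⟨h1, h2⟩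
          exact ⟨fun c => by have := h1 c; rw [W.P] at this; exact sub_eq_zero.1 this,
            sub_eq_zero.1 h2⟩
      rw [hset]
      rfl
  · refine (W.int_Dz hint hmea hs hm k₀ a).congr_fun ?_ (isOpen_Gd s L R).measurableSet
    intro z hz
    exact W.Dz_eq hshe hm k₀ hz a

end Dat

end HC.SE.G2
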