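import Mathlib

/-!
# PROJECT SE, part S3: the integral of a product of functions of one variable
-/

set_option autoImplicit false

open MeasureTheory
open scoped ENNReal

noncomputable section

namespace SE

namespace S3

set_option backward.isDefEq.respectTransparency false in
theorem lintegral_pi_prod {n : ℕ} (f : Fin n → ℂ → ℝ≥0∞) (hf : ∀ i, Measurable (f i)) :
    ∫⁻ x : Fin n → ℂ, ∏ i, f i (x i) = ∏ i, ∫⁻ z, f i z := by
  induction n with
  | zero => simp [volume_pi]
  | succ n n_ih =>
      have hmp := (volume_preserving_piFinSuccAbove (fun _ : Fin (n + 1) => ℂ) 0).symm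
      have h1 : ∫⁻ x : Fin (n + 1) → ℂ, ∏ i, f i (x i)
          = ∫⁻ x : ℂ × (Fin n → ℂ), f 0 x.1 * ∏ i : Fin n, f (Fin.succ i) (x.2 i) := by
        rw [← hmp.lintegral_comp_emb (MeasurableEquiv.measurableEmbedding _)]
        refine lintegral_congr fun x => ?_
        simp [MeasurableEquiv.piFinSuccAbove_symm_apply, Fin.insertNthEquiv, Fin.prod_univ_succ]
      have h2 : ∫⁻ x : ℂ × (Fin n → ℂ), f 0 x.1 * ∏ i : Fin n, f (Fin.succ i) (x.2 i)
          = (∫⁻ x, f 0 x) * ∏ i : Fin n, ∫⁻ x, f (Fin.succ i) x := by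
        rw [← n_ih (fun i => f i.succ) (fun i => hf _)]
        exact lintegral_prod_mul (hf 0).aemeasurable
          (Finset.measurable_prod _ fun i _ => (hf _).comp (measurable_pi_apply i)).aemeasurable
      rw [h1, h2, Fin.prod_univ_succ]

end S3

end SE
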