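import Mathlib

/-!
# PROJECT SE, part S3: linear uniqueness

`r ≥ 0`, `s_0, …, s_r` distinct complex numbers, `x ∈ ℂ^r`, `h(X) = ∏ (X - x_a)`,
`F(X) = ∏ (X - s_j)`, `u_j = h(s_j)/F'(s_j)`, `U_i = u_0 + … + u_i`, `t_i = U_i / U_{i+1}`.
-/

set_option autoImplicit false

open Set Filter Topology Polynomial

noncomputable section

namespace SE

namespace S3

variable {r : ℕ}

/-- `F'(s_j)` -/
def Fd (s : Fin (r + 1) → ℂ) (j : Fin (r + 1)) : ℂ := ∏ l ∈ Finset.univ.erase j, (s j - s l)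

/-- `u_j = h(s_j)/F'(s_j)` -/
def uu (s : Fin (r + 1) → ℂ) (x : Fin r → ℂ) (j : Fin (r + 1)) : ℂ :=
  (∏ a, (s j - x a)) / Fd s j

/-- `U_i = u_0 + … + u_i` -/
def UU (s : Fin (r + 1) → ℂ) (x : Fin r → ℂ) (i : Fin (r + 1)) : ℂ :=
  ∑ j ∈ Finset.Iic i, uu s x j

/-- `t_i = U_i/U_{i+1}` -/
def tt (s : Fin (r + 1) → ℂ) (x : Fin r → ℂ) (i : Fin r) : ℂ := UU s x i.castSucc / UU s x i.succ

/-- the open set -/
def Om (s : Fin (r + 1) → ℂ) : Set (Fin r → ℂ) :=
  {x | Function.Injective x ∧ (∀ j, uu s x j ≠ 0) ∧ ∀ i, UU s x i ≠ 0}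

/-- the coordinates `x_a`, `t_i` -/
def xi (s : Fin (r + 1) → ℂ) (x : Fin r → ℂ) : Fin r ⊕ Fin r → ℂ := Sum.elim x (tt s x)

/-! ### derivatives -/

/-- the derivative of `u_j` -/
def Du (s : Fin (r + 1) → ℂ) (x : Fin r → ℂ) (j : Fin (r + 1)) : (Fin r → ℂ) →L[ℂ] ℂ :=
  ∑ b, (uu s x j / (x b - s j)) • ContinuousLinearMap.proj (R := ℂ) (φ := fun _ : Fin r => ℂ) b

/-- the derivative of `U_i` -/
def DU (s : Fin (r + 1) → ℂ) (x : Fin r → ℂ) (i : Fin (r + 1)) : (Fin r → ℂ) →L[ℂ] ℂ :=
  ∑ j ∈ Finset.Iic i, Du s x j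

/-- the derivative of `t_i` -/
def Dt (s : Fin (r + 1) → ℂ) (x : Fin r → ℂ) (i : Fin r) : (Fin r → ℂ) →L[ℂ] ℂ :=
  (UU s x i.succ)⁻¹ • DU s x i.castSucc
    - (UU s x i.castSucc / UU s x i.succ ^ 2) • DU s x i.succ

/-- the derivative of the coordinates -/
def Dxi (s : Fin (r + 1) → ℂ) (x : Fin r → ℂ) : Fin r ⊕ Fin r → ((Fin r → ℂ) →L[ℂ] ℂ) :=
  Sum.elim (fun a => ContinuousLinearMap.proj (R := ℂ) (φ := fun _ : Fin r => ℂ) a) (Dt s x)

theorem Fd_ne {s : Fin (r + 1) → ℂ} (hs : Function.Injective s) (j : Fin (r + 1)) :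
    Fd s j ≠ 0 := by
  rw [Fd, Finset.prod_ne_zero_iff]
  intro l hl
  rw [Finset.mem_erase] at hl
  exact sub_ne_zero.2 fun h => hl.1 (hs h).symm

theorem sub_ne {s : Fin (r + 1) → ℂ} {x : Fin r → ℂ} {j : Fin (r + 1)} (h : uu s x j ≠ 0)
    (b : Fin r) : s j - x b ≠ 0 := by
  intro h0
  apply h
  rw [uu, Finset.prod_eq_zero (Finset.mem_univ b) h0, zero_div]

theorem prod_erase_eq {s : Fin (r + 1) → ℂ} {x : Fin r → ℂ} {j : Fin (r + 1)}
    (h : uu s x j ≠ 0) (b : Fin r) :
    uu s x j / (x b - s j) = -((∏ c ∈ Finset.univ.erase b, (s j - x c)) / Fd s j) := by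
  classical
  have h1 := sub_ne h b
  have h2 : x b - s j ≠ 0 := fun h0 => h1 (by linear_combination -h0)
  rw [uu, ← Finset.mul_prod_erase Finset.univ (fun c => s j - x c) (Finset.mem_univ b)]
  rw [div_eq_iff h2]
  ring

theorem hasStrict_uu {s : Fin (r + 1) → ℂ} {x : Fin r → ℂ} {j : Fin (r + 1)}
    (h : uu s x j ≠ 0) : HasStrictFDerivAt (fun x => uu s x j) (Du s x j) x := by
  classical
  have h1 : HasStrictFDerivAt (fun x : Fin r → ℂ => ∏ a, (s j - x a))
      (∑ a, (∏ b ∈ Finset.univ.erase a, (s j - x b)) •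
        (-ContinuousLinearMap.proj (R := ℂ) (φ := fun _ : Fin r => ℂ) a)) x := by
    apply HasStrictFDerivAt.finsetProd
    intro a _
    have := ((ContinuousLinearMap.proj (R := ℂ) (φ := fun _ : Fin r => ℂ) a).hasStrictFDerivAt
      (x := x)).const_sub (s j)
    exact this
  have h2 := h1.mul_const (Fd s j)⁻¹
  refine (h2.congr_fderiv ?_).congr_of_eventuallyEq ?_
  · rw [Du, Finset.smul_sum]
    refine Finset.sum_congr rfl fun b _ => ?_
    rw [prod_erase_eq h b, smul_smul, smul_neg, ← neg_smul]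
    congr 1
    ring
  · exact Eventually.of_forall fun y => by simp [uu, div_eq_mul_inv]

theorem hasStrict_UU {s : Fin (r + 1) → ℂ} {x : Fin r → ℂ} (h : ∀ j, uu s x j ≠ 0)
    (i : Fin (r + 1)) : HasStrictFDerivAt (fun x => UU s x i) (DU s x i) x := by
  have := HasStrictFDerivAt.fun_sum (u := Finset.Iic i) (A := fun j x => uu s x j)
    (A' := fun j => Du s x j) (x := x) (fun j _ => hasStrict_uu (h j))
  exact this

theorem hasStrict_tt {s : Fin (r + 1) → ℂ} {x : Fin r → ℂ} (h : ∀ j, uu s x j ≠ 0)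
    (hU : ∀ i, UU s x i ≠ 0) (i : Fin r) :
    HasStrictFDerivAt (fun x => tt s x i) (Dt s x i) x := by
  have h1 := hasStrict_UU h i.castSucc
  have h2 := (hasStrictDerivAt_inv (hU i.succ)).comp_hasStrictFDerivAt x (hasStrict_UU h i.succ)
  have h3 := h1.mul h2
  refine (h3.congr_fderiv ?_).congr_of_eventuallyEq ?_
  · rw [Dt, smul_smul]
    simp only [Function.comp]
    rw [add_comm, sub_eq_add_neg]
    congr 1
    rw [← neg_smul (UU s x i.castSucc / UU s x i.succ ^ 2) (DU s x i.succ)]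
    congr 1
    ring
  · exact Eventually.of_forall fun y => by simp [tt, div_eq_mul_inv]

/-- the map `x ↦ (xi_f(1), …, xi_f(r))` -/
def ph (s : Fin (r + 1) → ℂ) (f : Fin r → Fin r ⊕ Fin r) (x : Fin r → ℂ) : Fin r → ℂ :=
  fun l => xi s x (f l)

/-- its derivative -/
def Dph (s : Fin (r + 1) → ℂ) (f : Fin r → Fin r ⊕ Fin r) (x : Fin r → ℂ) :
    (Fin r → ℂ) →L[ℂ] (Fin r → ℂ) :=
  ContinuousLinearMap.pi fun l => Dxi s x (f l)

theorem hasStrict_xi {s : Fin (r + 1) → ℂ} {x : Fin r → ℂ} (h : ∀ j, uu s x j ≠ 0)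
    (hU : ∀ i, UU s x i ≠ 0) (c : Fin r ⊕ Fin r) :
    HasStrictFDerivAt (fun x => xi s x c) (Dxi s x c) x := by
  rcases c with a | i
  · exact (ContinuousLinearMap.proj (R := ℂ) (φ := fun _ : Fin r => ℂ) a).hasStrictFDerivAt
  · exact hasStrict_tt h hU i

theorem hasStrict_ph {s : Fin (r + 1) → ℂ} {x : Fin r → ℂ} (hx : x ∈ Om s)
    (f : Fin r → Fin r ⊕ Fin r) : HasStrictFDerivAt (ph s f) (Dph s f x) x := by
  rw [Dph]
  exact hasStrictFDerivAt_pi.2 fun l => hasStrict_xi hx.2.1 hx.2.2 (f l)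

/-! ### continuity -/

theorem continuous_uu (s : Fin (r + 1) → ℂ) (j : Fin (r + 1)) : Continuous fun x => uu s x j := by
  unfold uu
  exact (continuous_finsetProd _ fun a _ =>
    continuous_const.sub (continuous_apply a)).div_const _

theorem continuous_UU (s : Fin (r + 1) → ℂ) (i : Fin (r + 1)) : Continuous fun x => UU s x i := by
  unfold UU
  exact continuous_finsetSum _ fun j _ => continuous_uu s j

theorem isOpen_Om (s : Fin (r + 1) → ℂ) : IsOpen (Om s) := by
  have h1 : IsOpen {x : Fin r → ℂ | Function.Injective x} := by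
    have : {x : Fin r → ℂ | Function.Injective x}
        = ⋂ a : Fin r, ⋂ b : Fin r, ⋂ _ : a ≠ b, {x | x a ≠ x b} := by
      ext x
      simp only [mem_iInter]
      constructor
      · intro h a b hab hx
        exact hab (h hx)
      · intro h a b hab
        by_contra hne
        exact h a b hne hab
    rw [this]
    refine isOpen_iInter_of_finite fun a => isOpen_iInter_of_finite fun b =>
      isOpen_iInter_of_finite fun _ => ?_
    exact isOpen_ne_fun (continuous_apply a) (continuous_apply b)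
  have h2 : IsOpen {x : Fin r → ℂ | ∀ j, uu s x j ≠ 0} := by
    have : {x : Fin r → ℂ | ∀ j, uu s x j ≠ 0} = ⋂ j, {x | uu s x j ≠ 0} := by
      ext x; simp only [mem_iInter]; rfl
    rw [this]
    exact isOpen_iInter_of_finite fun j => isOpen_ne_fun (continuous_uu s j) continuous_const
  have h3 : IsOpen {x : Fin r → ℂ | ∀ i, UU s x i ≠ 0} := by
    have : {x : Fin r → ℂ | ∀ i, UU s x i ≠ 0} = ⋂ i, {x | UU s x i ≠ 0} := by
      ext x; simp only [mem_iInter]; rfl
    rw [this]
    exact isOpen_iInter_of_finite fun i => isOpen_ne_fun (continuous_UU s i) continuous_const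
  exact h1.inter (h2.inter h3)

theorem continuousOn_Du (s : Fin (r + 1) → ℂ) (j : Fin (r + 1)) :
    ContinuousOn (fun x => Du s x j) (Om s) := by
  unfold Du
  refine continuousOn_finsetSum _ fun b _ => ContinuousOn.smul (ContinuousOn.div
    (continuous_uu s j).continuousOn ((continuous_apply b).sub continuous_const).continuousOn
    fun x hx => ?_) continuousOn_const
  have := sub_ne (hx.2.1 j) b
  intro h0
  have h0' : x b - s j = 0 := h0
  exact this (by linear_combination -h0')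

theorem continuousOn_DU (s : Fin (r + 1) → ℂ) (i : Fin (r + 1)) :
    ContinuousOn (fun x => DU s x i) (Om s) := by
  unfold DU
  exact continuousOn_finsetSum _ fun j _ => continuousOn_Du s j

theorem continuousOn_Dxi (s : Fin (r + 1) → ℂ) (c : Fin r ⊕ Fin r) :
    ContinuousOn (fun x => Dxi s x c) (Om s) := by
  rcases c with a | i
  · exact continuousOn_const
  · show ContinuousOn (fun x => Dt s x i) (Om s)
    unfold Dt
    refine ContinuousOn.sub (ContinuousOn.smul (ContinuousOn.inv₀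
      (continuous_UU s i.succ).continuousOn fun x hx => hx.2.2 _) (continuousOn_DU s _))
      (ContinuousOn.smul (ContinuousOn.div (continuous_UU s _).continuousOn
        ((continuous_UU s _).pow 2).continuousOn fun x hx => pow_ne_zero _ (hx.2.2 _))
        (continuousOn_DU s _))

theorem continuousOn_Dph (s : Fin (r + 1) → ℂ) (f : Fin r → Fin r ⊕ Fin r) :
    ContinuousOn (Dph s f) (Om s) := by
  have h1 : Dph s f = fun x => ∑ l, (ContinuousLinearMap.single ℂ (fun _ : Fin r => ℂ) l).comp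
      (Dxi s x (f l)) := by
    funext x
    ext v m
    rw [Dph, ContinuousLinearMap.pi_apply]
    simp [Pi.single_apply]
  rw [h1]
  refine continuousOn_finsetSum _ fun l _ => ?_
  exact continuousOn_const.clm_comp (continuousOn_Dxi s (f l))

/-! ### the fibres -/

/-- the polynomial with the zeros `x_a` -/
def HH (x : Fin r → ℂ) : ℂ[X] := ∏ a, (X - C (x a))

theorem HH_eval (x : Fin r → ℂ) (z : ℂ) : (HH x).eval z = ∏ a, (z - x a) := by
  simp [HH, eval_prod]

theorem deg_sub_lt (x x' : Fin r → ℂ) : (HH x' - HH x).degree < (r : WithBot ℕ) := by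
  have m1 : ∀ y : Fin r → ℂ, (HH y).Monic := fun y => monic_prod_of_monic _ _ fun a _ =>
    monic_X_sub_C _
  have d1 : ∀ y : Fin r → ℂ, (HH y).degree = r := fun y => by
    rw [degree_eq_natDegree (m1 y).ne_zero, HH, natDegree_prod_of_monic _ _ fun a _ =>
      monic_X_sub_C _]
    simp
  have := Polynomial.degree_sub_lt_left (p := HH x') (q := HH x) (by rw [d1, d1]) (m1 x').ne_zero
    (by rw [(m1 x').leadingCoeff, (m1 x).leadingCoeff])
  rwa [d1] at this

/-- the increment of `u` is linear -/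
def ww (x x' : Fin r → ℂ) (b : Fin r) : ℂ :=
  -(HH x').eval (x b) / ∏ c ∈ Finset.univ.erase b, (x b - x c)

theorem uu_sub {s : Fin (r + 1) → ℂ} {x : Fin r → ℂ} (x' : Fin r → ℂ)
    (hx : Function.Injective x) (j : Fin (r + 1)) (h : uu s x j ≠ 0) :
    uu s x' j - uu s x j = Du s x j (ww x x') := by
  classical
  have hq := Lagrange.eq_interpolate (s := (Finset.univ : Finset (Fin r))) (v := x)
    (f := HH x' - HH x) hx.injOn (by simpa using deg_sub_lt x x')
  have h1 : (HH x' - HH x).eval (s j) = ∑ b, (HH x').eval (x b) *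
      ((∏ c ∈ Finset.univ.erase b, (s j - x c)) / ∏ c ∈ Finset.univ.erase b, (x b - x c)) := by
    rw [hq, Lagrange.interpolate_apply, eval_finsetSum]
    refine Finset.sum_congr rfl fun b _ => ?_
    have h0 : (HH x).eval (x b) = 0 := by
      rw [HH_eval]
      exact Finset.prod_eq_zero (Finset.mem_univ b) (sub_self _)
    rw [eval_mul, eval_C, eval_sub, h0, sub_zero, Lagrange.basis, eval_prod]
    congr 1
    rw [← Finset.prod_div_distrib]
    refine Finset.prod_congr rfl fun c _ => ?_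
    simp [Lagrange.basisDivisor]
    ring
  have h2 : uu s x' j - uu s x j = (HH x' - HH x).eval (s j) / Fd s j := by
    rw [eval_sub, HH_eval, HH_eval, uu, uu, sub_div]
  rw [h2, h1, Du, Finset.sum_div, _root_.sum_apply]
  refine Finset.sum_congr rfl fun b _ => ?_
  rw [prod_erase_eq h b]
  simp only [ww, smul_apply, ContinuousLinearMap.proj_apply, smul_eq_mul]
  ring

theorem UU_sub {s : Fin (r + 1) → ℂ} {x : Fin r → ℂ} (x' : Fin r → ℂ)
    (hx : Function.Injective x) (i : Fin (r + 1)) (h : ∀ j, uu s x j ≠ 0) :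
    UU s x' i - UU s x i = DU s x i (ww x x') := by
  rw [UU, UU, DU, ← Finset.sum_sub_distrib, _root_.sum_apply]
  exact Finset.sum_congr rfl fun j _ => uu_sub x' hx j (h j)

theorem Dxi_ww {s : Fin (r + 1) → ℂ} {x x' : Fin r → ℂ} (hx : x ∈ Om s) (hx' : x' ∈ Om s)
    (c : Fin r ⊕ Fin r) (h : xi s x' c = xi s x c) : Dxi s x c (ww x x') = 0 := by
  rcases c with a | i
  · show ww x x' a = 0
    have h' : x' a = x a := h
    rw [ww, HH_eval, Finset.prod_eq_zero (Finset.mem_univ a) (by rw [h', sub_self])]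
    simp
  · have h' : tt s x' i = tt s x i := h
    show Dt s x i (ww x x') = 0
    have e1 := UU_sub x' hx.1 i.castSucc hx.2.1
    have e2 := UU_sub x' hx.1 i.succ hx.2.1
    have n1 := hx.2.2 i.succ
    have n2 := hx'.2.2 i.succ
    rw [Dt]
    simp only [sub_apply, smul_apply, smul_eq_mul]
    rw [← e1, ← e2]
    rw [tt, tt, div_eq_div_iff n2 n1] at h'
    field_simp
    linear_combination h'

theorem inj_of_det {f : (Fin r → ℂ) →L[ℂ] (Fin r → ℂ)} (hf : f.det ≠ 0) {w : Fin r → ℂ}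
    (hw : f w = 0) : w = 0 := by
  by_contra hne
  apply hf
  have : (f : (Fin r → ℂ) →ₗ[ℂ] (Fin r → ℂ)).det = 0 := by
    apply LinearMap.det_eq_zero_iff_ker_ne_bot.2
    intro hb
    have : w ∈ LinearMap.ker (f : (Fin r → ℂ) →ₗ[ℂ] (Fin r → ℂ)) := hw
    rw [hb] at this
    exact hne (by simpa using this)
  exact this

theorem perm_of_uu {s : Fin (r + 1) → ℂ} (hs : Function.Injective s) {x x' : Fin r → ℂ}
    (hx : Function.Injective x) (h : ∀ j, uu s x' j = uu s x j) :
    ∃ σ : Equiv.Perm (Fin r), x' = x ∘ σ := by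
  classical
  have h1 : ∀ j, (HH x' - HH x).eval (s j) = 0 := by
    intro j
    have := h j
    rw [uu, uu, div_left_inj' (Fd_ne hs j)] at this
    rw [eval_sub, HH_eval, HH_eval, this, sub_self]
  have h2 : HH x' - HH x = 0 := by
    refine Polynomial.eq_zero_of_degree_lt_of_eval_index_eq_zero
      (Finset.univ : Finset (Fin (r + 1))) (v := s) hs.injOn ?_ (fun j _ => h1 j)
    refine (deg_sub_lt x x').trans ?_
    rw [Finset.card_univ, Fintype.card_fin]
    exact_mod_cast Nat.lt_succ_self r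
  have h3 : ∀ a, ∃ b, x' b = x a := by
    intro a
    have e : (HH x').eval (x a) = 0 := by
      rw [sub_eq_zero.1 h2, HH_eval]
      exact Finset.prod_eq_zero (Finset.mem_univ a) (sub_self _)
    rw [HH_eval, Finset.prod_eq_zero_iff] at e
    obtain ⟨b, _, hb⟩ := e
    exact ⟨b, (sub_eq_zero.1 hb).symm⟩
  choose τ hτ using h3
  have hinj : Function.Injective τ := by
    intro a b hab
    apply hx
    rw [← hτ a, ← hτ b, hab]
  have hbij : Function.Bijective τ := Finite.injective_iff_bijective.1 hinj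
  let e := Equiv.ofBijective τ hbij
  refine ⟨e.symm, ?_⟩
  funext b
  show x' b = x (e.symm b)
  rw [← hτ (e.symm b)]
  congr 1
  exact (Equiv.ofBijective_apply_symm_apply τ hbij b).symm

theorem fibre_card {s : Fin (r + 1) → ℂ} (hs : Function.Injective s)
    (f : Fin r → Fin r ⊕ Fin r) (y : Fin r → ℂ) :
    {x | x ∈ Om s ∧ ph s f x = y ∧ (Dph s f x).det ≠ 0}.encard ≤ (r.factorial : ℕ) := by
  classical
  rcases Set.eq_empty_or_nonempty {x | x ∈ Om s ∧ ph s f x = y ∧ (Dph s f x).det ≠ 0} with h | h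
  · rw [h]; simp
  obtain ⟨x, hx, hxy, hd⟩ := h
  have hsub : {x | x ∈ Om s ∧ ph s f x = y ∧ (Dph s f x).det ≠ 0}
      ⊆ (Finset.univ.image fun σ : Equiv.Perm (Fin r) => x ∘ σ : Finset (Fin r → ℂ)) := by
    intro x' hx'
    obtain ⟨hx'O, hx'y, _⟩ := hx'
    have hz : Dph s f x (ww x x') = 0 := by
      funext l
      rw [Dph, ContinuousLinearMap.pi_apply]
      apply Dxi_ww hx hx'O
      have := congrFun (hx'y.trans hxy.symm) l
      exact this
    have hw := inj_of_det hd hz
    obtain ⟨σ, hσ⟩ := perm_of_uu hs hx.1 (x' := x') (fun j => by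
      have := uu_sub x' hx.1 j (hx.2.1 j)
      rw [hw, map_zero] at this
      exact sub_eq_zero.1 this)
    rw [Finset.coe_image, Finset.coe_univ, Set.image_univ]
    exact ⟨σ, hσ.symm⟩
  refine (Set.encard_le_encard hsub).trans ?_
  rw [Set.encard_coe_eq_coe_finsetCard]
  have := (Finset.card_image_le (s := (Finset.univ : Finset (Equiv.Perm (Fin r))))
    (f := fun σ : Equiv.Perm (Fin r) => x ∘ σ))
  rw [Finset.card_univ, Fintype.card_perm, Fintype.card_fin] at this
  exact_mod_cast this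

end S3

end SE
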