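import Pool.Agent.Lib.SE.S3.Area
import Pool.Agent.Lib.SE.S3.PiL
import Pool.Agent.Lib.SE.S3.Uniq

/-!
# PROJECT SE, part S3: the basic integral bound

`∫_Om ∏_l W_l(xi_{f l}(x)) |det d(xi_{f 1}, …, xi_{f r})/dx|² dx ≤ r! ∏_l ∫_ℂ W_l`.
-/

set_option autoImplicit false

open MeasureTheory Set
open scoped ENNReal

noncomputable section

namespace SE

namespace S3

theorem pull_bound {r : ℕ} {s : Fin (r + 1) → ℂ} (hs : Function.Injective s)
    (f : Fin r → Fin r ⊕ Fin r) (W : Fin r → ℂ → ℝ≥0∞) (hW : ∀ l, Measurable (W l)) :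
    ∫⁻ x in Om s, (∏ l, W l (xi s x (f l))) * ‖(Dph s f x).det‖ₑ ^ 2
      ≤ (r.factorial : ℝ≥0∞) * ∏ l, ∫⁻ z, W l z := by
  have h := area_mult (isOpen_Om s) (φ := ph s f) (φ' := Dph s f)
    (fun x hx => hasStrict_ph hx f) (continuousOn_Dph s f) r.factorial (fibre_card hs f)
    (fun y => ∏ l, W l (y l))
    (Finset.measurable_prod _ fun l _ => (hW l).comp (measurable_pi_apply l))
  rw [lintegral_pi_prod W hW] at h
  exact h

end S3

end SE
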