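import Pool.Agent.Lib.SE.S3.Spec
import Pool.Agent.Lib.SE.S3.Pull

/-!
# PROJECT SE, part S3: the area formula for trees
-/

set_option autoImplicit false

open Set Filter Topology MeasureTheory
open scoped ENNReal

noncomputable section

namespace HC.SE.G2

open _root_.SE.S3

variable {r : ℕ}

theorem ux_eq (s : Fin (r + 1) → ℂ) (x : Fin r → ℂ) (j : Fin (r + 1)) :
    _root_.SE.ux s x j = uu s x j := rfl

theorem uu_ne_of_ne {s : Fin (r + 1) → ℂ} (hs : Function.Injective s) {x : Fin r → ℂ}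
    (hx : ∀ a j, x a ≠ s j) (j : Fin (r + 1)) : uu s x j ≠ 0 := by
  rw [uu]
  refine div_ne_zero (Finset.prod_ne_zero_iff.2 fun a _ => ?_) (Fd_ne hs j)
  exact sub_ne_zero.2 (hx a j).symm

/-- the derivative of `U_L` -/
def DL (s : Fin (r + 1) → ℂ) (x : Fin r → ℂ) (L : Finset (Fin (r + 1))) : (Fin r → ℂ) →L[ℂ] ℂ :=
  ∑ j ∈ L, Du s x j

/-- the derivative of `t_i` -/
def DtL (s : Fin (r + 1) → ℂ) (L R : Fin r → Finset (Fin (r + 1))) (x : Fin r → ℂ) (i : Fin r) :
    (Fin r → ℂ) →L[ℂ] ℂ :=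
  (UL s (L i) x + UL s (R i) x)⁻¹ • DL s x (L i)
    - (UL s (L i) x / (UL s (L i) x + UL s (R i) x) ^ 2) • (DL s x (L i) + DL s x (R i))

/-- the derivative of the coordinates -/
def DxiL (s : Fin (r + 1) → ℂ) (L R : Fin r → Finset (Fin (r + 1))) (x : Fin r → ℂ) :
    Fin r ⊕ Fin r → ((Fin r → ℂ) →L[ℂ] ℂ) :=
  Sum.elim (fun a => ContinuousLinearMap.proj (R := ℂ) (φ := fun _ : Fin r => ℂ) a)
    (DtL s L R x)

/-- the open set -/
def OmT (s : Fin (r + 1) → ℂ) (L R : Fin r → Finset (Fin (r + 1))) : Set (Fin r → ℂ) :=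
  {x | Function.Injective x ∧ (∀ j, uu s x j ≠ 0) ∧ ∀ i, UL s (L i) x + UL s (R i) x ≠ 0}

theorem Gd_sub {s : Fin (r + 1) → ℂ} (hs : Function.Injective s)
    (L R : Fin r → Finset (Fin (r + 1))) : Gd s L R ⊆ OmT s L R :=
  fun _ hx => ⟨hx.1, uu_ne_of_ne hs hx.2.1, fun i => (hx.2.2 i).2.2⟩

theorem hasStrict_UL {s : Fin (r + 1) → ℂ} {x : Fin r → ℂ} (h : ∀ j, uu s x j ≠ 0)
    (L : Finset (Fin (r + 1))) : HasStrictFDerivAt (UL s L) (DL s x L) x := by
  have := HasStrictFDerivAt.fun_sum (u := L) (A := fun j x => uu s x j)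
    (A' := fun j => Du s x j) (x := x) (fun j _ => hasStrict_uu (h j))
  exact this

theorem hasStrict_tL {s : Fin (r + 1) → ℂ} {x : Fin r → ℂ} (h : ∀ j, uu s x j ≠ 0)
    {L R : Fin r → Finset (Fin (r + 1))} {i : Fin r}
    (hU : UL s (L i) x + UL s (R i) x ≠ 0) :
    HasStrictFDerivAt (tL s L R i) (DtL s L R x i) x := by
  have h1 := hasStrict_UL h (L i)
  have h2 := (hasStrictDerivAt_inv hU).comp_hasStrictFDerivAt x
    ((hasStrict_UL h (L i)).fun_add (hasStrict_UL h (R i)))
  have h3 := h1.mul h2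
  refine (h3.congr_fderiv ?_).congr_of_eventuallyEq ?_
  · rw [DtL, smul_smul]
    simp only [Function.comp]
    rw [add_comm, sub_eq_add_neg]
    congr 1
    rw [← neg_smul (UL s (L i) x / (UL s (L i) x + UL s (R i) x) ^ 2)
      (DL s x (L i) + DL s x (R i))]
    congr 1
    ring
  · exact Eventually.of_forall fun y => by simp [tL, div_eq_mul_inv]

theorem hasStrict_xiL {s : Fin (r + 1) → ℂ} {L R : Fin r → Finset (Fin (r + 1))}
    {x : Fin r → ℂ} (hx : x ∈ OmT s L R) (c : Fin r ⊕ Fin r) :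
    HasStrictFDerivAt (xiL s L R c) (DxiL s L R x c) x := by
  rcases c with a | i
  · exact (ContinuousLinearMap.proj (R := ℂ) (φ := fun _ : Fin r => ℂ) a).hasStrictFDerivAt
  · exact hasStrict_tL hx.2.1 (hx.2.2 i)

/-- the map `x ↦ (xi_f(1), …, xi_f(r))` -/
def phL (s : Fin (r + 1) → ℂ) (L R : Fin r → Finset (Fin (r + 1))) (f : Fin r → Fin r ⊕ Fin r)
    (x : Fin r → ℂ) : Fin r → ℂ := fun l => xiL s L R (f l) x

/-- its derivative -/
def DphL (s : Fin (r + 1) → ℂ) (L R : Fin r → Finset (Fin (r + 1))) (f : Fin r → Fin r ⊕ Fin r)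
    (x : Fin r → ℂ) : (Fin r → ℂ) →L[ℂ] (Fin r → ℂ) :=
  ContinuousLinearMap.pi fun l => DxiL s L R x (f l)

theorem hasStrict_phL {s : Fin (r + 1) → ℂ} {L R : Fin r → Finset (Fin (r + 1))}
    {x : Fin r → ℂ} (hx : x ∈ OmT s L R) (f : Fin r → Fin r ⊕ Fin r) :
    HasStrictFDerivAt (phL s L R f) (DphL s L R f x) x := by
  rw [DphL]
  exact hasStrictFDerivAt_pi.2 fun l => hasStrict_xiL hx (f l)

/-! ### continuity -/

theorem continuous_UL (s : Fin (r + 1) → ℂ) (L : Finset (Fin (r + 1))) :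
    Continuous (UL s L) := by
  have : UL s L = fun x => ∑ j ∈ L, uu s x j := by
    funext x; rfl
  rw [this]
  exact continuous_finsetSum _ fun j _ => continuous_uu s j

theorem isOpen_inj : IsOpen {x : Fin r → ℂ | Function.Injective x} := by
  have : {x : Fin r → ℂ | Function.Injective x}
      = ⋂ a : Fin r, ⋂ b : Fin r, ⋂ _ : a ≠ b, {x | x a ≠ x b} := by
    ext x
    simp only [mem_iInter]
    constructor
    · intro h a b hab hx
      exact hab (h hx)
    · intro h a b hab
      by_contra hne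
      exact h a b hne hab
  rw [this]
  refine isOpen_iInter_of_finite fun a => isOpen_iInter_of_finite fun b =>
    isOpen_iInter_of_finite fun _ => ?_
  exact isOpen_ne_fun (continuous_apply a) (continuous_apply b)

theorem isOpen_OmT (s : Fin (r + 1) → ℂ) (L R : Fin r → Finset (Fin (r + 1))) :
    IsOpen (OmT s L R) := by
  have h2 : IsOpen {x : Fin r → ℂ | ∀ j, uu s x j ≠ 0} := by
    have : {x : Fin r → ℂ | ∀ j, uu s x j ≠ 0} = ⋂ j, {x | uu s x j ≠ 0} := by
      ext x; simp only [mem_iInter]; rfl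
    rw [this]
    exact isOpen_iInter_of_finite fun j => isOpen_ne_fun (continuous_uu s j) continuous_const
  have h3 : IsOpen {x : Fin r → ℂ | ∀ i, UL s (L i) x + UL s (R i) x ≠ 0} := by
    have : {x : Fin r → ℂ | ∀ i, UL s (L i) x + UL s (R i) x ≠ 0}
        = ⋂ i, {x | UL s (L i) x + UL s (R i) x ≠ 0} := by
      ext x; simp only [mem_iInter]; rfl
    rw [this]
    exact isOpen_iInter_of_finite fun i => isOpen_ne_fun
      ((continuous_UL s _).add (continuous_UL s _)) continuous_const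
  exact isOpen_inj.inter (h2.inter h3)

theorem continuousOn_DL (s : Fin (r + 1) → ℂ) (L R : Fin r → Finset (Fin (r + 1)))
    (L' : Finset (Fin (r + 1))) : ContinuousOn (fun x => DL s x L') (OmT s L R) := by
  unfold DL Du
  refine continuousOn_finsetSum _ fun j _ => continuousOn_finsetSum _ fun b _ =>
    ContinuousOn.smul (ContinuousOn.div
    (continuous_uu s j).continuousOn ((continuous_apply b).sub continuous_const).continuousOn
    fun x hx => ?_) continuousOn_const
  have := sub_ne (hx.2.1 j) b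
  intro h0
  have h0' : x b - s j = 0 := h0
  exact this (by linear_combination -h0')

theorem continuousOn_DxiL (s : Fin (r + 1) → ℂ) (L R : Fin r → Finset (Fin (r + 1)))
    (c : Fin r ⊕ Fin r) : ContinuousOn (fun x => DxiL s L R x c) (OmT s L R) := by
  rcases c with a | i
  · exact continuousOn_const
  · show ContinuousOn (fun x => DtL s L R x i) (OmT s L R)
    have hW : Continuous fun x => UL s (L i) x + UL s (R i) x :=
      (continuous_UL s _).add (continuous_UL s _)
    unfold DtL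
    refine ContinuousOn.sub (ContinuousOn.smul (ContinuousOn.inv₀
      hW.continuousOn fun x hx => hx.2.2 i) (continuousOn_DL s L R _))
      (ContinuousOn.smul (ContinuousOn.div (continuous_UL s _).continuousOn
        (hW.pow 2).continuousOn fun x hx => pow_ne_zero _ (hx.2.2 i))
        ((continuousOn_DL s L R _).add (continuousOn_DL s L R _)))

theorem continuousOn_DphL (s : Fin (r + 1) → ℂ) (L R : Fin r → Finset (Fin (r + 1)))
    (f : Fin r → Fin r ⊕ Fin r) : ContinuousOn (DphL s L R f) (OmT s L R) := by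
  have h1 : DphL s L R f = fun x => ∑ l,
      (ContinuousLinearMap.single ℂ (fun _ : Fin r => ℂ) l).comp (DxiL s L R x (f l)) := by
    funext x
    ext v m
    rw [DphL, ContinuousLinearMap.pi_apply]
    simp [Pi.single_apply]
  rw [h1]
  refine continuousOn_finsetSum _ fun l _ => ?_
  exact continuousOn_const.clm_comp (continuousOn_DxiL s L R (f l))

/-! ### the fibres -/

theorem UL_sub {s : Fin (r + 1) → ℂ} {x : Fin r → ℂ} (x' : Fin r → ℂ)
    (hx : Function.Injective x) (L : Finset (Fin (r + 1))) (h : ∀ j, uu s x j ≠ 0) :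
    UL s L x' - UL s L x = DL s x L (ww x x') := by
  rw [UL, UL, DL, ← Finset.sum_sub_distrib, _root_.sum_apply]
  exact Finset.sum_congr rfl fun j _ => uu_sub x' hx j (h j)

theorem DxiL_ww {s : Fin (r + 1) → ℂ} {L R : Fin r → Finset (Fin (r + 1))}
    {x x' : Fin r → ℂ} (hx : x ∈ OmT s L R) (hx' : x' ∈ OmT s L R)
    (c : Fin r ⊕ Fin r) (h : xiL s L R c x' = xiL s L R c x) : DxiL s L R x c (ww x x') = 0 := by
  rcases c with a | i
  · show ww x x' a = 0
    have h' : x' a = x a := h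
    rw [ww, HH_eval, Finset.prod_eq_zero (Finset.mem_univ a) (by rw [h', sub_self])]
    simp
  · have h' : tL s L R i x' = tL s L R i x := h
    show DtL s L R x i (ww x x') = 0
    have e1 := UL_sub x' hx.1 (L i) hx.2.1
    have e2 := UL_sub x' hx.1 (R i) hx.2.1
    have n1 := hx.2.2 i
    have n2 := hx'.2.2 i
    rw [DtL]
    simp only [sub_apply, smul_apply, _root_.add_apply, smul_eq_mul]
    rw [← e1, ← e2]
    rw [tL, tL, div_eq_div_iff n2 n1] at h'
    field_simp
    linear_combination h'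

theorem fibre_cardL {s : Fin (r + 1) → ℂ} (hs : Function.Injective s)
    (L R : Fin r → Finset (Fin (r + 1)))
    (f : Fin r → Fin r ⊕ Fin r) (y : Fin r → ℂ) :
    {x | x ∈ OmT s L R ∧ phL s L R f x = y ∧ (DphL s L R f x).det ≠ 0}.encard
      ≤ (r.factorial : ℕ) := by
  classical
  rcases Set.eq_empty_or_nonempty
    {x | x ∈ OmT s L R ∧ phL s L R f x = y ∧ (DphL s L R f x).det ≠ 0} with h | h
  · rw [h]; simp
  obtain ⟨x, hx, hxy, hd⟩ := h
  have hsub : {x | x ∈ OmT s L R ∧ phL s L R f x = y ∧ (DphL s L R f x).det ≠ 0}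
      ⊆ (Finset.univ.image fun σ : Equiv.Perm (Fin r) => x ∘ σ : Finset (Fin r → ℂ)) := by
    intro x' hx'
    obtain ⟨hx'O, hx'y, _⟩ := hx'
    have hz : DphL s L R f x (ww x x') = 0 := by
      funext l
      rw [DphL, ContinuousLinearMap.pi_apply]
      apply DxiL_ww hx hx'O
      have := congrFun (hx'y.trans hxy.symm) l
      exact this
    have hw := inj_of_det hd hz
    obtain ⟨σ, hσ⟩ := perm_of_uu hs hx.1 (x' := x') (fun j => by
      have := uu_sub x' hx.1 j (hx.2.1 j)
      rw [hw, map_zero] at this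
      exact sub_eq_zero.1 this)
    rw [Finset.coe_image, Finset.coe_univ, Set.image_univ]
    exact ⟨σ, hσ.symm⟩
  refine (Set.encard_le_encard hsub).trans ?_
  rw [Set.encard_coe_eq_coe_finsetCard]
  have := (Finset.card_image_le (s := (Finset.univ : Finset (Equiv.Perm (Fin r))))
    (f := fun σ : Equiv.Perm (Fin r) => x ∘ σ))
  rw [Finset.card_univ, Fintype.card_perm, Fintype.card_fin] at this
  exact_mod_cast this

theorem det_DphL (s : Fin (r + 1) → ℂ) (L R : Fin r → Finset (Fin (r + 1)))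
    (f : Fin r → Fin r ⊕ Fin r) {x : Fin r → ℂ} (hx : x ∈ OmT s L R) :
    (DphL s L R f x).det
      = Matrix.det (Matrix.of fun l a => fderiv ℂ (xiL s L R (f l)) x (Pi.single a 1)) := by
  have : (DphL s L R f x).det = LinearMap.det ((DphL s L R f x : (Fin r → ℂ) →L[ℂ] (Fin r → ℂ)) :
    (Fin r → ℂ) →ₗ[ℂ] (Fin r → ℂ)) := rfl
  rw [this, ← LinearMap.det_toMatrix']
  congr 1
  ext l a
  rw [LinearMap.toMatrix'_apply, Matrix.of_apply, (hasStrict_xiL hx (f l)).hasFDerivAt.fderiv]
  have h2 : (fun j' => if j' = a then (1 : ℂ) else 0) = Pi.single a 1 := by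
    funext j'
    rw [Pi.single_apply]
  simp [DphL, h2]

theorem s_pull : S_pull := by
  intro r s L R hs f W hW
  have h := area_mult (isOpen_OmT s L R) (φ := phL s L R f) (φ' := DphL s L R f)
    (fun x hx => hasStrict_phL hx f) (continuousOn_DphL s L R f) r.factorial
    (fibre_cardL hs L R f)
    (fun y => ∏ l, W l (y l))
    (Finset.measurable_prod _ fun l _ => (hW l).comp (measurable_pi_apply l))
  rw [lintegral_pi_prod W hW] at h
  refine le_trans ?_ h
  refine (lintegral_mono_set (Gd_sub hs L R)).trans (le_of_eq ?_)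
  refine setLIntegral_congr_fun (isOpen_OmT s L R).measurableSet ?_
  intro x hx
  show _ = (∏ l, W l (phL s L R f x l)) * ‖(DphL s L R f x).det‖ₑ ^ 2
  rw [det_DphL s L R f hx]
  rfl

end HC.SE.G2
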