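import Pool.Agent.Lib.SE.Iface
import Pool.Agent.Lib.SE.S2.Lag

/-!
# PROJECT SE, group G2: integrability and assembly (owner helper41)

* interface with G1: `S_pos` (the tree, the sheets, the positive determinant), over the base
  `Gd ⊆ ℂ^r`. `L i`, `R i`: the leaves on the left and on the right of the node `i`.
* `S_int`: integrability of all `2r`-forms `∏ (α + conj β)`.
* `S_alg`, `S_exp`: the bound by complex minors.
* `S_pull`: the area formula.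
* `S_mea`: measurability of the differential of a curve along an explicit branch.
* target of G2: `S_pos → S_crv → S_cyc`.
-/

set_option autoImplicit false

open Finset MeasureTheory
open scoped ComplexConjugate ENNReal

noncomputable section

namespace HC.SE

variable {r : ℕ}

/-- `U_L = ∑_{j ∈ L} u_j`, `u_j = h(s_j)/F'(s_j)` -/
def UL (s : Fin (r + 1) → ℂ) (L : Finset (Fin (r + 1))) (x : Fin r → ℂ) : ℂ :=
  ∑ j ∈ L, _root_.SE.ux s x j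

/-- `t_i = U_L / (U_L + U_R)` -/
def tL (s : Fin (r + 1) → ℂ) (L R : Fin r → Finset (Fin (r + 1))) (i : Fin r) (x : Fin r → ℂ) :
    ℂ :=
  UL s (L i) x / (UL s (L i) x + UL s (R i) x)

/-- The base: the open set of the good points of `ℂ^r`. -/
def Gd (s : Fin (r + 1) → ℂ) (L R : Fin r → Finset (Fin (r + 1))) : Set (Fin r → ℂ) :=
  {x | Function.Injective x ∧ (∀ a j, x a ≠ s j) ∧
    ∀ i, UL s (L i) x ≠ 0 ∧ UL s (R i) x ≠ 0 ∧ UL s (L i) x + UL s (R i) x ≠ 0}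

/-- The sheets over `x`: `y_a ^ m = ∏_j (x_a - s_j) ^ b_j`, `v_i ^ m = t_i ^ c_i (1 - t_i) ^ d_i`,
`∏ y_a = k ∏ v_i`. -/
def Sh (m : ℕ) (s : Fin (r + 1) → ℂ) (b : Fin (r + 1) → ℕ) (L R : Fin r → Finset (Fin (r + 1)))
    (k : ℂ) (x : Fin r → ℂ) : Set (Fin r ⊕ Fin r → ℂ) :=
  {y | (∀ a, y (Sum.inl a) ^ m = ∏ j, (x a - s j) ^ b j) ∧
    (∀ i, y (Sum.inr i) ^ m =
      tL s L R i x ^ (∑ j ∈ L i, b j) * (1 - tL s L R i x) ^ (∑ j ∈ R i, b j)) ∧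
    ∏ a, y (Sum.inl a) = k * ∏ i, y (Sum.inr i)}

/-- `x ^ i y ^ u dx / ∏_j (x - s_j) ^ (1 + [u b_j / m])`, summed over the points `(x_a, y_a)`, on
the tangent vector `v`. -/
def RA (m : ℕ) (s : Fin (r + 1) → ℂ) (b : Fin (r + 1) → ℕ) (u i : ℕ) (x : Fin r → ℂ)
    (y : Fin r ⊕ Fin r → ℂ) (v : Fin r → ℂ) : ℂ :=
  ∑ a, v a * (x a ^ i * y (Sum.inl a) ^ u / ∏ j, (x a - s j) ^ (1 + u * b j / m))

/-- `v_i ^ u dt_i / (t_i ^ (1 + [u c_i / m]) (1 - t_i) ^ (1 + [u d_i / m]))` on the tangent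
vector `v`. -/
def RT (m : ℕ) (s : Fin (r + 1) → ℂ) (b : Fin (r + 1) → ℕ) (L R : Fin r → Finset (Fin (r + 1)))
    (u : ℕ) (i : Fin r) (x : Fin r → ℂ) (y : Fin r ⊕ Fin r → ℂ) (v : Fin r → ℂ) : ℂ :=
  fderiv ℂ (tL s L R i) x v * (y (Sum.inr i) ^ u /
    (tL s L R i x ^ (1 + u * (∑ j ∈ L i, b j) / m) *
      (1 - tL s L R i x) ^ (1 + u * (∑ j ∈ R i, b j) / m)))

/-- The number of the holomorphic forms of the character `u`. -/
def pu (m : ℕ) (b : Fin (r + 1) → ℕ) (u : ℕ) : ℕ :=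
  (univ.filter fun i : Fin r => m * (i : ℕ) + ∑ j, (u * b j) % m < m * r).card

/-- The matrix of the `2r` forms on the real basis `HC.frame` of `ℂ^r`. -/
def MM (m : ℕ) (s : Fin (r + 1) → ℂ) (b : Fin (r + 1) → ℕ) (L R : Fin r → Finset (Fin (r + 1)))
    (u : ℕ) (x : Fin r → ℂ) (y : Fin r ⊕ Fin r → ℂ) : Matrix (Fin (2 * r)) (Fin (2 * r)) ℂ :=
  Matrix.of fun k l =>
    if h : k.1 < r then
      (if k.1 < pu m b u then RA m s b u k.1 x y (frame r l)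
        else conj (RA m s b (m - u) (k.1 - pu m b u) x y (frame r l)))
    else
      (if (u * ∑ j ∈ L ⟨k.1 - r, by omega⟩, b j) % m
            + (u * ∑ j ∈ R ⟨k.1 - r, by omega⟩, b j) % m < m
        then conj (RT m s b L R u ⟨k.1 - r, by omega⟩ x y (frame r l))
        else RT m s b L R (m - u) ⟨k.1 - r, by omega⟩ x y (frame r l))

/-- (G1 → G2) The tree, the constant `k`, and the positive determinant. -/
def S_pos : Prop :=
  ∀ (m r : ℕ) (s : Fin (r + 1) → ℂ) (b : Fin (r + 1) → ℕ), IsCov m s b →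
    ∃ (L R : Fin r → Finset (Fin (r + 1))) (k : ℂ),
      (∀ i, (L i).Nonempty ∧ (R i).Nonempty ∧ Disjoint (L i) (R i)) ∧
      (∀ i, ¬ m ∣ ∑ j ∈ L i, b j ∧ ¬ m ∣ ∑ j ∈ R i, b j ∧
        ¬ m ∣ (∑ j ∈ L i, b j) + ∑ j ∈ R i, b j) ∧
      (∀ u : ℕ, u.Coprime m →
        (univ.filter fun i : Fin r => (u * ∑ j ∈ L i, b j) % m + (u * ∑ j ∈ R i, b j) % m < m).card =
          pu m b u) ∧
      ∀ u < m, u.Coprime m → ∃ (K : ℂ) (p : (Fin r → ℂ) → ℝ), K ≠ 0 ∧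
        ∀ x ∈ Gd s L R, 0 < p x ∧
          ∑ᶠ y ∈ Sh m s b L R k x, (MM m s b L R u x y).det = K * p x

/-- (G1 → G2, pointwise form) The tree, the constant `k`, and the pointwise positive determinant. -/
def S_pt : Prop :=
  ∀ (m r : ℕ) (s : Fin (r + 1) → ℂ) (b : Fin (r + 1) → ℕ), IsCov m s b →
    ∃ (L R : Fin r → Finset (Fin (r + 1))) (k : ℂ),
      (∀ i, (L i).Nonempty ∧ (R i).Nonempty ∧ Disjoint (L i) (R i)) ∧
      (∀ i, ¬ m ∣ ∑ j ∈ L i, b j ∧ ¬ m ∣ ∑ j ∈ R i, b j ∧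
        ¬ m ∣ (∑ j ∈ L i, b j) + ∑ j ∈ R i, b j) ∧
      (∀ u : ℕ, u.Coprime m →
        (univ.filter fun i : Fin r => (u * ∑ j ∈ L i, b j) % m + (u * ∑ j ∈ R i, b j) % m < m).card =
          pu m b u) ∧
      ∀ u < m, u.Coprime m → ∃ K : ℂ, K ≠ 0 ∧ ∀ x ∈ Gd s L R,
        (∃ y ∈ Sh m s b L R k x, (MM m s b L R u x y).det ≠ 0) ∧
        ∀ y ∈ Sh m s b L R k x, ∃ p : ℝ, 0 ≤ p ∧ (MM m s b L R u x y).det = K * p

/-- (area formula) for `xi = (x_1, …, x_r, t_1, …, t_r)` -/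
def xiL (s : Fin (r + 1) → ℂ) (L R : Fin r → Finset (Fin (r + 1))) (c : Fin r ⊕ Fin r)
    (x : Fin r → ℂ) : ℂ :=
  Sum.elim (fun a => x a) (fun i => tL s L R i x) c

def S_pull : Prop :=
  ∀ (r : ℕ) (s : Fin (r + 1) → ℂ) (L R : Fin r → Finset (Fin (r + 1))), Function.Injective s →
    ∀ (f : Fin r → Fin r ⊕ Fin r) (W : Fin r → ℂ → ℝ≥0∞), (∀ l, Measurable (W l)) →
      ∫⁻ x in Gd s L R, (∏ l, W l (xiL s L R (f l) x)) *
        ‖Matrix.det (Matrix.of fun l a => fderiv ℂ (xiL s L R (f l)) x (Pi.single a 1))‖ₑ ^ 2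
      ≤ (r.factorial : ℝ≥0∞) * ∏ l, ∫⁻ z, W l z

/-- real determinants by squares of complex minors -/
def S_hol : Prop :=
  ∀ r : ℕ, ∃ M : ℝ, 0 ≤ M ∧ ∀ A B : Fin (2 * r) → ((Fin r → ℂ) →ₗ[ℂ] ℂ),
    ‖Matrix.det (Matrix.of fun i j => A i (frame r j) + conj (B i (frame r j)))‖ ≤
      M * ∑ e : Fin (2 * r) → Bool, ∑ g : Fin r → Fin (2 * r),
        ‖Matrix.det (Matrix.of fun l a =>
          (if e (g l) then A (g l) else B (g l)) (Pi.single a 1))‖ ^ 2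

/-- expansion of a complex minor -/
def S_exp : Prop :=
  ∀ (r : ℕ) (W : Fin r → Fin r ⊕ Fin r → ℂ) (D : Fin r ⊕ Fin r → Fin r → ℂ),
    ‖Matrix.det (Matrix.of fun l a => ∑ c, W l c * D c a)‖ ^ 2 ≤
      ((2 * r) ^ r : ℕ) * ∑ f : Fin r → Fin r ⊕ Fin r,
        (∏ l, ‖W l (f l)‖ ^ 2) * ‖Matrix.det (Matrix.of fun l a => D (f l) a)‖ ^ 2

/-- INTEGRABILITY: all products of `2r` square integrable forms. -/
def S_int : Prop :=
  ∀ (r : ℕ) (s : Fin (r + 1) → ℂ) (L R : Fin r → Finset (Fin (r + 1))), Function.Injective s →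
    ∀ α β : Fin (2 * r) → Fin r ⊕ Fin r → ℂ → ℂ,
      (∀ i c, Measurable (α i c)) → (∀ i c, Measurable (β i c)) →
      (∀ i c, ∫⁻ z, ‖α i c z‖ₑ ^ 2 < ⊤) → (∀ i c, ∫⁻ z, ‖β i c z‖ₑ ^ 2 < ⊤) →
      IntegrableOn (fun x => Matrix.det (Matrix.of fun i l => ∑ c,
        (α i c (xiL s L R c x) * fderiv ℂ (xiL s L R c) x (frame r l) +
          conj (β i c (xiL s L R c x) * fderiv ℂ (xiL s L R c) x (frame r l))))) (Gd s L R)

/-- The branch number `k` of the root: `exp (2 π i k / m) f ^ (1/m)`. -/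
def br (m : ℕ) (f : ℂ → ℂ) (k : Fin m) (x : ℂ) : ℂ :=
  Complex.exp (2 * Real.pi * Complex.I * k / m) * f x ^ (1 / m : ℂ)

/-- MEASURABILITY of the differential along the branches, and finite area. -/
def S_mea : Prop :=
  ∀ (T : AV) (γ : Crv T) (m : ℕ) (f : ℂ → ℂ), m ≠ 0 → Continuous f →
    (∀ x y, γ.P (x, y) = y ^ m - f x) → (∀ x ∉ γ.S, f x ≠ 0) →
    ∀ (k : Fin m) (B : T.V →ₗ[ℂ] ℂ),
      Measurable (fun x => {x | x ∉ γ.S}.indicator (fun x => B (γ.ω x (br m f k x))) x) ∧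
      ∫⁻ x, ‖{x | x ∉ γ.S}.indicator (fun x => B (γ.ω x (br m f k x))) x‖ₑ ^ 2 < ⊤

/-- the sheets by branch numbers -/
def S_she : Prop :=
  ∀ (ι : Type) [Fintype ι] [DecidableEq ι] (m : ℕ) (f : ι → ℂ → ℂ) (x : ι → ℂ)
    (Q : (ι → ℂ) → Prop) [DecidablePred Q] (E : Type) [AddCommGroup E] (G : (ι → ℂ) → E), m ≠ 0 →
    (∀ j, f j (x j) ≠ 0) →
    ∑ᶠ y ∈ {y : ι → ℂ | (∀ j, y j ^ m = f j (x j)) ∧ Q y}, G y =
      ∑ k : ι → Fin m, if Q (fun j => br m (f j) (k j) (x j))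
        then G (fun j => br m (f j) (k j) (x j)) else 0

end HC.SE
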